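import Pool.Agent.Lib.MP_5bde83_ag.Geo
import Pool.Agent.Lib.MP_5bde83_ag.Biv

section

namespace Pool.Agent.Lib.MP_5bde83_ag

open Polynomial

variable {n : ℕ} {ω : Fin 3 → MvPolynomial (Fin 3) ℂ}

/-! ### ring homomorphisms and the moving point -/

theorem evAux_hom {S : Type*} [CommRing S] [Algebra ℂ S] (σ : R2 →+* S)
    (hσ : ∀ c : ℂ, σ (C (C c)) = algebraMap ℂ S c) (e1 e2 s : Fin 3 → ℂ)
    (F : MvPolynomial (Fin 3) ℂ) :
    σ (MvPolynomial.aeval (pt e1 e2 s) F) =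
      MvPolynomial.aeval (fun j => σ (pt e1 e2 s j)) F := by
  induction F using MvPolynomial.induction_on with
  | C a =>
    rw [← MvPolynomial.algebraMap_eq, AlgHom.commutes, AlgHom.commutes]
    exact hσ a
  | add p q hp hq => rw [map_add, map_add, map_add, hp, hq]
  | mul_X p j hp => rw [map_mul, map_mul, map_mul, hp, MvPolynomial.aeval_X, MvPolynomial.aeval_X]

theorem evAux_R2 (σ : R2 →+* R2) (hσ : ∀ c : ℂ, σ (C (C c)) = C (C c))
    (e1 e2 s e1' e2' s' w : Fin 3 → ℂ) (hpt : ∀ j, σ (pt e1 e2 s j) = pt e1' e2' s' j) :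
    σ (ev ω e1 e2 s w) = ev ω e1' e2' s' w := by
  have halg : ∀ c : ℂ, σ (C (C c)) = algebraMap ℂ R2 c := fun c => hσ c
  have hfun : (fun j => σ (pt e1 e2 s j)) = pt e1' e2' s' := funext hpt
  unfold ev
  rw [map_sum]
  refine Finset.sum_congr rfl fun j _ => ?_
  rw [map_mul, hσ, evAux_hom σ halg, hfun]

theorem ev_add (e1 e2 s w w' : Fin 3 → ℂ) :
    ev ω e1 e2 s (w + w') = ev ω e1 e2 s w + ev ω e1 e2 s w' := by
  unfold ev
  rw [← Finset.sum_add_distrib]
  refine Finset.sum_congr rfl fun j _ => ?_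
  simp only [Pi.add_apply, C_add]
  ring

theorem ev_smul (e1 e2 s w : Fin 3 → ℂ) (c : ℂ) :
    ev ω e1 e2 s (c • w) = C (C c) * ev ω e1 e2 s w := by
  unfold ev
  rw [Finset.mul_sum]
  refine Finset.sum_congr rfl fun j _ => ?_
  simp only [Pi.smul_apply, smul_eq_mul, C_mul]
  ring

theorem ev_euler (h : ∑ j, MvPolynomial.X j * ω j = 0) (e1 e2 s : Fin 3 → ℂ) :
    C X * ev ω e1 e2 s e1 + X * ev ω e1 e2 s e2 + ev ω e1 e2 s s = 0 := by
  have h2 := congrArg (MvPolynomial.aeval (pt e1 e2 s)) h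
  rw [map_sum, map_zero] at h2
  rw [← h2]
  unfold ev
  rw [Finset.mul_sum, Finset.mul_sum, ← Finset.sum_add_distrib, ← Finset.sum_add_distrib]
  refine Finset.sum_congr rfl fun j _ => ?_
  rw [map_mul, MvPolynomial.aeval_X]
  unfold pt
  ring

/-! ### the degree, and the reversal -/

/-- `f` and `f'` are reversals of each other as forms of degree `m` -/
def RevPair (m : ℕ) (f f' : R2) : Prop :=
  Deg m f ∧ Deg m f' ∧
    ∀ i j k : ℕ, i + j + k = m → (f.coeff j).coeff i = (f'.coeff j).coeff k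

theorem RevPair.add' {m : ℕ} {f f' g g' : R2} (hf : RevPair m f f') (hg : RevPair m g g') :
    RevPair m (f + g) (f' + g') := by
  obtain ⟨h1, h2, h3⟩ := hf
  obtain ⟨k1, k2, k3⟩ := hg
  refine ⟨?_, ?_, ?_⟩
  · intro i j hij
    by_contra hlt
    have e1 : (f.coeff j).coeff i = 0 := by
      by_contra hh
      exact hlt (h1 i j hh)
    have e2 : (g.coeff j).coeff i = 0 := by
      by_contra hh
      exact hlt (k1 i j hh)
    exact hij (by simp [e1, e2])
  · intro i j hij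
    by_contra hlt
    have e1 : (f'.coeff j).coeff i = 0 := by
      by_contra hh
      exact hlt (h2 i j hh)
    have e2 : (g'.coeff j).coeff i = 0 := by
      by_contra hh
      exact hlt (k2 i j hh)
    exact hij (by simp [e1, e2])
  · intro i j k hijk
    simp [h3 i j k hijk, k3 i j k hijk]

theorem RevPair.zero' (m : ℕ) : RevPair m 0 0 := by
  refine ⟨?_, ?_, ?_⟩
  · intro i j hij
    simp at hij
  · intro i j hij
    simp at hij
  · intro i j k _
    simp

theorem RevPair.cc_mul {m : ℕ} {f f' : R2} (c : ℂ) (hf : RevPair m f f') :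
    RevPair m (C (C c) * f) (C (C c) * f') := by
  obtain ⟨h1, h2, h3⟩ := hf
  refine ⟨?_, ?_, ?_⟩
  · intro i j hij
    rw [coeff_C_mul, coeff_C_mul] at hij
    exact h1 i j (right_ne_zero_of_mul hij)
  · intro i j hij
    rw [coeff_C_mul, coeff_C_mul] at hij
    exact h2 i j (right_ne_zero_of_mul hij)
  · intro i j k hijk
    rw [coeff_C_mul, coeff_C_mul, coeff_C_mul, coeff_C_mul, h3 i j k hijk]

theorem RevPair.sum' {m : ℕ} {ι : Type*} (s : Finset ι) (f f' : ι → R2)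
    (h : ∀ i ∈ s, RevPair m (f i) (f' i)) : RevPair m (∑ i ∈ s, f i) (∑ i ∈ s, f' i) := by
  classical
  induction s using Finset.induction_on with
  | empty => simpa using RevPair.zero' m
  | insert a s ha ih =>
    rw [Finset.sum_insert ha, Finset.sum_insert ha]
    exact (h a (Finset.mem_insert_self a s)).add'
      (ih (fun i hi => h i (Finset.mem_insert_of_mem hi)))

theorem evAux_one : RevPair 0 1 1 := by
  have h1 : Deg 0 (1 : R2) := by
    intro i j hij
    rw [coeff_one] at hij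
    split_ifs at hij with h1
    · rw [coeff_one] at hij
      split_ifs at hij with h2
      · omega
      · exact absurd rfl hij
    · simp at hij
  refine ⟨h1, h1, ?_⟩
  intro i j k hijk
  have hi : i = 0 := by omega
  have hk : k = 0 := by omega
  rw [hi, hk]

/-- coefficient of a product with a linear form -/
theorem evAux_lin_coeff (a b c : ℂ) (f : R2) (i j : ℕ) :
    (((C (C a) * C X + C (C b) * X + C (C c)) * f).coeff j).coeff i =
      a * (if i = 0 then 0 else (f.coeff j).coeff (i - 1)) +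
      b * (if j = 0 then 0 else (f.coeff (j - 1)).coeff i) + c * (f.coeff j).coeff i := by
  have e1 : (C (C a) * C X + C (C b) * X + C (C c)) * f =
      C (C a) * (C X * f) + C (C b) * (X * f) + C (C c) * f := by ring
  rw [e1, coeff_add, coeff_add, coeff_add, coeff_add, coeff_C_mul, coeff_C_mul, coeff_C_mul,
    coeff_C_mul, coeff_C_mul, coeff_C_mul, coeff_C_mul]
  congr 2
  · rcases i with _ | i
    · simp
    · rw [coeff_X_mul]
      simp
  · rcases j with _ | j
    · simp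
    · rw [coeff_X_mul]
      simp

theorem evAux_lin_deg (a b c : ℂ) {m : ℕ} {f : R2} (h : Deg m f) :
    Deg (m + 1) ((C (C a) * C X + C (C b) * X + C (C c)) * f) := by
  intro i j hij
  by_contra hlt
  apply hij
  rw [evAux_lin_coeff]
  have key : ∀ i' j' : ℕ, m < i' + j' → (f.coeff j').coeff i' = 0 := by
    intro i' j' hh
    by_contra hne
    have := h i' j' hne
    omega
  rw [key i j (by omega)]
  have e1 : (if i = 0 then (0 : ℂ) else (f.coeff j).coeff (i - 1)) = 0 := by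
    split_ifs with h0
    · rfl
    · exact key _ _ (by omega)
  have e2 : (if j = 0 then (0 : ℂ) else (f.coeff (j - 1)).coeff i) = 0 := by
    split_ifs with h0
    · rfl
    · exact key _ _ (by omega)
  rw [e1, e2]
  ring

theorem RevPair.lin {m : ℕ} {f f' : R2} (a b c : ℂ) (hf : RevPair m f f') :
    RevPair (m + 1) ((C (C a) * C X + C (C b) * X + C (C c)) * f)
      ((C (C c) * C X + C (C b) * X + C (C a)) * f') := by
  obtain ⟨h1, h2, h3⟩ := hf
  refine ⟨evAux_lin_deg a b c h1, evAux_lin_deg c b a h2, ?_⟩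
  intro i j k hijk
  rw [evAux_lin_coeff, evAux_lin_coeff]
  have keyf : ∀ i' j' : ℕ, m < i' + j' → (f.coeff j').coeff i' = 0 := by
    intro i' j' hh
    by_contra hne
    have := h1 i' j' hne
    omega
  have keyf' : ∀ i' j' : ℕ, m < i' + j' → (f'.coeff j').coeff i' = 0 := by
    intro i' j' hh
    by_contra hne
    have := h2 i' j' hne
    omega
  have e1 : (if i = 0 then (0 : ℂ) else (f.coeff j).coeff (i - 1)) = (f'.coeff j).coeff k := by
    split_ifs with h0
    · exact (keyf' _ _ (by omega)).symm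
    · exact h3 _ _ _ (by omega)
  have e2 : (if j = 0 then (0 : ℂ) else (f.coeff (j - 1)).coeff i) =
      (if j = 0 then (0 : ℂ) else (f'.coeff (j - 1)).coeff k) := by
    split_ifs with h0
    · rfl
    · exact h3 _ _ _ (by omega)
  have e3 : (f.coeff j).coeff i = (if k = 0 then (0 : ℂ) else (f'.coeff j).coeff (k - 1)) := by
    split_ifs with h0
    · exact keyf _ _ (by omega)
    · exact h3 _ _ _ (by omega)
  rw [e1, e2, e3]
  ring

theorem RevPair.lin_pow {m : ℕ} {f f' : R2} (a b c : ℂ) (hf : RevPair m f f') (r : ℕ) :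
    RevPair (m + r) ((C (C a) * C X + C (C b) * X + C (C c)) ^ r * f)
      ((C (C c) * C X + C (C b) * X + C (C a)) ^ r * f') := by
  induction r with
  | zero => simpa using hf
  | succ r ih =>
    have := ih.lin a b c
    rw [← mul_assoc, ← mul_assoc, ← pow_succ', ← pow_succ'] at this
    exact this

theorem evAux_homog (e1 e2 s : Fin 3 → ℂ) {m : ℕ} {F : MvPolynomial (Fin 3) ℂ}
    (hF : F.IsHomogeneous m) :
    RevPair m (MvPolynomial.aeval (pt e1 e2 s) F) (MvPolynomial.aeval (pt s e2 e1) F) := by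
  rw [MvPolynomial.aeval_def, MvPolynomial.aeval_def, MvPolynomial.eval₂_eq',
    MvPolynomial.eval₂_eq']
  refine RevPair.sum' _ _ _ ?_
  intro d hd
  have hdeg : d 0 + d 1 + d 2 = m := by
    have h1 := hF (MvPolynomial.mem_support_iff.1 hd)
    rw [Finsupp.weight_apply, Finsupp.sum_fintype _ _ (by simp), Fin.sum_univ_three] at h1
    simpa using h1
  have halg : ∀ c : ℂ, algebraMap ℂ R2 c = C (C c) := fun c => rfl
  rw [halg]
  refine RevPair.cc_mul _ ?_
  rw [Fin.prod_univ_three, Fin.prod_univ_three]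
  have h0 := ((evAux_one.lin_pow (e1 2) (e2 2) (s 2) (d 2)).lin_pow (e1 1) (e2 1) (s 1)
    (d 1)).lin_pow (e1 0) (e2 0) (s 0) (d 0)
  have hm : 0 + d 2 + d 1 + d 0 = m := by omega
  rw [hm, mul_one, mul_one, ← mul_assoc, ← mul_assoc] at h0
  exact h0

theorem evAux_rev (h : ∀ j, (ω j).IsHomogeneous (n + 1)) (e1 e2 s w : Fin 3 → ℂ) :
    RevPair (n + 1) (ev ω e1 e2 s w) (ev ω s e2 e1 w) := by
  unfold ev
  exact RevPair.sum' _ _ _ fun j _ => RevPair.cc_mul _ (evAux_homog e1 e2 s (h j))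

theorem ev_deg (h : ∀ j, (ω j).IsHomogeneous (n + 1)) (e1 e2 s w : Fin 3 → ℂ) :
    Deg (n + 1) (ev ω e1 e2 s w) :=
  (evAux_rev h e1 e2 s w).1

/-- reversal: exchange of `e1` and `s` -/
theorem ev_rev (h : ∀ j, (ω j).IsHomogeneous (n + 1)) (e1 e2 s w : Fin 3 → ℂ) (i j k : ℕ)
    (hijk : i + j + k = n + 1) :
    ((ev ω e1 e2 s w).coeff j).coeff i = ((ev ω s e2 e1 w).coeff j).coeff k :=
  (evAux_rev h e1 e2 s w).2.2 i j k hijk

/-- exchange of `e1` and `e2` -/
theorem ev_swap (e1 e2 s w : Fin 3 → ℂ) (i j : ℕ) :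
    ((ev ω e1 e2 s w).coeff j).coeff i = ((ev ω e2 e1 s w).coeff i).coeff j := by
  let σ : R2 →+* R2 := eval₂RingHom (eval₂RingHom ((C : Polynomial ℂ →+* R2).comp C) X) (C X)
  have hC : ∀ c : ℂ, σ (C (C c)) = C (C c) := by
    intro c
    simp [σ]
  have hx : σ (C X) = X := by simp [σ]
  have hy : σ X = C X := by simp [σ]
  have h1 := evAux_R2 (ω := ω) σ hC e1 e2 s e2 e1 s w (by
    intro j
    unfold pt
    rw [map_add, map_add, map_mul, map_mul, hC, hC, hC, hx, hy]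
    ring)
  rw [← h1]
  generalize ev ω e1 e2 s w = f
  induction f using R2_ind with
  | hadd f g hf hg => simp [hf, hg]
  | hmon j' i' c =>
    have h2 : σ (monomial j' (monomial i' c)) = monomial i' (monomial j' c) := by
      rw [← C_mul_X_pow_eq_monomial, ← C_mul_X_pow_eq_monomial, ← C_mul_X_pow_eq_monomial,
        ← C_mul_X_pow_eq_monomial, map_mul, map_pow, hy, C_mul, map_mul, hC, C_pow, map_pow, hx,
        C_mul, C_pow]
      ring
    rw [h2]
    simp only [coeff_monomial]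
    split_ifs <;> simp_all [coeff_monomial]

/-- translation along the line `y = 0` -/
theorem ev_trans (e1 e2 s w : Fin 3 → ℂ) (t : ℂ) (j : ℕ) :
    (ev ω e1 e2 (s + t • e1) w).coeff j = ((ev ω e1 e2 s w).coeff j).comp (X + C t) := by
  let σ : R2 →+* R2 := mapRingHom (compRingHom (X + C t))
  have h1 := evAux_R2 (ω := ω) σ (by intro c; simp [σ]) e1 e2 s e1 e2 (s + t • e1) w (by
    intro j
    unfold pt
    simp only [σ, map_add, map_mul, coe_mapRingHom, map_C, map_X, coe_compRingHom_apply, C_comp,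
      X_comp, Pi.add_apply, Pi.smul_apply, smul_eq_mul]
    ring)
  rw [← h1]
  simp [σ, coeff_map]

theorem evAux_shear (e1 e2 s w : Fin 3 → ℂ) (t : ℂ) :
    phi 1 1 (ev ω e1 (e2 + t • e1) s w) =
      (phi 1 1 (ev ω e1 e2 s w)).map (compRingHom (X + C t)) := by
  let σ : R2 →+* R2 := eval₂RingHom (eval₂RingHom ((C : Polynomial ℂ →+* R2).comp C)
    (C X + C (C t) * X)) X
  have hC : ∀ c : ℂ, σ (C (C c)) = C (C c) := by
    intro c
    simp [σ]
  have hx : σ (C X) = C X + C (C t) * X := by simp [σ]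
  have hy : σ X = X := by simp [σ]
  have h1 := evAux_R2 (ω := ω) σ hC e1 e2 s e1 (e2 + t • e1) s w (by
    intro j
    unfold pt
    rw [map_add, map_add, map_mul, map_mul, hC, hC, hC, hx, hy]
    simp only [Pi.add_apply, Pi.smul_apply, smul_eq_mul, C_add, C_mul]
    ring)
  rw [← h1]
  have h2 : (phi 1 1).comp σ = (mapRingHom (compRingHom (X + C t))).comp (phi 1 1) := by
    refine Polynomial.ringHom_ext' (Polynomial.ringHom_ext' ?_ ?_) ?_
    · ext c
      simp [hC, phi_CC]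
    · simp [hx, phi_CX, phi_CC, phi_X]
      ring
    · simp [hy, phi_X]
  exact congrArg (fun g : R2 →+* R2 => g (ev ω e1 e2 s w)) h2

/-- shear -/
theorem ev_shear_wc (e1 e2 s w : Fin 3 → ℂ) (t : ℂ) (k : ℕ) :
    wc 1 1 k (ev ω e1 (e2 + t • e1) s w) = (wc 1 1 k (ev ω e1 e2 s w)).comp (X + C t) := by
  unfold wc
  rw [evAux_shear, coeff_map]
  rfl

theorem ev_shear_Ord (e1 e2 s w : Fin 3 → ℂ) (t : ℂ) (k : ℕ) (h : Ord 1 1 k (ev ω e1 e2 s w)) :
    Ord 1 1 k (ev ω e1 (e2 + t • e1) s w) := by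
  refine Ord_of_wc one_pos ?_
  intro l hl
  rw [ev_shear_wc, wc_eq_zero_of_Ord one_pos h hl, zero_comp]

/-- evaluation -/
theorem ev_eval (e1 e2 s w : Fin 3 → ℂ) (x y : ℂ) :
    ((ev ω e1 e2 s w).eval (C y)).eval x = dot (evv ω (x • e1 + y • e2 + s)) w := by
  let σ : R2 →+* ℂ := (evalRingHom x).comp (evalRingHom (C y))
  have hσ : ∀ f : R2, (f.eval (C y)).eval x = σ f := fun f => rfl
  have hC : ∀ c : ℂ, σ (C (C c)) = c := by
    intro c
    simp [σ]
  rw [hσ]
  unfold ev dot evv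
  rw [map_sum]
  refine Finset.sum_congr rfl fun j _ => ?_
  rw [map_mul, hC, evAux_hom σ (fun c => hC c), mul_comm]
  congr 1
  rw [← MvPolynomial.coe_aeval_eq_eval]
  have : (fun j => σ (pt e1 e2 s j)) = x • e1 + y • e2 + s := by
    funext j
    simp [σ, pt]
    ring
  rw [this]
  rfl

/-- if the line through `e1` and `s` is invariant, `A` vanishes on it -/
theorem ev_inv_y (h : ∑ j, MvPolynomial.X j * ω j = 0) (l e1 e2 s : Fin 3 → ℂ)
    (hl : InvLine ω l) (h1 : dot l e1 = 0) (hs : dot l s = 0) :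
    (ev ω e1 e2 s e1).coeff 0 = 0 := by
  apply Polynomial.funext
  intro x
  have h2 := ev_eval (ω := ω) e1 e2 s e1 x 0
  rw [C_0, ← coeff_zero_eq_eval_zero] at h2
  rw [h2, eval_zero]
  have h3 : dot l (x • e1 + (0 : ℂ) • e2 + s) = 0 := by
    simp only [dot, Fin.sum_univ_three, Pi.add_apply, Pi.smul_apply, smul_eq_mul] at h1 hs ⊢
    linear_combination x * h1 + hs
  obtain ⟨c, hc⟩ := hl.2 _ h3
  rw [hc]
  simp only [dot, Fin.sum_univ_three, Pi.smul_apply, smul_eq_mul] at h1 ⊢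
  linear_combination c * h1

/-- if the line through `e2` and `s` is invariant, `x` divides `B` -/
theorem ev_inv_x (h : ∑ j, MvPolynomial.X j * ω j = 0) (l e1 e2 s : Fin 3 → ℂ)
    (hl : InvLine ω l) (h1 : dot l e2 = 0) (hs : dot l s = 0) :
    C X ∣ ev ω e1 e2 s e2 := by
  have hmap : (ev ω e1 e2 s e2).map (evalRingHom 0) = 0 := by
    apply Polynomial.funext
    intro y
    have h2 := ev_eval (ω := ω) e1 e2 s e2 0 y
    have h4 : ∀ f : R2, (f.map (evalRingHom (0 : ℂ))).eval y = (f.eval (C y)).eval 0 := by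
      intro f
      have h5 : (evalRingHom y).comp (mapRingHom (evalRingHom (0 : ℂ))) =
          (evalRingHom (0 : ℂ)).comp (evalRingHom (C y)) := by
        refine Polynomial.ringHom_ext' (Polynomial.ringHom_ext' ?_ ?_) ?_
        · ext c
          simp
        · simp
        · simp
      exact congrArg (fun g : R2 →+* ℂ => g f) h5
    rw [h4, h2, eval_zero]
    have h3 : dot l ((0 : ℂ) • e1 + y • e2 + s) = 0 := by
      simp only [dot, Fin.sum_univ_three, Pi.add_apply, Pi.smul_apply, smul_eq_mul] at h1 hs ⊢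
      linear_combination y * h1 + hs
    obtain ⟨c, hc⟩ := hl.2 _ h3
    rw [hc]
    simp only [dot, Fin.sum_univ_three, Pi.smul_apply, smul_eq_mul] at h1 ⊢
    linear_combination c * h1
  rw [C_dvd_iff_dvd_coeff]
  intro j
  rw [X_dvd_iff]
  have := congrArg (fun f : Polynomial ℂ => f.coeff j) hmap
  simp only [coeff_map, coeff_zero, coe_evalRingHom] at this
  rwa [coeff_zero_eq_eval_zero]

/-- lines through `s` give roots of `x a + b` -/
theorem ev_inv_root (h : ∑ j, MvPolynomial.X j * ω j = 0) (l e1 e2 s : Fin 3 → ℂ) (ν : ℕ)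
    (hA : Ord 1 1 ν (ev ω e1 e2 s e1)) (hB : Ord 1 1 ν (ev ω e1 e2 s e2))
    (hl : InvLine ω l) (hs : dot l s = 0) (r : ℂ) (h1 : dot l e1 ≠ 0)
    (hr : dot l e1 * r + dot l e2 = 0) :
    (X * wc 1 1 ν (ev ω e1 e2 s e1) + wc 1 1 ν (ev ω e1 e2 s e2)).IsRoot r := by
  set A := ev ω e1 e2 s e1 with hAdef
  set B := ev ω e1 e2 s e2 with hBdef
  -- the polynomial in `y` obtained by the substitution `x = r y`
  have hsub : ∀ (f : R2) (y : ℂ), ((phi 1 1 f).map (evalRingHom r)).eval y =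
      (f.eval (C y)).eval (r * y) := by
    intro f y
    have h2 : ((evalRingHom y).comp (mapRingHom (evalRingHom r))).comp (phi 1 1) =
        (evalRingHom (r * y)).comp (evalRingHom (C y)) := by
      refine Polynomial.ringHom_ext' (Polynomial.ringHom_ext' ?_ ?_) ?_
      · ext c
        simp [phi_CC]
      · simp [phi_CX]
      · simp [phi_X]
    exact congrArg (fun g : R2 →+* ℂ => g f) h2
  have hzero : (phi 1 1 (C X * A + X * B)).map (evalRingHom r) = 0 := by
    apply Polynomial.funext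
    intro y
    rw [hsub, eval_zero]
    have h3 : C X * A + X * B = - ev ω e1 e2 s s := by
      have := ev_euler h e1 e2 s
      linear_combination this
    rw [h3, eval_neg, eval_neg, ev_eval]
    have h4 : dot l ((r * y) • e1 + y • e2 + s) = 0 := by
      simp only [dot, Fin.sum_univ_three, Pi.add_apply, Pi.smul_apply, smul_eq_mul] at hr hs ⊢
      linear_combination y * hr + hs
    obtain ⟨c, hc⟩ := hl.2 _ h4
    rw [hc]
    simp only [dot, Fin.sum_univ_three, Pi.smul_apply, smul_eq_mul] at hs ⊢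
    linear_combination (-c) * hs
  have hcoeff := congrArg (fun f : Polynomial ℂ => f.coeff (ν + 1)) hzero
  simp only [coeff_map, coeff_zero, coe_evalRingHom] at hcoeff
  rw [IsRoot.def, ← hcoeff]
  congr 1
  unfold wc
  rw [map_add, map_mul, map_mul, phi_CX, phi_X, pow_one, coeff_add, coeff_X_mul, mul_assoc,
    coeff_C_mul, coeff_X_mul]

end Pool.Agent.Lib.MP_5bde83_ag
end

section

set_option linter.unusedSectionVars false
set_option linter.unusedVariables false

namespace Pool.Agent.Lib.MP_5bde83_ag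

open Polynomial

variable {ι : Type} [Fintype ι] [DecidableEq ι]

/-! ### auxiliary statements -/

theorem linesProd_Ord {κ : Type*} {N D : ℕ} (s : Finset κ) (k : κ → ℕ) (f : κ → R2)
    (h : ∀ i ∈ s, Ord N D (k i) (f i)) : Ord N D (∑ i ∈ s, k i) (∏ i ∈ s, f i) := by
  classical
  induction s using Finset.induction_on with
  | empty => simpa using Ord_zero N D 1
  | insert a s ha ih =>
    rw [Finset.sum_insert ha, Finset.prod_insert ha]
    exact (h a (Finset.mem_insert_self a s)).mul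
      (ih fun i hi => h i (Finset.mem_insert_of_mem hi))

theorem linesProd_wc_one (N D : ℕ) : wc N D 0 (1 : R2) = 1 := by
  unfold wc; rw [map_one]; simp

theorem linesProd_wc {κ : Type*} {N D : ℕ} (hD : 0 < D) (s : Finset κ) (k : κ → ℕ)
    (f : κ → R2) (h : ∀ i ∈ s, Ord N D (k i) (f i)) :
    wc N D (∑ i ∈ s, k i) (∏ i ∈ s, f i) = ∏ i ∈ s, wc N D (k i) (f i) := by
  classical
  induction s using Finset.induction_on with
  | empty => simpa using linesProd_wc_one N D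
  | insert a s ha ih =>
    have h' : ∀ i ∈ s, Ord N D (k i) (f i) := fun i hi => h i (Finset.mem_insert_of_mem hi)
    rw [Finset.sum_insert ha, Finset.prod_insert ha, Finset.prod_insert ha,
      wc_mul hD (h a (Finset.mem_insert_self a s)) (linesProd_Ord s k f h'), ih h']

theorem linesProd_CC (N D : ℕ) (c : ℂ) : Ord N D 0 (C (C c) : R2) := Ord_zero _ _ _

theorem linesProd_wc_CC (N D : ℕ) (c : ℂ) : wc N D 0 (C (C c) : R2) = C c := by
  unfold wc; rw [phi_CC]; simp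

theorem linesProd_wc_Lin {N D : ℕ} (k : ℕ) (u : Fin 3 → ℂ) :
    wc N D k (Lin u) = (if k = N then C (u 0) * X else 0) + (if k = D then C (u 1) else 0) +
      (if k = 0 then C (u 2) else 0) := by
  unfold wc Lin
  rw [map_add, map_add, map_mul, map_mul, phi_CC, phi_CC, phi_CC, phi_CX, phi_X, coeff_add,
    coeff_add]
  congr 1
  · congr 1
    · rw [← mul_assoc, ← C_mul, coeff_C_mul_X_pow]
    · rw [coeff_C_mul_X_pow]
  · rw [coeff_C]

theorem linesProd_Ord_Lin {N D k : ℕ} (u : Fin 3 → ℂ) (h0 : u 0 ≠ 0 → k ≤ N)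
    (h1 : u 1 ≠ 0 → k ≤ D) (h2 : u 2 ≠ 0 → k = 0) : Ord N D k (Lin u) := by
  unfold Lin
  refine Ord.add (Ord.add ?_ ?_) ?_
  · by_cases h : u 0 = 0
    · rw [h]; simpa using Ord_zero_poly N D k
    · exact Ord.mul_left _ ((Ord_CX N D).mono (h0 h))
  · by_cases h : u 1 = 0
    · rw [h]; simpa using Ord_zero_poly N D k
    · exact Ord.mul_left _ ((Ord_X N D).mono (h1 h))
  · by_cases h : u 2 = 0
    · rw [h]; simpa using Ord_zero_poly N D k
    · rw [h2 h]; exact Ord_zero _ _ _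

theorem linesProd_ne {u : Fin 3 → ℂ} (hu : u ≠ 0) (h2 : u 2 = 0) (h1 : u 1 = 0) : u 0 ≠ 0 := by
  intro h0
  apply hu
  funext i
  fin_cases i <;> simp [h0, h1, h2]

theorem linesProd_ne' {u : Fin 3 → ℂ} (hu : u ≠ 0) (h2 : u 2 = 0) (h0 : u 0 = 0) : u 1 ≠ 0 := by
  intro h1
  apply hu
  funext i
  fin_cases i <;> simp [h0, h1, h2]

/-- lowest form of a product of lines, weights `(1,1)` -/
theorem lines_one (c : ℂ) (hc : c ≠ 0) (u : ι → Fin 3 → ℂ) (hu : ∀ i, u i ≠ 0) :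
    Ord 1 1 (Finset.univ.filter (fun i => u i 2 = 0)).card (C (C c) * ∏ i, Lin (u i)) ∧
    ∃ c' : ℂ, c' ≠ 0 ∧
      wc 1 1 (Finset.univ.filter (fun i => u i 2 = 0)).card (C (C c) * ∏ i, Lin (u i)) =
        C c' * ∏ i ∈ Finset.univ.filter (fun i => u i 2 = 0), (C (u i 0) * X + C (u i 1)) := by
  classical
  have hk : (Finset.univ.filter (fun i => u i 2 = 0)).card =
      0 + ∑ i : ι, (if u i 2 = 0 then 1 else 0) := by
    rw [zero_add, Finset.card_filter]
  have hO : ∀ i ∈ (Finset.univ : Finset ι), Ord 1 1 (if u i 2 = 0 then 1 else 0) (Lin (u i)) := by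
    intro i _
    apply linesProd_Ord_Lin
    · intro _; split_ifs <;> omega
    · intro _; split_ifs <;> omega
    · intro h; rw [if_neg h]
  constructor
  · rw [hk]
    exact (linesProd_CC 1 1 c).mul (linesProd_Ord _ _ _ hO)
  · refine ⟨c * ∏ i ∈ Finset.univ.filter (fun i => ¬ u i 2 = 0), u i 2, ?_, ?_⟩
    · refine mul_ne_zero hc (Finset.prod_ne_zero_iff.2 ?_)
      intro i hi
      exact (Finset.mem_filter.1 hi).2
    · rw [hk, wc_mul one_pos (linesProd_CC 1 1 c) (linesProd_Ord _ _ _ hO), linesProd_wc_CC,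
        linesProd_wc one_pos _ _ _ hO]
      rw [← Finset.prod_filter_mul_prod_filter_not Finset.univ (fun i => u i 2 = 0)
        (fun i => wc 1 1 (if u i 2 = 0 then 1 else 0) (Lin (u i)))]
      have e1 : ∏ i ∈ Finset.univ.filter (fun i => u i 2 = 0),
          wc 1 1 (if u i 2 = 0 then 1 else 0) (Lin (u i)) =
          ∏ i ∈ Finset.univ.filter (fun i => u i 2 = 0), (C (u i 0) * X + C (u i 1)) := by
        refine Finset.prod_congr rfl fun i hi => ?_
        rw [if_pos (Finset.mem_filter.1 hi).2, linesProd_wc_Lin]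
        simp
      have e2 : ∏ i ∈ Finset.univ.filter (fun i => ¬ u i 2 = 0),
          wc 1 1 (if u i 2 = 0 then 1 else 0) (Lin (u i)) =
          C (∏ i ∈ Finset.univ.filter (fun i => ¬ u i 2 = 0), u i 2) := by
        rw [map_prod]
        refine Finset.prod_congr rfl fun i hi => ?_
        rw [if_neg (Finset.mem_filter.1 hi).2, linesProd_wc_Lin]
        simp
      rw [e1, e2, C_mul]
      ring

theorem linesProd_factor_ne {a b : ℂ} (h : a ≠ 0 ∨ b ≠ 0) :
    (C a * X + C b : Polynomial ℂ) ≠ 0 := by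
  intro h0
  have h1 := congrArg (fun p : Polynomial ℂ => p.coeff 1) h0
  have h2 := congrArg (fun p : Polynomial ℂ => p.coeff 0) h0
  simp at h1 h2
  rcases h with h | h
  · exact h h1
  · exact h h2

theorem linesProd_prod_ne (s : Finset ι) (u : ι → Fin 3 → ℂ)
    (hu : ∀ i ∈ s, u i 0 ≠ 0 ∨ u i 1 ≠ 0) :
    (∏ i ∈ s, (C (u i 0) * X + C (u i 1)) : Polynomial ℂ) ≠ 0 :=
  Finset.prod_ne_zero_iff.2 fun i hi => linesProd_factor_ne (hu i hi)

/-- degree of the lowest form -/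
theorem lines_natDegree (c : ℂ) (hc : c ≠ 0) (s : Finset ι) (u : ι → Fin 3 → ℂ)
    (hu : ∀ i ∈ s, u i 0 ≠ 0 ∨ u i 1 ≠ 0) :
    (C c * ∏ i ∈ s, (C (u i 0) * X + C (u i 1)) : Polynomial ℂ) ≠ 0 ∧
    (C c * ∏ i ∈ s, (C (u i 0) * X + C (u i 1)) : Polynomial ℂ).natDegree =
      (s.filter (fun i => u i 0 ≠ 0)).card := by
  refine ⟨mul_ne_zero (C_ne_zero.2 hc) (linesProd_prod_ne s u hu), ?_⟩
  rw [natDegree_C_mul hc, natDegree_prod _ _ fun i hi => linesProd_factor_ne (hu i hi),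
    Finset.card_filter]
  refine Finset.sum_congr rfl fun i hi => ?_
  split_ifs with h
  · exact natDegree_linear h
  · push Not at h
    rw [h]
    simp

/-- root multiplicities of the lowest form -/
theorem lines_rootMultiplicity (c : ℂ) (hc : c ≠ 0) (s : Finset ι) (u : ι → Fin 3 → ℂ)
    (hu : ∀ i ∈ s, u i 0 ≠ 0 ∨ u i 1 ≠ 0) (r : ℂ) :
    (C c * ∏ i ∈ s, (C (u i 0) * X + C (u i 1)) : Polynomial ℂ).rootMultiplicity r =
      (s.filter (fun i => u i 0 ≠ 0 ∧ u i 0 * r + u i 1 = 0)).card := by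
  classical
  have hfac : ∀ i ∈ s, (C (u i 0) * X + C (u i 1) : Polynomial ℂ).rootMultiplicity r =
      if u i 0 ≠ 0 ∧ u i 0 * r + u i 1 = 0 then 1 else 0 := by
    intro i hi
    split_ifs with h
    · obtain ⟨h0, h1⟩ := h
      have e : (C (u i 0) * X + C (u i 1) : Polynomial ℂ) = C (u i 0) * (X - C r) := by
        have : u i 1 = -(u i 0 * r) := by linear_combination h1
        rw [this, C_neg, C_mul]
        ring
      rw [e, rootMultiplicity_mul (mul_ne_zero (C_ne_zero.2 h0) (X_sub_C_ne_zero r)),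
        rootMultiplicity_C, rootMultiplicity_X_sub_C_self]
    · apply rootMultiplicity_eq_zero
      intro hr
      rw [IsRoot.def, eval_add, eval_mul, eval_C, eval_X, eval_C] at hr
      apply h
      refine ⟨fun h0 => ?_, hr⟩
      rw [h0, zero_mul, zero_add] at hr
      rcases hu i hi with h' | h'
      · exact h' h0
      · exact h' hr
  rw [rootMultiplicity_mul (mul_ne_zero (C_ne_zero.2 hc) (linesProd_prod_ne s u hu)),
    rootMultiplicity_C, zero_add, Finset.card_filter]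
  clear hc
  induction s using Finset.induction_on with
  | empty =>
    rw [Finset.prod_empty, Finset.sum_empty, ← C_1, rootMultiplicity_C]
  | insert a s ha ih =>
    have hu' : ∀ i ∈ s, u i 0 ≠ 0 ∨ u i 1 ≠ 0 := fun i hi => hu i (Finset.mem_insert_of_mem hi)
    rw [Finset.prod_insert ha, Finset.sum_insert ha,
      rootMultiplicity_mul (mul_ne_zero (linesProd_factor_ne (hu a (Finset.mem_insert_self a s)))
        (linesProd_prod_ne s u hu')),
      hfac a (Finset.mem_insert_self a s),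
      ih hu' fun i hi => hfac i (Finset.mem_insert_of_mem hi)]

/-- lowest form of a product of lines, weights `N > D` -/
theorem lines_wt (c : ℂ) (hc : c ≠ 0) (u : ι → Fin 3 → ℂ) (hu : ∀ i, u i ≠ 0)
    (E e N D : ℕ) (hE : E = (Finset.univ.filter (fun i => u i 2 = 0)).card)
    (he : e = (Finset.univ.filter (fun i => u i 2 = 0 ∧ u i 1 = 0)).card)
    (hD : 0 < D) (hND : D < N) :
    Ord N D (N * e + D * (E - e)) (C (C c) * ∏ i, Lin (u i)) ∧
      ∃ c' : ℂ, c' ≠ 0 ∧
        wc N D (N * e + D * (E - e)) (C (C c) * ∏ i, Lin (u i)) = C c' * X ^ e := by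
  classical
  set k : ι → ℕ := fun i => if u i 2 = 0 then (if u i 1 = 0 then N else D) else 0 with hkdef
  have hk : N * e + D * (E - e) = 0 + ∑ i : ι, k i := by
    have h1 : E - e = (Finset.univ.filter (fun i => u i 2 = 0 ∧ ¬ u i 1 = 0)).card := by
      have : E = e + (Finset.univ.filter (fun i => u i 2 = 0 ∧ ¬ u i 1 = 0)).card := by
        rw [hE, he, ← Finset.filter_filter, ← Finset.filter_filter,
          Finset.card_filter_add_card_filter_not]
      omega
    rw [zero_add, h1, he, Finset.card_filter, Finset.card_filter, Finset.mul_sum, Finset.mul_sum,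
      ← Finset.sum_add_distrib]
    refine Finset.sum_congr rfl fun i _ => ?_
    simp only [hkdef]
    by_cases h2 : u i 2 = 0 <;> by_cases h1 : u i 1 = 0 <;> simp [h1, h2]
  have hO : ∀ i ∈ (Finset.univ : Finset ι), Ord N D (k i) (Lin (u i)) := by
    intro i _
    apply linesProd_Ord_Lin
    · intro _; simp only [hkdef]; split_ifs <;> omega
    · intro h; simp only [hkdef]; rw [if_neg h]; split_ifs <;> omega
    · intro h; simp only [hkdef]; rw [if_neg h]
  constructor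
  · rw [hk]
    exact (linesProd_CC N D c).mul (linesProd_Ord _ _ _ hO)
  · refine ⟨c * ∏ i : ι, (if u i 2 = 0 then (if u i 1 = 0 then u i 0 else u i 1) else u i 2),
      ?_, ?_⟩
    · refine mul_ne_zero hc (Finset.prod_ne_zero_iff.2 ?_)
      intro i _
      split_ifs with h2 h1
      · exact linesProd_ne (hu i) h2 h1
      · exact h1
      · exact h2
    · rw [hk, wc_mul hD (linesProd_CC N D c) (linesProd_Ord _ _ _ hO), linesProd_wc_CC,
        linesProd_wc hD _ _ _ hO]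
      have e1 : ∀ i : ι, wc N D (k i) (Lin (u i)) =
          C (if u i 2 = 0 then (if u i 1 = 0 then u i 0 else u i 1) else u i 2) *
            (if u i 2 = 0 ∧ u i 1 = 0 then X else 1) := by
        intro i
        rw [linesProd_wc_Lin]
        simp only [hkdef]
        by_cases h2 : u i 2 = 0 <;> by_cases h1 : u i 1 = 0
        · simp [h1, h2]
        · have : ¬ D = N := by omega
          simp [h1, h2, this]
        · have h3 : ¬ 0 = N := by omega
          have h4 : ¬ 0 = D := by omega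
          simp [h1, h2, h3]
        · have h3 : ¬ 0 = N := by omega
          have h4 : ¬ 0 = D := by omega
          simp [h2, h3, h4]
      have e2 : ∏ i : ι, (if u i 2 = 0 ∧ u i 1 = 0 then (X : Polynomial ℂ) else 1) = X ^ e := by
        rw [Finset.prod_ite, Finset.prod_const, Finset.prod_const_one, mul_one, ← he]
      rw [Finset.prod_congr rfl fun i _ => e1 i, Finset.prod_mul_distrib, ← map_prod, e2, C_mul]
      ring

/-- restriction of a product of lines to `y = 0`, after dividing by `y^e` -/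
theorem lines_coeff (c : ℂ) (hc : c ≠ 0) (u : ι → Fin 3 → ℂ) (hu : ∀ i, u i ≠ 0) (e : ℕ)
    (he : e = (Finset.univ.filter (fun i => u i 0 = 0 ∧ u i 2 = 0)).card) :
    ∃ (J : R2) (c' : ℂ), c' ≠ 0 ∧ C (C c) * ∏ i, Lin (u i) = X ^ e * J ∧
      J.coeff 0 = C c' * ∏ i ∈ Finset.univ.filter (fun i => ¬ (u i 0 = 0 ∧ u i 2 = 0)),
        (C (u i 0) * X + C (u i 2)) := by
  classical
  set c' : ℂ := c * ∏ i ∈ Finset.univ.filter (fun i => u i 0 = 0 ∧ u i 2 = 0), u i 1 with hc'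
  have hc'0 : c' ≠ 0 := by
    refine mul_ne_zero hc (Finset.prod_ne_zero_iff.2 ?_)
    intro i hi
    exact linesProd_ne' (hu i) (Finset.mem_filter.1 hi).2.2 (Finset.mem_filter.1 hi).2.1
  refine ⟨C (C c') * ∏ i ∈ Finset.univ.filter (fun i => ¬ (u i 0 = 0 ∧ u i 2 = 0)), Lin (u i),
    c', hc'0, ?_, ?_⟩
  · rw [← Finset.prod_filter_mul_prod_filter_not Finset.univ (fun i => u i 0 = 0 ∧ u i 2 = 0)
      (fun i => Lin (u i))]
    have e1 : ∏ i ∈ Finset.univ.filter (fun i => u i 0 = 0 ∧ u i 2 = 0), Lin (u i) =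
        C (C (∏ i ∈ Finset.univ.filter (fun i => u i 0 = 0 ∧ u i 2 = 0), u i 1)) * X ^ e := by
      rw [map_prod, map_prod, he, ← Finset.prod_const, ← Finset.prod_mul_distrib]
      refine Finset.prod_congr rfl fun i hi => ?_
      obtain ⟨h0, h2⟩ := (Finset.mem_filter.1 hi).2
      unfold Lin
      rw [h0, h2]
      simp
    rw [e1, hc', C_mul, C_mul]
    ring
  · rw [mul_coeff_zero, coeff_C_zero]
    congr 1
    rw [← constantCoeff_apply, map_prod]
    refine Finset.prod_congr rfl fun i _ => ?_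
    rw [constantCoeff_apply]
    unfold Lin
    simp

end Pool.Agent.Lib.MP_5bde83_ag
end

section

namespace Pool.Agent.Lib.MP_5bde83_ag

open Polynomial

/-- lowest possible component of the inflection polynomial -/
theorem wc_Infl (ν : ℕ) (hν : 1 ≤ ν) (A B : R2) (hA : Ord 1 1 ν A) (hB : Ord 1 1 ν B) :
    Ord 1 1 (3 * ν - 1) (Infl A B) ∧
    wc 1 1 (3 * ν - 1) (Infl A B) =
      - ((X * wc 1 1 ν A + wc 1 1 ν B) *
        (derivative (wc 1 1 ν A) * wc 1 1 ν B - wc 1 1 ν A * derivative (wc 1 1 ν B))) := by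
  obtain ⟨μ, rfl⟩ : ∃ μ, ν = μ + 1 := ⟨ν - 1, by omega⟩
  have e1 : 3 * (μ + 1) - 1 = (μ + 1) + (μ + (μ + 1)) := by omega
  have e2 : 3 * (μ + 1) - 1 = (μ + 1) + (μ + (μ + 1)) := by omega
  have hAy : Ord 1 1 μ (Dy A) := by simpa using hA.dy
  have hBy : Ord 1 1 μ (Dy B) := by simpa using hB.dy
  have hAx : Ord 1 1 μ (Dx A) := by simpa using hA.dx
  have hBx : Ord 1 1 μ (Dx B) := by simpa using hB.dx
  have o1 : Ord 1 1 (μ + (μ + 1)) (Dy A * B) := hAy.mul hB
  have o2 : Ord 1 1 (μ + (μ + 1)) (A * Dy B) := by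
    have := hA.mul hBy
    rwa [add_comm (μ + 1) μ] at this
  have o3 : Ord 1 1 (μ + (μ + 1)) (Dx A * B) := hAx.mul hB
  have o4 : Ord 1 1 (μ + (μ + 1)) (A * Dx B) := by
    have := hA.mul hBx
    rwa [add_comm (μ + 1) μ] at this
  have w1 : wc 1 1 (μ + (μ + 1)) (Dy A * B) = wc 1 1 μ (Dy A) * wc 1 1 (μ + 1) B :=
    wc_mul one_pos hAy hB
  have w2 : wc 1 1 (μ + (μ + 1)) (A * Dy B) = wc 1 1 (μ + 1) A * wc 1 1 μ (Dy B) := by
    rw [add_comm μ (μ + 1)]
    exact wc_mul one_pos hA hBy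
  have w3 : wc 1 1 (μ + (μ + 1)) (Dx A * B) = wc 1 1 μ (Dx A) * wc 1 1 (μ + 1) B :=
    wc_mul one_pos hAx hB
  have w4 : wc 1 1 (μ + (μ + 1)) (A * Dx B) = wc 1 1 (μ + 1) A * wc 1 1 μ (Dx B) := by
    rw [add_comm μ (μ + 1)]
    exact wc_mul one_pos hA hBx
  have oa := o1.sub o2
  have ob := o3.sub o4
  rw [e1]
  constructor
  · exact (hA.mul oa).sub (hB.mul ob)
  · unfold Infl
    rw [wc_sub, wc_mul one_pos hA oa, wc_mul one_pos hB ob, wc_sub, wc_sub, w1, w2, w3, w4,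
      wc_Dy_one, wc_Dy_one, wc_Dx, wc_Dx]
    ring

/-- the Euler operator on the lowest component -/
theorem wc_euler (k : ℕ) (f : R2) (hf : Ord 1 1 (k + 1) f) :
    Ord 1 1 (k + 1) (C X * Dx f + X * Dy f) ∧
    wc 1 1 (k + 1) (C X * Dx f + X * Dy f) = C ((k + 1 : ℕ) : ℂ) * wc 1 1 (k + 1) f := by
  have hy : Ord 1 1 k (Dy f) := by simpa using hf.dy
  have hx : Ord 1 1 k (Dx f) := by simpa using hf.dx
  have e : k + 1 = 1 + k := add_comm _ _
  constructor
  · rw [e]
    exact ((Ord_CX 1 1).mul hx).add ((Ord_X 1 1).mul hy)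
  · have w1 : wc 1 1 (k + 1) (C X * Dx f) = X * wc 1 1 k (Dx f) := by
      rw [e, wc_mul one_pos (Ord_CX 1 1) hx, wc_CX]
    have w2 : wc 1 1 (k + 1) (X * Dy f) = wc 1 1 k (Dy f) := by
      rw [e, wc_mul one_pos (Ord_X 1 1) hy, wc_X, one_mul]
    rw [wc_add, w1, w2, wc_Dy_one, wc_Dx]
    ring

/-- uniqueness of the order -/
theorem Ord_unique {N D k l : ℕ} (hD : 0 < D) {f : R2} (h1 : Ord N D k f) (h2 : wc N D k f ≠ 0)
    (h3 : Ord N D l f) (h4 : wc N D l f ≠ 0) : k = l := by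
  rcases Nat.lt_trichotomy k l with h | h | h
  · exact absurd (wc_eq_zero_of_Ord hD h3 h) h2
  · exact h
  · exact absurd (wc_eq_zero_of_Ord hD h1 h) h4

/-- the radial case -/
theorem typeD (ν : ℕ) (hν : 1 ≤ ν) (A B : R2) (hA : Ord 1 1 ν A) (hB : Ord 1 1 ν B)
    (hab : X * wc 1 1 ν A + wc 1 1 ν B = 0) (ha : wc 1 1 ν A ≠ 0) (hI : Infl A B ≠ 0) :
    ∃ N, ν < N ∧ Ord 1 1 (N + 1) (C X * A + X * B) ∧ wc 1 1 (N + 1) (C X * A + X * B) ≠ 0 ∧
      Ord 1 1 (N + 2 * ν - 1) (Infl A B) ∧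
      wc 1 1 (N + 2 * ν - 1) (Infl A B) =
        - (C ((N - ν + 1 : ℕ) : ℂ) * (wc 1 1 ν A) ^ 2 * wc 1 1 (N + 1) (C X * A + X * B)) := by
  have hCX : (C X : R2) ≠ 0 := by simp
  have hrad := Infl_radial A B
  have hC0 : (C X * A + X * B : R2) ≠ 0 := by
    intro h
    rw [h] at hrad
    rw [Dx_zero, Dy_zero] at hrad
    apply hI
    have h0 : (C X : R2) ^ 2 * Infl A B = 0 := by rw [hrad]; ring
    rcases mul_eq_zero.mp h0 with h1 | h1
    · exact absurd h1 (pow_ne_zero 2 hCX)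
    · exact h1
  obtain ⟨k, hk, hk0⟩ := exists_Ord (N := 1) (D := 1) one_pos hC0
  have hC1 : Ord 1 1 (ν + 1) (C X * A + X * B : R2) := by
    rw [add_comm ν 1]
    exact ((Ord_CX 1 1).mul hA).add ((Ord_X 1 1).mul hB)
  have hC2 : wc 1 1 (ν + 1) (C X * A + X * B : R2) = 0 := by
    rw [add_comm ν 1, wc_add, wc_mul one_pos (Ord_CX 1 1) hA, wc_mul one_pos (Ord_X 1 1) hB,
      wc_CX, wc_X, one_mul]
    exact hab
  have hC3 : Ord 1 1 (ν + 1 + 1) (C X * A + X * B : R2) := Ord_succ one_pos hC1 hC2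
  have hkν : ν + 2 ≤ k := by
    by_contra hlt
    exact hk0 (wc_eq_zero_of_Ord one_pos hC3 (by omega))
  obtain ⟨N, rfl⟩ : ∃ N, k = N + 1 := ⟨k - 1, by omega⟩
  obtain ⟨μ, rfl⟩ : ∃ μ, ν = μ + 1 := ⟨ν - 1, by omega⟩
  have hN : μ + 1 < N := by omega
  refine ⟨N, hN, hk, hk0, ?_⟩
  set Cc : R2 := C X * A + X * B with hCc
  have hBy : Ord 1 1 μ (Dy B) := by simpa using hB.dy
  have hCy : Ord 1 1 N (Dy Cc) := by simpa using hk.dy
  obtain ⟨eC1, eC2⟩ := wc_euler N Cc hk
  obtain ⟨eB1, eB2⟩ := wc_euler μ B hB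
  -- first term
  have t1 : Ord 1 1 (N + 2 * (μ + 1) + 1 + 1) (Cc * (Dy Cc * B - Cc * Dy B)) := by
    have h1 : Ord 1 1 (N + (μ + 1)) (Dy Cc * B) := hCy.mul hB
    have h2 : Ord 1 1 (N + (μ + 1)) (Cc * Dy B) := (hk.mul hBy).mono (by omega)
    exact (hk.mul (h1.sub h2)).mono (by omega)
  -- second term
  have o1 : Ord 1 1 (N + 1 + (μ + 1)) ((C X * Dx Cc + X * Dy Cc) * B) := eC1.mul hB
  have o2 : Ord 1 1 (N + 1 + (μ + 1)) (Cc * (C X * Dx B + X * Dy B)) := hk.mul eB1
  have o3 := hB.mul (o1.sub o2)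
  have w3 : wc 1 1 (μ + 1 + (N + 1 + (μ + 1)))
      (B * ((C X * Dx Cc + X * Dy Cc) * B - Cc * (C X * Dx B + X * Dy B))) =
      wc 1 1 (μ + 1) B * (C ((N + 1 : ℕ) : ℂ) * wc 1 1 (N + 1) Cc * wc 1 1 (μ + 1) B -
        wc 1 1 (N + 1) Cc * (C ((μ + 1 : ℕ) : ℂ) * wc 1 1 (μ + 1) B)) := by
    rw [wc_mul one_pos hB (o1.sub o2), wc_sub, wc_mul one_pos eC1 hB, wc_mul one_pos hk eB1,
      eC2, eB2]
  have hlhs : Ord 1 1 (N + 2 * (μ + 1) + 1) ((C X : R2) ^ 2 * Infl A B) := by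
    rw [hrad]
    exact (t1.mono (by omega)).sub (o3.mono (by omega))
  have hI1 : Ord 1 1 (N + 2 * (μ + 1) - 1) (Infl A B) := by
    intro i j hij
    have h1 : (((C X : R2) ^ 2 * Infl A B).coeff j).coeff (i + 2) ≠ 0 := by
      rw [← C_pow, coeff_C_mul, coeff_X_pow_mul]
      exact hij
    have h2 := hlhs _ _ h1
    omega
  refine ⟨hI1, ?_⟩
  have hw : wc 1 1 (N + 2 * (μ + 1) + 1) ((C X : R2) ^ 2 * Infl A B) =
      X ^ 2 * wc 1 1 (N + 2 * (μ + 1) - 1) (Infl A B) := by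
    have h1 : Ord 1 1 (1 * 2) ((C X : R2) ^ 2) := Ord_CX_pow 1 1 2
    have h2 : wc 1 1 (1 * 2) ((C X : R2) ^ 2) = X ^ 2 := by
      have h3 := wc_mul (N := 1) (D := 1) one_pos (Ord_CX 1 1) (Ord_CX 1 1)
      rw [wc_CX] at h3
      rw [pow_two, pow_two]
      exact h3
    have h4 := wc_mul (N := 1) (D := 1) one_pos h1 hI1
    have h5 : 1 * 2 + (N + 2 * (μ + 1) - 1) = N + 2 * (μ + 1) + 1 := by omega
    rw [h5, h2] at h4
    exact h4
  have hw2 : wc 1 1 (N + 2 * (μ + 1) + 1) ((C X : R2) ^ 2 * Infl A B) =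
      - (wc 1 1 (μ + 1) B * (C ((N + 1 : ℕ) : ℂ) * wc 1 1 (N + 1) Cc * wc 1 1 (μ + 1) B -
        wc 1 1 (N + 1) Cc * (C ((μ + 1 : ℕ) : ℂ) * wc 1 1 (μ + 1) B))) := by
    rw [hrad, wc_sub, wc_eq_zero_of_Ord one_pos t1 (by omega), zero_sub, ← w3]
    congr 2
    omega
  have hb : wc 1 1 (μ + 1) B = - (X * wc 1 1 (μ + 1) A) := by
    linear_combination hab
  rw [hw] at hw2
  have hX2 : (X : Polynomial ℂ) ^ 2 ≠ 0 := pow_ne_zero 2 X_ne_zero
  apply mul_left_cancel₀ hX2
  rw [hw2, hb]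
  have hcast : (C ((N - (μ + 1) + 1 : ℕ) : ℂ) : Polynomial ℂ) =
      C ((N + 1 : ℕ) : ℂ) - C ((μ + 1 : ℕ) : ℂ) := by
    rw [← C_sub]
    congr 1
    have : ((N - (μ + 1) + 1 : ℕ) : ℂ) + ((μ + 1 : ℕ) : ℂ) = ((N + 1 : ℕ) : ℂ) := by
      rw [← Nat.cast_add]
      congr 1
      omega
    linear_combination this
  rw [hcast]
  ring

/-- degree in `x` of components -/
theorem wc_natDegree_le (k : ℕ) (f : R2) : (wc 1 1 k f).natDegree ≤ k := by
  rw [Polynomial.natDegree_le_iff_coeff_eq_zero]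
  intro i hi
  by_contra h
  obtain ⟨j, hj, -⟩ := wc_coeff_ne k i f h
  omega

/-- degree in `x` of components, if `y^e` divides -/
theorem wc_natDegree_of_dvd (k e : ℕ) (f : R2) (h : X ^ e ∣ f) :
    wc 1 1 k f = 0 ∨ (wc 1 1 k f).natDegree + e ≤ k := by
  by_cases h0 : wc 1 1 k f = 0
  · exact Or.inl h0
  · right
    have h1 : (wc 1 1 k f).coeff (wc 1 1 k f).natDegree ≠ 0 := by
      rw [coeff_natDegree]
      exact leadingCoeff_ne_zero.mpr h0
    obtain ⟨j, hj, hj2⟩ := wc_coeff_ne k _ f h1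
    rw [wc_coeff_eq one_pos] at hj2
    have h2 : (f.coeff j).coeff (wc 1 1 k f).natDegree ≠ 0 := by
      rw [← hj2]; exact h1
    have h3 : e ≤ j := by
      by_contra hlt
      apply h2
      obtain ⟨g, rfl⟩ := h
      rw [coeff_X_pow_mul', if_neg (by omega)]
      simp
    omega

end Pool.Agent.Lib.MP_5bde83_ag
end

section

namespace Pool.Agent.Lib.MP_5bde83_ag

open Polynomial

open scoped Classical in
/-- number of lines through `s` -/
noncomputable def Ec {ι : Type} [Fintype ι] (ℓ : ι → Fin 3 → ℂ) (s : Fin 3 → ℂ) : ℕ :=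
  (Finset.univ.filter (fun i => dot (ℓ i) s = 0)).card

open scoped Classical in
/-- number of lines through `a` and `b` -/
noncomputable def ec {ι : Type} [Fintype ι] (ℓ : ι → Fin 3 → ℂ) (a b : Fin 3 → ℂ) : ℕ :=
  (Finset.univ.filter (fun i => dot (ℓ i) b = 0 ∧ dot (ℓ i) a = 0)).card

open scoped Classical in
/-- number of lines through `s` and `b`, not through `a` -/
noncomputable def fc {ι : Type} [Fintype ι] (ℓ : ι → Fin 3 → ℂ) (s a b : Fin 3 → ℂ) : ℕ :=
  (Finset.univ.filter (fun i => dot (ℓ i) s = 0 ∧ dot (ℓ i) a ≠ 0 ∧ dot (ℓ i) b = 0)).card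

theorem dot_add (l u v : Fin 3 → ℂ) : dot l (u + v) = dot l u + dot l v := by
  simp [dot, Fin.sum_univ_three]; ring

theorem dot_sub (l u v : Fin 3 → ℂ) : dot l (u - v) = dot l u - dot l v := by
  simp [dot, Fin.sum_univ_three]; ring

theorem dot_smul (l u : Fin 3 → ℂ) (c : ℂ) : dot l (c • u) = c * dot l u := by
  simp [dot, Fin.sum_univ_three]; ring

theorem smul_dot (l u : Fin 3 → ℂ) (c : ℂ) : dot (c • l) u = c * dot l u := by
  simp [dot, Fin.sum_univ_three]; ring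

theorem eq_zero_of_dots {l e1 e2 s : Fin 3 → ℂ} (ht : tri e1 e2 s ≠ 0) (h1 : dot l e1 = 0)
    (h2 : dot l e2 = 0) (h3 : dot l s = 0) : l = 0 := by
  simp only [dot, Fin.sum_univ_three] at h1 h2 h3
  have h0 : l 0 * tri e1 e2 s = 0 := by
    unfold tri
    linear_combination (e2 1 * s 2 - e2 2 * s 1) * h1 + (s 1 * e1 2 - s 2 * e1 1) * h2
        + (e1 1 * e2 2 - e1 2 * e2 1) * h3
  have h1' : l 1 * tri e1 e2 s = 0 := by
    unfold tri
    linear_combination (e2 2 * s 0 - e2 0 * s 2) * h1 + (s 2 * e1 0 - s 0 * e1 2) * h2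
        + (e1 2 * e2 0 - e1 0 * e2 2) * h3
  have h2' : l 2 * tri e1 e2 s = 0 := by
    unfold tri
    linear_combination (e2 0 * s 1 - e2 1 * s 0) * h1 + (s 0 * e1 1 - s 1 * e1 0) * h2
        + (e1 0 * e2 1 - e1 1 * e2 0) * h3
  funext j
  fin_cases j
  · exact (mul_eq_zero.mp h0).resolve_right ht
  · exact (mul_eq_zero.mp h1').resolve_right ht
  · exact (mul_eq_zero.mp h2').resolve_right ht

theorem lc_ne {l e1 e2 s : Fin 3 → ℂ} (ht : tri e1 e2 s ≠ 0) (hl : l ≠ 0) : lc l e1 e2 s ≠ 0 := by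
  intro h
  apply hl
  apply eq_zero_of_dots ht
  · have := congrFun h 0; simpa [lc] using this
  · have := congrFun h 1; simpa [lc] using this
  · have := congrFun h 2; simpa [lc] using this

variable {n : ℕ} {ω : Fin 3 → MvPolynomial (Fin 3) ℂ} {ℓ : Fin (3 * n) → Fin 3 → ℂ}

theorem GData.infl_frame (G : GData n ω ℓ) (e1 e2 s : Fin 3 → ℂ) (ht : tri e1 e2 s ≠ 0) :
    ∃ c : ℂ, c ≠ 0 ∧ Infl (ev ω e1 e2 s e1) (ev ω e1 e2 s e2) =
      C (C c) * ∏ i, Lin (lc (ℓ i) e1 e2 s) := by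
  obtain ⟨c, hc, h⟩ := G.infl
  exact ⟨c * tri e1 e2 s ^ 2, mul_ne_zero hc (pow_ne_zero 2 ht), h e1 e2 s⟩

theorem GData.chart_main (G : GData n ω ℓ) (e1 e2 s : Fin 3 → ℂ) (ht : tri e1 e2 s ≠ 0) :
    Ord 1 1 (Ec ℓ s) (Infl (ev ω e1 e2 s e1) (ev ω e1 e2 s e2)) ∧
    wc 1 1 (Ec ℓ s) (Infl (ev ω e1 e2 s e1) (ev ω e1 e2 s e2)) ≠ 0 ∧
    (wc 1 1 (Ec ℓ s) (Infl (ev ω e1 e2 s e1) (ev ω e1 e2 s e2))).natDegree + ec ℓ e1 s
      = Ec ℓ s ∧
    ∀ r, (wc 1 1 (Ec ℓ s) (Infl (ev ω e1 e2 s e1) (ev ω e1 e2 s e2))).rootMultiplicity r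
      = fc ℓ s e1 (e2 + r • e1) := by
  classical
  obtain ⟨c, hc, hI⟩ := G.infl_frame e1 e2 s ht
  set u : Fin (3 * n) → Fin 3 → ℂ := fun i => lc (ℓ i) e1 e2 s with hu
  have hu0 : ∀ i, u i ≠ 0 := fun i => lc_ne ht (G.inv i).1
  obtain ⟨h1, c', hc', h2⟩ := lines_one c hc u hu0
  have hu2 : ∀ i, u i 2 = dot (ℓ i) s := fun i => by simp [hu, lc]
  have hu1 : ∀ i, u i 1 = dot (ℓ i) e2 := fun i => by simp [hu, lc]
  have hu00 : ∀ i, u i 0 = dot (ℓ i) e1 := fun i => by simp [hu, lc]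
  have hE : (Finset.univ.filter (fun i => u i 2 = 0)).card = Ec ℓ s := by
    unfold Ec
    simp only [hu2]
  rw [hE] at h1 h2
  rw [hI]
  have hs : ∀ i ∈ Finset.univ.filter (fun i => u i 2 = 0), u i 0 ≠ 0 ∨ u i 1 ≠ 0 := by
    intro i hi
    rw [Finset.mem_filter] at hi
    by_contra hcon
    push Not at hcon
    apply hu0 i
    funext j
    fin_cases j
    · exact hcon.1
    · exact hcon.2
    · exact hi.2
  obtain ⟨h3, h4⟩ := lines_natDegree c' hc' _ u hs
  refine ⟨h1, ?_, ?_, ?_⟩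
  · rw [h2]; exact h3
  · rw [h2, h4, Finset.filter_filter]
    have e1' : (Finset.univ.filter (fun i => u i 2 = 0 ∧ u i 0 ≠ 0)).card +
        (Finset.univ.filter (fun i => u i 2 = 0 ∧ u i 0 = 0)).card =
        (Finset.univ.filter (fun i => u i 2 = 0)).card := by
      rw [← Finset.card_filter_add_card_filter_not (s := Finset.univ.filter (fun i => u i 2 = 0))
        (fun i => u i 0 ≠ 0), Finset.filter_filter, Finset.filter_filter]
      simp only [not_not]
    rw [hE] at e1'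
    rw [← e1']
    unfold ec
    simp only [hu2, hu00]
  · intro r
    rw [h2, lines_rootMultiplicity c' hc' _ u hs, Finset.filter_filter]
    unfold fc
    congr 1
    ext i
    simp only [Finset.mem_filter, Finset.mem_univ, true_and, hu2, hu00, hu1, dot_add, dot_smul]
    constructor
    · rintro ⟨h5, h6, h7⟩
      exact ⟨h5, h6, by linear_combination h7⟩
    · rintro ⟨h5, h6, h7⟩
      exact ⟨h5, h6, by linear_combination h7⟩

theorem GData.chart_root (G : GData n ω ℓ) (e1 e2 s : Fin 3 → ℂ) (ht : tri e1 e2 s ≠ 0) (ν : ℕ)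
    (hA : Ord 1 1 ν (ev ω e1 e2 s e1)) (hB : Ord 1 1 ν (ev ω e1 e2 s e2)) (r : ℂ)
    (hr : (wc 1 1 (Ec ℓ s) (Infl (ev ω e1 e2 s e1) (ev ω e1 e2 s e2))).IsRoot r) :
    (X * wc 1 1 ν (ev ω e1 e2 s e1) + wc 1 1 ν (ev ω e1 e2 s e2)).IsRoot r := by
  classical
  obtain ⟨-, h2, -, h4⟩ := G.chart_main e1 e2 s ht
  have h5 : 0 < fc ℓ s e1 (e2 + r • e1) := by
    rw [← h4 r]
    exact (rootMultiplicity_pos h2).mpr hr
  unfold fc at h5
  rw [Finset.card_pos] at h5
  obtain ⟨i, hi⟩ := h5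
  simp only [Finset.mem_filter, Finset.mem_univ, true_and, dot_add, dot_smul] at hi
  exact ev_inv_root G.fol.euler (ℓ i) e1 e2 s ν hA hB (G.inv i) hi.1 r hi.2.1
    (by linear_combination hi.2.2)

theorem GData.chart_wt (G : GData n ω ℓ) (e1 e2 s : Fin 3 → ℂ) (ht : tri e1 e2 s ≠ 0) :
    ∀ N D, 0 < D → D < N →
      Ord N D (N * (wc 1 1 (Ec ℓ s) (Infl (ev ω e1 e2 s e1)
          (ev ω e1 e2 s e2))).rootMultiplicity 0 +
        D * (Ec ℓ s - (wc 1 1 (Ec ℓ s) (Infl (ev ω e1 e2 s e1)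
          (ev ω e1 e2 s e2))).rootMultiplicity 0)) (Infl (ev ω e1 e2 s e1) (ev ω e1 e2 s e2)) ∧
      ∃ c : ℂ, c ≠ 0 ∧ wc N D (N * (wc 1 1 (Ec ℓ s) (Infl (ev ω e1 e2 s e1)
          (ev ω e1 e2 s e2))).rootMultiplicity 0 +
        D * (Ec ℓ s - (wc 1 1 (Ec ℓ s) (Infl (ev ω e1 e2 s e1)
          (ev ω e1 e2 s e2))).rootMultiplicity 0)) (Infl (ev ω e1 e2 s e1) (ev ω e1 e2 s e2)) =
          C c * X ^ (wc 1 1 (Ec ℓ s) (Infl (ev ω e1 e2 s e1)
          (ev ω e1 e2 s e2))).rootMultiplicity 0 := by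
  classical
  intro N D hD hND
  obtain ⟨-, -, -, h4⟩ := G.chart_main e1 e2 s ht
  obtain ⟨c, hc, hI⟩ := G.infl_frame e1 e2 s ht
  have hu0 : ∀ i, lc (ℓ i) e1 e2 s ≠ 0 := fun i => lc_ne ht (G.inv i).1
  have key := lines_wt c hc (fun i => lc (ℓ i) e1 e2 s) hu0 (Ec ℓ s) (fc ℓ s e1 (e2 + (0:ℂ) • e1))
    N D ?_ ?_ hD hND
  · rw [← h4 0] at key
    rw [← hI] at key
    exact key
  · unfold Ec
    congr 1
  · unfold fc
    refine congrArg Finset.card (Finset.filter_congr ?_)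
    intro i _
    simp only [lc, zero_smul, add_zero]
    constructor
    · rintro ⟨h5, h6, h7⟩
      exact ⟨by simpa using h5, by simpa using h7⟩
    · rintro ⟨h5, h7⟩
      have h5' : dot (ℓ i) s = 0 := by simpa using h5
      have h7' : dot (ℓ i) e2 = 0 := by simpa using h7
      refine ⟨h5', ?_, h7'⟩
      intro h6
      exact (G.inv i).1 (eq_zero_of_dots ht h6 h7' h5')

end Pool.Agent.Lib.MP_5bde83_ag
end
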