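import Mathlib
import Pool.Agent.Lib.MP_5bde83_ag.Biv

section

namespace Pool.Agent.Lib.MP_5bde83_ag

open Polynomial

/-- antiderivative -/
theorem LemP_exists_prim (p : Polynomial ℂ) : ∃ ρ : Polynomial ℂ, derivative ρ = p := by
  induction p using Polynomial.induction_on' with
  | add p q hp hq =>
    obtain ⟨a, rfl⟩ := hp
    obtain ⟨b, rfl⟩ := hq
    exact ⟨a + b, by simp⟩
  | monomial n a =>
    refine ⟨monomial (n + 1) (a / (n + 1 : ℂ)), ?_⟩
    rw [derivative_monomial]
    have h : ((n : ℂ) + 1) ≠ 0 := by exact_mod_cast Nat.succ_ne_zero n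
    simp only [Nat.add_sub_cancel]
    congr 1
    push_cast
    field_simp

theorem LemP_coeff_mul_deriv {f g : Polynomial ℂ} {m n : ℕ} (hf : f.natDegree ≤ m)
    (hg : g.natDegree ≤ n + 1) :
    (f * derivative g).coeff (m + n) = f.coeff m * (g.coeff (n + 1) * ((n : ℂ) + 1)) := by
  have h1 : (derivative g).natDegree ≤ n := by
    have := natDegree_derivative_le g
    omega
  rw [coeff_mul_add_eq_of_natDegree_le hf h1, coeff_derivative]

/-- vanishing of the Wronskian -/
theorem LemP_wronskian {a g : Polynomial ℂ} (ha : a ≠ 0)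
    (h : a * derivative g - derivative a * g = 0) : ∃ c : ℂ, g = C c * a := by
  -- reduce to the case of different degrees
  have key : ∀ g : Polynomial ℂ, a * derivative g - derivative a * g = 0 →
      (g = 0 ∨ g.natDegree = a.natDegree) := by
    intro g h
    by_contra hcon
    push Not at hcon
    obtain ⟨hg, hne⟩ := hcon
    have hla : a.coeff a.natDegree ≠ 0 := by
      rw [coeff_natDegree]; exact leadingCoeff_ne_zero.2 ha
    have hlg : g.coeff g.natDegree ≠ 0 := by
      rw [coeff_natDegree]; exact leadingCoeff_ne_zero.2 hg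
    rcases Nat.eq_zero_or_pos a.natDegree with hm | hm
    · obtain ⟨n, hn⟩ : ∃ n, g.natDegree = n + 1 := ⟨g.natDegree - 1, by omega⟩
      have h1 : derivative a = 0 := by
        rw [eq_C_of_natDegree_eq_zero hm, derivative_C]
      rw [h1, zero_mul, sub_zero] at h
      have h2 := LemP_coeff_mul_deriv (f := a) (g := g) (m := a.natDegree) (n := n) le_rfl hn.le
      rw [h, coeff_zero, ← hn] at h2
      have h3 : ((n : ℂ) + 1) ≠ 0 := by exact_mod_cast Nat.succ_ne_zero n
      exact mul_ne_zero hla (mul_ne_zero hlg h3) h2.symm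
    · obtain ⟨m, hm'⟩ : ∃ m, a.natDegree = m + 1 := ⟨a.natDegree - 1, by omega⟩
      rcases Nat.eq_zero_or_pos g.natDegree with hn | hn
      · have h1 : derivative g = 0 := by
          rw [eq_C_of_natDegree_eq_zero hn, derivative_C]
        rw [h1, mul_zero, zero_sub, neg_eq_zero, mul_comm] at h
        have h2 := LemP_coeff_mul_deriv (f := g) (g := a) (m := g.natDegree) (n := m) le_rfl hm'.le
        rw [h, coeff_zero, ← hm'] at h2
        have h3 : ((m : ℂ) + 1) ≠ 0 := by exact_mod_cast Nat.succ_ne_zero m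
        exact mul_ne_zero hlg (mul_ne_zero hla h3) h2.symm
      · obtain ⟨n, hn'⟩ : ∃ n, g.natDegree = n + 1 := ⟨g.natDegree - 1, by omega⟩
        have h2 := LemP_coeff_mul_deriv (f := a) (g := g) (m := a.natDegree) (n := n) le_rfl hn'.le
        have h3 := LemP_coeff_mul_deriv (f := g) (g := a) (m := g.natDegree) (n := m) le_rfl hm'.le
        have e1 : g.natDegree + m = a.natDegree + n := by omega
        rw [e1] at h3
        have h4 := congrArg (fun p => Polynomial.coeff p (a.natDegree + n)) h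
        simp only [coeff_sub, coeff_zero] at h4
        rw [mul_comm (derivative a) g, h2, h3, ← hn', ← hm'] at h4
        have h5 : a.coeff a.natDegree * g.coeff g.natDegree * ((n : ℂ) - m) = 0 := by
          linear_combination h4
        rcases mul_eq_zero.1 h5 with h6 | h6
        · exact mul_ne_zero hla hlg h6
        · have h7 : (n : ℂ) = m := sub_eq_zero.1 h6
          have h8 : n = m := by exact_mod_cast h7
          omega
  set c : ℂ := g.coeff a.natDegree / a.coeff a.natDegree with hc
  refine ⟨c, ?_⟩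
  have hla : a.coeff a.natDegree ≠ 0 := by
    rw [coeff_natDegree]; exact leadingCoeff_ne_zero.2 ha
  have h1 : a * derivative (g - C c * a) - derivative a * (g - C c * a) = 0 := by
    rw [derivative_sub, derivative_mul, derivative_C]
    linear_combination h
  rcases key _ h1 with h2 | h2
  · exact sub_eq_zero.1 h2
  · have h3 : (g - C c * a).coeff a.natDegree = 0 := by
      rw [coeff_sub, coeff_C_mul, hc]
      field_simp
      ring
    rw [← h2, coeff_natDegree, leadingCoeff_eq_zero] at h3
    exact sub_eq_zero.1 h3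

/-- the key expansion -/
theorem LemP_key (t : ℕ) (A' B n r : R2) (hk : kap (X ^ 2 * n) = X ^ (t + 2) * r) :
    ∃ W : R2, Infl (X ^ (t + 2) * A' - X ^ 2 * n * B) B =
      X ^ (t + 2) * (B ^ 3 * r - B * (Dx A' * B - A' * Dx B) + X * W) := by
  have hx : Dx (X ^ (t + 2) * A') = X ^ (t + 2) * Dx A' := by
    rw [Dx_mul, Dx_pow, Dx_X]; ring
  have hy : Dy (X ^ (t + 2) * A') = (((t + 1 : ℕ) : R2) + 1) * X ^ (t + 1) * A' +
      X ^ (t + 2) * Dy A' := by
    rw [Dy_mul, Dy_pow, Dy_X]; ring
  have hm : Dy (X ^ 2 * n) = X * (2 * n + X * Dy n) := by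
    rw [Dy_mul]
    have : Dy (X ^ 2 : R2) = 2 * X := by
      have := Dy_pow X 1
      rw [Dy_X] at this
      simp only [Nat.cast_one, pow_one, mul_one] at this
      rw [show (1 + 1 : ℕ) = 2 from rfl] at this
      rw [this]; ring
    rw [this]; ring
  rw [Infl_shift, hk, hx, hy, hm]
  refine ⟨- (n * B * ((((t + 1 : ℕ) : R2) + 1) * A' * B + X * (Dy A' * B - A' * Dy B)))
      - A' * (2 * n + X * Dy n) * B ^ 2
      + X ^ t * A' * ((((t + 1 : ℕ) : R2) + 1) * A' * B + X * (Dy A' * B - A' * Dy B)), ?_⟩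
  ring

/-- Lemma P -/
theorem lemP (e : ℕ) (he : 2 ≤ e) (A B J : R2) (hA0 : A.coeff 0 = 0) (hA1 : A.coeff 1 = 0)
    (hB : B.coeff 0 ≠ 0) (hI : Infl A B = X ^ e * J) :
    (∃ m A' : R2, X ^ 2 ∣ m ∧ X ^ e ∣ kap m ∧ A = X ^ e * A' - m * B) ∧
    ∃ P : Polynomial ℂ, J.coeff 0 =
      B.coeff 0 * (derivative P * B.coeff 0 - P * derivative (B.coeff 0)) := by
  have hind : ∀ t : ℕ, t + 2 ≤ e → ∃ n r A' : R2, kap (X ^ 2 * n) = X ^ (t + 2) * r ∧
      A = X ^ (t + 2) * A' - X ^ 2 * n * B := by
    intro t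
    induction t with
    | zero =>
      intro _
      have h1 : (X : R2) ^ 2 ∣ A := by
        rw [X_pow_dvd_iff]
        intro d hd
        rcases Nat.lt_or_ge d 1 with h | h
        · have : d = 0 := by omega
          rw [this, hA0]
        · have : d = 1 := by omega
          rw [this, hA1]
      obtain ⟨A', hA'⟩ := h1
      refine ⟨0, 0, A', ?_, ?_⟩
      · simp [kap, Dx_zero, Dy_zero]
      · rw [hA']; ring
    | succ t ih =>
      intro ht
      obtain ⟨n, r, A', hk, hA⟩ := ih (by omega)
      obtain ⟨W, hW⟩ := LemP_key t A' B n r hk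
      rw [← hA, hI] at hW
      obtain ⟨f, hf⟩ : ∃ f, e = (t + 2) + (f + 1) := ⟨e - (t + 3), by omega⟩
      have hX : (X : R2) ^ (t + 2) ≠ 0 := pow_ne_zero _ X_ne_zero
      have h1 : X ^ (f + 1) * J = B ^ 3 * r - B * (Dx A' * B - A' * Dx B) + X * W := by
        apply mul_left_cancel₀ hX
        rw [← hW, hf]; ring
      have h2 := congrArg (fun p : R2 => p.coeff 0) h1
      simp only [coeff_add, coeff_sub, mul_coeff_zero, pow_succ, coeff_X_zero, mul_zero, zero_mul,
        add_zero, Dx_coeff] at h2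
      set B0 := B.coeff 0 with hB0
      set E0 := A'.coeff 0 with hE0
      set r0 := r.coeff 0 with hr0
      have h3 : B0 ^ 2 * r0 - (derivative E0 * B0 - E0 * derivative B0) = 0 := by
        apply mul_left_cancel₀ hB
        rw [mul_zero]
        have : (B ^ 0).coeff 0 = (1 : Polynomial ℂ) := by simp
        rw [this] at h2
        linear_combination -h2
      obtain ⟨ρ, hρ⟩ := LemP_exists_prim r0
      obtain ⟨c, hc⟩ := LemP_wronskian (a := B0) (g := E0 - ρ * B0) hB (by
        rw [derivative_sub, derivative_mul, hρ]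
        linear_combination -h3)
      set rt : Polynomial ℂ := ρ + C c with hrt
      have hE : E0 = rt * B0 := by
        rw [hrt]
        linear_combination hc
      have hrt' : derivative rt = r0 := by
        rw [hrt, derivative_add, derivative_C, hρ, add_zero]
      obtain ⟨A'', hA''⟩ : (X : R2) ∣ A' - C rt * B := by
        rw [X_dvd_iff, coeff_sub, coeff_C_mul, ← hE0, ← hB0, hE, sub_self]
      obtain ⟨r', hr'⟩ : (X : R2) ∣ r - C r0 := by
        rw [X_dvd_iff, coeff_sub, coeff_C_zero, ← hr0, sub_self]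
      have hyk : Dy (X ^ (t + 2) : R2) = (((t + 1 : ℕ) : R2) + 1) * X ^ (t + 1) := by
        rw [Dy_pow, Dy_X]; ring
      have hyt : Dy (X ^ t * C rt : R2) = Dy (X ^ t) * C rt := by
        rw [Dy_mul, Dy_C]; ring
      have hy2 : Dy (X ^ 2 * n) = X * (2 * n + X * Dy n) := by
        rw [Dy_mul]
        have : Dy (X ^ 2 : R2) = 2 * X := by
          have := Dy_pow X 1
          rw [Dy_X] at this
          simp only [Nat.cast_one, pow_one, mul_one] at this
          rw [show (1 + 1 : ℕ) = 2 from rfl] at this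
          rw [this]; ring
        rw [this]; ring
      refine ⟨n - X ^ t * C rt, r' - (n * ((((t + 1 : ℕ) : R2) + 1) * C rt)
        + C rt * (2 * n + X * Dy n)) + X ^ t * (((t + 1 : ℕ) : R2) + 1) * C rt ^ 2, A'', ?_, ?_⟩
      · have e1 : (X : R2) ^ 2 * (n - X ^ t * C rt) = X ^ 2 * n - X ^ (t + 2) * C rt := by ring
        rw [e1]
        have hk' := hk
        unfold kap at hk' ⊢
        rw [Dx_sub, Dy_sub, Dx_mul _ (C rt), Dx_C, Dx_pow, Dx_X, Dy_mul _ (C rt), Dy_C, hyk,
          hrt', hy2]
        rw [hy2] at hk'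
        linear_combination hk' + X ^ (t + 2) * hr'
      · rw [hA]
        linear_combination X ^ (t + 2) * hA''
  obtain ⟨n, r, A', hk, hA⟩ := hind (e - 2) (by omega)
  obtain ⟨W, hW⟩ := LemP_key (e - 2) A' B n r hk
  have he2 : e - 2 + 2 = e := by omega
  rw [← hA, hI] at hW
  rw [he2] at hk hA hW
  refine ⟨⟨X ^ 2 * n, A', ⟨n, rfl⟩, ⟨r, hk⟩, hA⟩, ?_⟩
  have hX : (X : R2) ^ e ≠ 0 := pow_ne_zero _ X_ne_zero
  have h1 := mul_left_cancel₀ hX hW
  have h2 := congrArg (fun p : R2 => p.coeff 0) h1
  simp only [coeff_add, coeff_sub, mul_coeff_zero, pow_succ, coeff_X_zero, zero_mul,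
    add_zero, Dx_coeff] at h2
  obtain ⟨ρ, hρ⟩ := LemP_exists_prim (r.coeff 0)
  refine ⟨ρ * B.coeff 0 - A'.coeff 0, ?_⟩
  rw [h2, derivative_sub, derivative_mul, hρ]
  have : (B ^ 0).coeff 0 = (1 : Polynomial ℂ) := by simp
  rw [this]
  ring

/-- first order behaviour along the line `y = 0` -/
theorem Infl_coeff (A B : R2) (hA0 : A.coeff 0 = 0) :
    (Infl A B).coeff 0 = 0 ∧
    (Infl A B).coeff 1 = B.coeff 0 * ((A.coeff 1) ^ 2 + A.coeff 1 * derivative (B.coeff 0)
      - derivative (A.coeff 1) * B.coeff 0) := by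
  unfold Infl
  constructor
  · simp only [coeff_sub, mul_coeff_zero, Dx_coeff, Dy_coeff, hA0, derivative_zero]
    ring
  · simp only [coeff_sub, mul_coeff_one, mul_coeff_zero, Dx_coeff, Dy_coeff, hA0, derivative_zero]
    simp only [Nat.cast_zero, zero_add]
    ring

/-- the Wronskian lemma giving the center of a line -/
theorem center_uni (α β : Polynomial ℂ) (hα : α ≠ 0)
    (h : α ^ 2 + α * derivative β - derivative α * β = 0) :
    ∃ x0 : ℂ, β = - ((X - C x0) * α) := by
  obtain ⟨c, hc⟩ := LemP_wronskian (a := α) (g := β + X * α) hα (by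
    rw [derivative_add, derivative_mul, derivative_X]
    linear_combination h)
  refine ⟨c, ?_⟩
  linear_combination hc

theorem LemP_Ord_max {N D k l : ℕ} {f : R2} (hk : Ord N D k f) (hl : Ord N D l f) :
    Ord N D (max k l) f := by
  rcases le_total k l with h | h
  · rw [max_eq_right h]; exact hl
  · rw [max_eq_left h]; exact hk

/-- order estimate at a noncentral singular point -/
theorem NC_order (ν e : ℕ) (hν : 1 ≤ ν) (he : 2 ≤ e) (A B m A' : R2) (hA : Ord 1 1 ν A)
    (hB : Ord 1 1 ν B) (hm : X ^ 2 ∣ m) (hk : X ^ e ∣ kap m) (h : A = X ^ e * A' - m * B) :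
    Ord 1 1 (2 * ν + e - 1) (Infl A B) := by
  have hmO : Ord 1 1 2 m := by
    have := Ord_of_X_pow_dvd (N := 1) (D := 1) hm
    simpa using this
  have hkO : Ord 1 1 e (kap m) := by
    have := Ord_of_X_pow_dvd (N := 1) (D := 1) hk
    simpa using this
  set F : R2 := X ^ e * A' with hF
  have hF1 : Ord 1 1 e F := by
    have := Ord_of_X_pow_dvd (N := 1) (D := 1) (f := F) (k := e) ⟨A', rfl⟩
    simpa using this
  have hF2 : Ord 1 1 ν F := by
    have e1 : F = A + m * B := by rw [h]; ring
    rw [e1]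
    exact hA.add (Ord.mul_left m hB)
  set M := max e ν with hM
  have hFM : Ord 1 1 M F := LemP_Ord_max hF1 hF2
  have hMe : e ≤ M := le_max_left _ _
  have hMν : ν ≤ M := le_max_right _ _
  rw [h, Infl_shift]
  have t1 : Ord 1 1 (M - 1 + ν) (Dx F * B) := hFM.dx.mul hB
  have t2 : Ord 1 1 (M + (ν - 1)) (F * Dx B) := hFM.mul hB.dx
  have t3 : Ord 1 1 (M - 1 + ν) (Dy F * B) := hFM.dy.mul hB
  have t4 : Ord 1 1 (M + (ν - 1)) (F * Dy B) := hFM.mul hB.dy
  have u1 : Ord 1 1 (M + ν - 1) (Dx F * B - F * Dx B) :=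
    (t1.mono (by omega)).sub (t2.mono (by omega))
  have u2 : Ord 1 1 (M + ν - 1) (Dy F * B - F * Dy B) :=
    (t3.mono (by omega)).sub (t4.mono (by omega))
  refine Ord.add (Ord.sub (Ord.sub (Ord.sub ?_ ?_) ?_) ?_) ?_
  · exact ((hB.pow 3).mul hkO).mono (by omega)
  · exact (hB.mul u1).mono (by omega)
  · exact ((hmO.mul hB).mul u2).mono (by omega)
  · exact ((hFM.mul hmO.dy).mul (hB.pow 2)).mono (by omega)
  · exact (hFM.mul u2).mono (by omega)

/-- the lowest form of `A` is divisible by `y^e` -/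
theorem NC_a (ν e : ℕ) (A B m A' : R2) (hA : Ord 1 1 ν A)
    (hB : Ord 1 1 ν B) (hm : X ^ 2 ∣ m) (h : A = X ^ e * A' - m * B) :
    wc 1 1 ν A = 0 ∨ (wc 1 1 ν A).natDegree + e ≤ ν := by
  have hmO : Ord 1 1 2 m := by
    have := Ord_of_X_pow_dvd (N := 1) (D := 1) hm
    simpa using this
  have h1 : wc 1 1 ν (m * B) = 0 :=
    wc_eq_zero_of_Ord one_pos (hmO.mul hB) (by omega)
  have h2 : wc 1 1 ν A = wc 1 1 ν (X ^ e * A') := by
    rw [h, wc_sub, h1, sub_zero]
  by_cases h0 : wc 1 1 ν A = 0
  · exact Or.inl h0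
  · right
    have h3 : (wc 1 1 ν A).coeff (wc 1 1 ν A).natDegree ≠ 0 := by
      rw [coeff_natDegree]; exact leadingCoeff_ne_zero.2 h0
    set i := (wc 1 1 ν A).natDegree with hi
    rw [h2] at h3
    obtain ⟨j, hj, hj2⟩ := wc_coeff_ne ν i _ h3
    rw [wc_coeff_eq one_pos] at hj2
    rw [hj2] at h3
    have hje : e ≤ j := by
      by_contra hlt
      push Not at hlt
      have h4 : (X ^ e * A' : R2).coeff j = 0 := by
        rw [coeff_X_pow_mul']
        rw [if_neg (by omega)]
      rw [h4] at h3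
      exact h3 (by simp)
    omega

end Pool.Agent.Lib.MP_5bde83_ag
end

section

namespace Pool.Agent.Lib.MP_5bde83_ag

open Polynomial

/-! ### columns: the coefficient of `x^i` as a polynomial in `y` -/

/-- the coefficient of `x^i`, as a polynomial in `y` -/
noncomputable def kcol (i : ℕ) (f : R2) : Polynomial ℂ := (Bivariate.swap f).coeff i

theorem kcol_add (i : ℕ) (f g : R2) : kcol i (f + g) = kcol i f + kcol i g := by
  simp [kcol]

theorem kcol_coeff (i j : ℕ) (f : R2) : (kcol i f).coeff j = (f.coeff j).coeff i := by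
  induction f using R2_ind with
  | hadd f g hf hg => simp [kcol_add, hf, hg]
  | hmon j' i' c =>
    rw [kcol, Bivariate.swap_monomial_monomial, coeff_monomial, coeff_monomial]
    by_cases h1 : i' = i
    · by_cases h2 : j' = j
      · rw [if_pos h1, if_pos h2, coeff_monomial, coeff_monomial, if_pos h1, if_pos h2]
      · rw [if_pos h1, if_neg h2, coeff_monomial, if_neg h2, coeff_zero]
    · by_cases h2 : j' = j
      · rw [if_neg h1, if_pos h2, coeff_monomial, if_neg h1, coeff_zero]
      · rw [if_neg h1, if_neg h2, coeff_zero, coeff_zero]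

theorem kcol_mul (i : ℕ) (f g : R2) :
    kcol i (f * g) = ∑ p ∈ Finset.HasAntidiagonal.antidiagonal i, kcol p.1 f * kcol p.2 g := by
  simp only [kcol, map_mul, Polynomial.coeff_mul]

theorem kcol_Dx (i : ℕ) (f : R2) : kcol i (Dx f) = C ((i : ℂ) + 1) * kcol (i + 1) f := by
  ext j
  rw [kcol_coeff, Dx_coeff, coeff_derivative, coeff_C_mul, kcol_coeff]
  ring

theorem kcol_Dy (i : ℕ) (f : R2) : kcol i (Dy f) = derivative (kcol i f) := by
  ext j
  rw [kcol_coeff, Dy_coeff, coeff_derivative, kcol_coeff]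
  have : ((j : Polynomial ℂ) + 1) = C ((j : ℂ) + 1) := by simp
  rw [this, coeff_mul_C]

theorem CX_pow_dvd_of_kcol (K : ℕ) (f : R2) (h : ∀ i < K, kcol i f = 0) : (C X : R2) ^ K ∣ f := by
  rw [← C_pow, C_dvd_iff_dvd_coeff]
  intro j
  rw [X_pow_dvd_iff]
  intro i hi
  rw [← kcol_coeff, h i hi, coeff_zero]

/-! ### the formal solution of `m_x + m m_y = 0`, `m(0,y) = f(y)` -/

/-- coefficients of the formal solution -/
noncomputable def mseq (f : Polynomial ℂ) : ℕ → Polynomial ℂ
  | 0 => f
  | (n + 1) => - (C (((n : ℂ) + 1)⁻¹) *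
      ∑ p : Fin (n + 1), mseq f p.1 * derivative (mseq f (n - p.1)))
  termination_by n => n
  decreasing_by
    · exact p.2
    · omega

theorem mseq_zero (f : Polynomial ℂ) : mseq f 0 = f := by rw [mseq]

theorem mseq_succ (f : Polynomial ℂ) (n : ℕ) :
    mseq f (n + 1) = - (C (((n : ℂ) + 1)⁻¹) *
      ∑ p ∈ Finset.HasAntidiagonal.antidiagonal n, mseq f p.1 * derivative (mseq f p.2)) := by
  rw [mseq, Finset.Nat.sum_antidiagonal_eq_sum_range_succ_mk,
    ← Fin.sum_univ_eq_sum_range (fun k => mseq f k * derivative (mseq f (n - k))) (n + 1)]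

theorem mseq_rec (f : Polynomial ℂ) (n : ℕ) :
    C ((n : ℂ) + 1) * mseq f (n + 1) +
      ∑ p ∈ Finset.HasAntidiagonal.antidiagonal n, mseq f p.1 * derivative (mseq f p.2) = 0 := by
  rw [mseq_succ]
  have h : (C ((n : ℂ) + 1) : Polynomial ℂ) * C (((n : ℂ) + 1)⁻¹) = 1 := by
    rw [← C_mul, mul_inv_cancel₀ (Nat.cast_add_one_ne_zero n), C_1]
  rw [mul_neg, ← mul_assoc, h, one_mul, neg_add_cancel]

theorem X_dvd_mseq {f : Polynomial ℂ} (hf : X ∣ f) (n : ℕ) : X ∣ mseq f n := by
  induction n using Nat.strong_induction_on with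
  | _ n ih =>
    rcases n with _ | n
    · rwa [mseq_zero]
    · rw [mseq_succ, dvd_neg]
      apply Dvd.dvd.mul_left
      apply Finset.dvd_sum
      rintro ⟨a, b⟩ hab
      rw [Finset.HasAntidiagonal.mem_antidiagonal] at hab
      exact (ih a (by simp only at hab; omega)).mul_right _

theorem X_pow_dvd_mseq_sub {f : Polynomial ℂ} (hf : X ∣ f) {k : ℕ} (hk : 1 ≤ k) (c : ℂ) (n : ℕ) :
    X ^ k ∣ mseq (f + C c * X ^ k) n - mseq f n := by
  have hg : X ∣ f + C c * X ^ k :=
    dvd_add hf (Dvd.dvd.mul_left (dvd_pow_self X (by omega)) _)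
  induction n using Nat.strong_induction_on with
  | _ n ih =>
    rcases n with _ | n
    · rw [mseq_zero, mseq_zero, add_sub_cancel_left]
      exact Dvd.intro_left _ rfl
    · rw [mseq_succ, mseq_succ]
      have e : ∀ u v w : Polynomial ℂ, -(u * v) - -(u * w) = - (u * (v - w)) := by
        intro u v w; ring
      rw [e, dvd_neg, ← Finset.sum_sub_distrib]
      apply Dvd.dvd.mul_left
      apply Finset.dvd_sum
      rintro ⟨a, b⟩ hab
      rw [Finset.HasAntidiagonal.mem_antidiagonal] at hab
      simp only at hab ⊢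
      have ha := ih a (by omega)
      have hb := ih b (by omega)
      have e2 : mseq (f + C c * X ^ k) a * derivative (mseq (f + C c * X ^ k) b) -
          mseq f a * derivative (mseq f b) =
          (mseq (f + C c * X ^ k) a - mseq f a) * derivative (mseq f b) +
          mseq (f + C c * X ^ k) a *
            derivative (mseq (f + C c * X ^ k) b - mseq f b) := by
        rw [derivative_sub]; ring
      rw [e2]
      apply dvd_add
      · exact ha.mul_right _
      · have h1 := X_dvd_mseq hg a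
        have h2 := pow_sub_one_dvd_derivative_of_pow_dvd hb
        have h3 := mul_dvd_mul h1 h2
        rwa [← pow_succ', Nat.sub_add_cancel hk] at h3

/-- the approximate solution as an element of `R2` -/
noncomputable def mpol (K : ℕ) (f : Polynomial ℂ) : R2 :=
  Bivariate.swap (∑ i ∈ Finset.range (K + 1), monomial i (mseq f i))

theorem kcol_mpol (K : ℕ) (f : Polynomial ℂ) (i : ℕ) :
    kcol i (mpol K f) = if i ≤ K then mseq f i else 0 := by
  rw [kcol, mpol, Bivariate.swap_swap_apply, finsetSum_coeff]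
  simp only [coeff_monomial]
  rw [Finset.sum_ite_eq']
  simp only [Finset.mem_range]
  split_ifs with h1 h2 h2
  · rfl
  · omega
  · omega
  · rfl

theorem kcol_kap_mpol (K : ℕ) (f : Polynomial ℂ) (i : ℕ) (hi : i < K) :
    kcol i (kap (mpol K f)) = 0 := by
  rw [kap, kcol_add, kcol_mul, kcol_Dx, kcol_mpol, if_pos (by omega)]
  rw [← mseq_rec f i]
  congr 1
  apply Finset.sum_congr rfl
  rintro ⟨a, b⟩ hab
  rw [Finset.HasAntidiagonal.mem_antidiagonal] at hab
  simp only at hab ⊢
  rw [kcol_Dy, kcol_mpol, kcol_mpol, if_pos (by omega), if_pos (by omega)]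

theorem X_dvd_mpol (K : ℕ) {f : Polynomial ℂ} (hf : X ∣ f) : (X : R2) ∣ mpol K f := by
  rw [X_dvd_iff]
  ext i
  rw [← kcol_coeff, kcol_mpol, coeff_zero]
  split_ifs
  · exact X_dvd_iff.mp (X_dvd_mseq hf i)
  · rw [coeff_zero]

/-- the change of column `γ` of `A + m B` when the initial value is changed by `c y^k` -/
theorem kcol_change (ν γ K k : ℕ) (B : R2) (hB : Ord 1 1 ν B) (hγν : γ ≤ ν)
    (f : Polynomial ℂ) (hf : X ∣ f) (hk : 1 ≤ k) (c : ℂ) (j : ℕ) (hj : j ≤ k + (ν - γ)) :
    (kcol γ (mpol K (f + C c * X ^ k) * B)).coeff j - (kcol γ (mpol K f * B)).coeff j =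
      if j = k + (ν - γ) then c * (B.coeff (ν - γ)).coeff γ else 0 := by
  have hδ : ∀ i, X ^ k ∣ kcol i (mpol K (f + C c * X ^ k)) - kcol i (mpol K f) := by
    intro i
    rw [kcol_mpol, kcol_mpol]
    split_ifs
    · exact X_pow_dvd_mseq_sub hf hk c i
    · simp
  have hδ0 : kcol 0 (mpol K (f + C c * X ^ k)) - kcol 0 (mpol K f) = C c * X ^ k := by
    rw [kcol_mpol, kcol_mpol, if_pos (Nat.zero_le _), if_pos (Nat.zero_le _), mseq_zero, mseq_zero]
    ring
  have hcolB : ∀ l ≤ γ, X ^ (ν - l) ∣ kcol l B := by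
    intro l hl
    rw [X_pow_dvd_iff]
    intro d hd
    rw [kcol_coeff]
    by_contra hne
    have := hB l d hne
    omega
  rw [kcol_mul, kcol_mul, ← coeff_sub, ← Finset.sum_sub_distrib]
  have e : ∀ p ∈ Finset.HasAntidiagonal.antidiagonal γ,
      kcol p.1 (mpol K (f + C c * X ^ k)) * kcol p.2 B - kcol p.1 (mpol K f) * kcol p.2 B =
      (kcol p.1 (mpol K (f + C c * X ^ k)) - kcol p.1 (mpol K f)) * kcol p.2 B := by
    intro p _; ring
  rw [Finset.sum_congr rfl e, finsetSum_coeff]
  rw [Finset.sum_eq_single_of_mem (0, γ) (by simp)]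
  · simp only
    rw [hδ0]
    rw [show (C c * X ^ k * kcol γ B : Polynomial ℂ) = C c * (kcol γ B * X ^ k) by ring,
      coeff_C_mul, coeff_mul_X_pow']
    split_ifs with h1 h2 h2
    · rw [kcol_coeff]
      congr 3
      omega
    · rw [kcol_coeff]
      by_cases h3 : (B.coeff (j - k)).coeff γ = 0
      · rw [h3, mul_zero]
      · exfalso
        have := hB γ (j - k) h3
        omega
    · omega
    · rw [mul_zero]
  · rintro ⟨a, b⟩ hab hne
    rw [Finset.HasAntidiagonal.mem_antidiagonal] at hab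
    simp only at hab ⊢
    have ha : 1 ≤ a := by
      rcases Nat.eq_zero_or_pos a with h | h
      · exfalso; apply hne; subst h; rw [Prod.mk.injEq]; exact ⟨rfl, by omega⟩
      · exact h
    have h1 := mul_dvd_mul (hδ a) (hcolB b (by omega))
    rw [← pow_add] at h1
    exact X_pow_dvd_iff.mp h1 j (by omega)

/-- existence of an approximate solution `m` of `m_x + m m_y = 0` such that
`A + m B` has no monomials `x^γ y^j`, `j ≤ K` -/
theorem kill (ν γ K : ℕ) (A B : R2) (hA : Ord 1 1 (ν + 1) A) (hB : Ord 1 1 ν B)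
    (hγ : (wc 1 1 ν B).coeff γ ≠ 0) (hγ' : ∀ i < γ, (wc 1 1 ν B).coeff i = 0) :
    ∃ m : R2, X ∣ m ∧ (C X) ^ K ∣ kap m ∧ ∀ j ≤ K, ((A + m * B).coeff j).coeff γ = 0 := by
  obtain ⟨j0, hj0, hb⟩ := wc_coeff_ne ν γ B hγ
  have hγν : γ ≤ ν := by omega
  have hj0' : j0 = ν - γ := by omega
  rw [wc_coeff_eq one_pos, hj0'] at hb
  rw [hb] at hγ
  clear hb
  have key : ∀ J : ℕ, ∃ f : Polynomial ℂ, X ∣ f ∧
      ∀ j < J, (kcol γ (A + mpol K f * B)).coeff j = 0 := by
    intro J
    induction J with
    | zero => exact ⟨0, dvd_zero _, fun j hj => absurd hj (Nat.not_lt_zero j)⟩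
    | succ J ih =>
      obtain ⟨f, hf, hJ⟩ := ih
      by_cases hle : J ≤ ν - γ
      · refine ⟨f, hf, fun j hj => ?_⟩
        by_contra hne
        rw [kcol_coeff] at hne
        have hord : Ord 1 1 (ν + 1) (A + mpol K f * B) := by
          apply hA.add
          have h1 : Ord 1 1 (1 * 1) (mpol K f) :=
            Ord_of_X_pow_dvd (by simpa using X_dvd_mpol K hf)
          have := h1.mul hB
          exact this.mono (by omega)
        have := hord γ j hne
        omega
      · push Not at hle
        set k := J - (ν - γ) with hk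
        have hk1 : 1 ≤ k := by omega
        have hkJ : k + (ν - γ) = J := by omega
        set c : ℂ := - (kcol γ (A + mpol K f * B)).coeff J / (B.coeff (ν - γ)).coeff γ with hc
        refine ⟨f + C c * X ^ k,
          dvd_add hf (Dvd.dvd.mul_left (dvd_pow_self X (by omega)) _), fun j hj => ?_⟩
        have hch := kcol_change ν γ K k B hB hγν f hf hk1 c j (by omega)
        rw [hkJ] at hch
        have hexp : (kcol γ (A + mpol K (f + C c * X ^ k) * B)).coeff j =
            (kcol γ (A + mpol K f * B)).coeff j +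
            (if j = J then c * (B.coeff (ν - γ)).coeff γ else 0) := by
          rw [kcol_add, kcol_add, coeff_add, coeff_add, ← hch]; ring
        rw [hexp]
        by_cases hjJ : j = J
        · rw [if_pos hjJ, hjJ, hc]
          field_simp
          ring
        · rw [if_neg hjJ, add_zero]
          exact hJ j (by omega)
  obtain ⟨f, hf, hJ⟩ := key (K + 1)
  refine ⟨mpol K f, X_dvd_mpol K hf, CX_pow_dvd_of_kcol K _ (fun i hi => kcol_kap_mpol K f i hi),
    fun j hj => ?_⟩
  rw [← kcol_coeff]
  exact hJ j (by omega)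

end Pool.Agent.Lib.MP_5bde83_ag
end

section

namespace Pool.Agent.Lib.MP_5bde83_ag

open Polynomial

lemma lemR_natDegree_eq_sum (J : Polynomial ℂ) (hJ : J ≠ 0) (S : Finset ℂ)
    (hS : ∀ r, J.IsRoot r → r ∈ S) : J.natDegree = ∑ r ∈ S, J.rootMultiplicity r := by
  classical
  have h1 : J.roots.card = J.natDegree := IsAlgClosed.card_roots_eq_natDegree
  rw [← h1, ← Multiset.toFinset_sum_count_eq]
  simp only [count_roots]
  refine Finset.sum_subset ?_ ?_
  · intro r hr
    rw [Multiset.mem_toFinset, mem_roots hJ] at hr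
    exact hS r hr
  · intro r _ hr
    rw [Multiset.mem_toFinset, mem_roots hJ] at hr
    exact rootMultiplicity_eq_zero hr

lemma lemR_sum_le_natDegree (P : Polynomial ℂ) (hP : P ≠ 0) (S : Finset ℂ) :
    ∑ r ∈ S, P.rootMultiplicity r ≤ P.natDegree := by
  classical
  rw [lemR_natDegree_eq_sum P hP (S ∪ P.roots.toFinset) (fun r hr => by
    rw [Finset.mem_union, Multiset.mem_toFinset, mem_roots hP]
    exact Or.inr hr)]
  exact Finset.sum_le_sum_of_subset Finset.subset_union_left

lemma lemR_sub_mul_deriv_pow (r : ℂ) (p : ℕ) : (X - C r) * derivative ((X - C r) ^ p) =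
    C (p : ℂ) * (X - C r) ^ p := by
  cases p with
  | zero => simp
  | succ p =>
    rw [derivative_pow]
    simp only [Nat.cast_add, Nat.cast_one, map_add, map_natCast, map_one, derivative_sub,
      derivative_X, derivative_C, sub_zero, mul_one, Nat.add_sub_cancel]
    ring

lemma lemR_coeff_X_deriv (P : Polynomial ℂ) (n : ℕ) :
    (X * derivative P).coeff n = n * P.coeff n := by
  cases n with
  | zero => simp
  | succ n =>
    rw [coeff_X_mul, coeff_derivative]
    push_cast
    ring

lemma lemR_natDegree_X_deriv (P : Polynomial ℂ) : (X * derivative P).natDegree ≤ P.natDegree := by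
  rw [natDegree_le_iff_coeff_eq_zero]
  intro n hn
  rw [lemR_coeff_X_deriv, coeff_eq_zero_of_natDegree_lt hn, mul_zero]

/-- the degree of a Wronskian -/
lemma lemR_le_natDegree (P B : Polynomial ℂ) (hP : P ≠ 0) (hB : B ≠ 0)
    (hd : P.natDegree ≠ B.natDegree) :
    P.natDegree + B.natDegree ≤ (derivative P * B - P * derivative B).natDegree + 1 := by
  have h1 : (X * (derivative P * B - P * derivative B)).coeff (P.natDegree + B.natDegree) =
      ((P.natDegree : ℂ) - B.natDegree) * (P.leadingCoeff * B.leadingCoeff) := by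
    have h2 : X * (derivative P * B - P * derivative B) =
        (X * derivative P) * B - P * (X * derivative B) := by ring
    rw [h2, coeff_sub, coeff_mul_add_eq_of_natDegree_le (lemR_natDegree_X_deriv P) le_rfl,
      coeff_mul_add_eq_of_natDegree_le le_rfl (lemR_natDegree_X_deriv B), lemR_coeff_X_deriv,
      lemR_coeff_X_deriv, coeff_natDegree, coeff_natDegree]
    ring
  have h3 : (X * (derivative P * B - P * derivative B)).coeff (P.natDegree + B.natDegree) ≠ 0 := by
    rw [h1]
    refine mul_ne_zero ?_ (mul_ne_zero (leadingCoeff_ne_zero.2 hP) (leadingCoeff_ne_zero.2 hB))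
    rw [sub_ne_zero]
    exact_mod_cast hd
  have h4 := le_natDegree_of_ne_zero h3
  refine h4.trans ?_
  refine natDegree_mul_le.trans ?_
  rw [natDegree_X]
  omega

/-- the multiplicity of a Wronskian -/
lemma lemR_mult (P B : Polynomial ℂ) (r : ℂ) (hP : P ≠ 0) (hB : B ≠ 0)
    (hW : derivative P * B - P * derivative B ≠ 0) :
    (P.rootMultiplicity r ≠ B.rootMultiplicity r →
      (derivative P * B - P * derivative B).rootMultiplicity r + 1 =
        P.rootMultiplicity r + B.rootMultiplicity r) ∧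
    (B.rootMultiplicity r ≤ P.rootMultiplicity r →
      2 * B.rootMultiplicity r ≤ (derivative P * B - P * derivative B).rootMultiplicity r) := by
  obtain ⟨P1, hP1, hP1r⟩ := exists_eq_pow_rootMultiplicity_mul_and_not_dvd P hP r
  obtain ⟨B1, hB1, hB1r⟩ := exists_eq_pow_rootMultiplicity_mul_and_not_dvd B hB r
  obtain ⟨p, hp⟩ : ∃ p, p = P.rootMultiplicity r := ⟨_, rfl⟩
  obtain ⟨b, hb⟩ : ∃ b, b = B.rootMultiplicity r := ⟨_, rfl⟩
  rw [← hp] at hP1
  rw [← hb] at hB1
  rw [← hp, ← hb]
  obtain ⟨W, hWd⟩ : ∃ W, W = derivative P * B - P * derivative B := ⟨_, rfl⟩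
  rw [← hWd] at hW ⊢
  have hX : (X - C r : Polynomial ℂ) ≠ 0 := X_sub_C_ne_zero r
  have hXW : (X - C r) * W = (X - C r) ^ (p + b) * (C ((p : ℂ) - b) * (P1 * B1) +
      (X - C r) * (derivative P1 * B1 - P1 * derivative B1)) := by
    have h1 := lemR_sub_mul_deriv_pow r p
    have h2 := lemR_sub_mul_deriv_pow r b
    have h3 : derivative P = derivative ((X - C r) ^ p) * P1 + (X - C r) ^ p * derivative P1 := by
      rw [hP1, derivative_mul]
    have h4 : derivative B = derivative ((X - C r) ^ b) * B1 + (X - C r) ^ b * derivative B1 := by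
      rw [hB1, derivative_mul]
    rw [hWd, h3, h4]
    rw [C_sub, pow_add]
    nth_rw 1 [hB1]
    nth_rw 1 [hP1]
    linear_combination (P1 * B1 * (X - C r) ^ b) * h1 - (P1 * B1 * (X - C r) ^ p) * h2
  have hXW0 : (X - C r) * W ≠ 0 := mul_ne_zero hX hW
  have hmul : ((X - C r) * W).rootMultiplicity r = W.rootMultiplicity r + 1 := by
    rw [rootMultiplicity_mul hXW0, rootMultiplicity_X_sub_C_self, add_comm]
  constructor
  · intro hne
    rw [← hmul, hXW]
    rw [hXW] at hXW0
    rw [rootMultiplicity_mul hXW0, rootMultiplicity_X_sub_C_pow]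
    rw [rootMultiplicity_eq_zero, add_zero]
    intro h
    rw [IsRoot.def, eval_add, eval_mul, eval_mul, eval_mul, eval_C, eval_sub, eval_X, eval_C,
      sub_self, zero_mul, add_zero] at h
    rw [dvd_iff_isRoot, IsRoot.def] at hP1r hB1r
    rw [mul_eq_zero, mul_eq_zero] at h
    rcases h with h | h | h
    · apply hne
      rw [sub_eq_zero] at h
      exact_mod_cast h
    · exact hP1r h
    · exact hB1r h
  · intro hle
    have h5 : 2 * b + 1 ≤ ((X - C r) * W).rootMultiplicity r := by
      rw [le_rootMultiplicity_iff hXW0, hXW]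
      rcases hle.lt_or_eq with hlt | heq
      · refine (pow_dvd_pow _ ?_).trans (dvd_mul_right _ _)
        omega
      · rw [← heq, sub_self, C_0, zero_mul, zero_add, ← mul_assoc, ← pow_succ]
        refine (pow_dvd_pow _ ?_).trans (dvd_mul_right _ _)
        omega
    omega

/-- Lemma R: `J = B (P' B - P B')`, every root of `J` is a root of `B`, and at every root of `B`
the multiplicity in `J` is smaller than three times the multiplicity in `B`.
Then `B` has at most one root. -/
theorem lemR (B J P : Polynomial ℂ) (hB : B ≠ 0) (hJ : J ≠ 0)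
    (h : J = B * (derivative P * B - P * derivative B))
    (hroot : ∀ r, J.IsRoot r → B.IsRoot r)
    (hlt : ∀ r, B.IsRoot r → J.rootMultiplicity r < 3 * B.rootMultiplicity r) :
    ∀ r r', B.IsRoot r → B.IsRoot r' → r = r' := by
  classical
  obtain ⟨W, hWd⟩ : ∃ W, W = derivative P * B - P * derivative B := ⟨_, rfl⟩
  rw [← hWd] at h
  have hW : W ≠ 0 := by
    intro h1
    apply hJ
    rw [h, h1, mul_zero]
  -- adjust the degree of P
  obtain ⟨Q, hQd, hQW⟩ : ∃ Q : Polynomial ℂ, Q.natDegree ≠ B.natDegree ∧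
      W = derivative Q * B - Q * derivative B := by
    by_cases h1 : P.natDegree = B.natDegree
    · obtain ⟨c, hc⟩ : ∃ c : ℂ, c = P.leadingCoeff / B.leadingCoeff := ⟨_, rfl⟩
      have hBl : B.leadingCoeff ≠ 0 := leadingCoeff_ne_zero.2 hB
      have hP : P ≠ 0 := by
        intro h2
        apply hW
        rw [hWd, h2]
        simp
      have hPl : P.leadingCoeff ≠ 0 := leadingCoeff_ne_zero.2 hP
      have hc0 : c ≠ 0 := by
        rw [hc]
        exact div_ne_zero hPl hBl
      have h2 : W = derivative (P - C c * B) * B - (P - C c * B) * derivative B := by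
        rw [hWd, derivative_sub, derivative_C_mul]
        ring
      refine ⟨P - C c * B, ?_, h2⟩
      have h3 : P - C c * B ≠ 0 := by
        intro h4
        apply hW
        rw [h2, h4]
        simp
      have h5 : P.degree = (C c * B).degree := by
        rw [degree_C_mul hc0, degree_eq_natDegree hP, degree_eq_natDegree hB, h1]
      have h6 : P.leadingCoeff = (C c * B).leadingCoeff := by
        rw [leadingCoeff_mul, leadingCoeff_C, hc]
        field_simp
      have h7 := degree_sub_lt_left h5 hP h6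
      have h8 := natDegree_lt_natDegree h3 h7
      omega
    · exact ⟨P, h1, hWd⟩
  have hQ : Q ≠ 0 := by
    intro h2
    apply hW
    rw [hQW, h2]
    simp
  have hdeg : Q.natDegree + B.natDegree ≤ W.natDegree + 1 := by
    rw [hQW]
    exact lemR_le_natDegree Q B hQ hB hQd
  have hJdeg : J.natDegree = B.natDegree + W.natDegree := by
    rw [h, natDegree_mul hB hW]
  have hmult : ∀ r, B.IsRoot r → J.rootMultiplicity r + 1 =
      2 * B.rootMultiplicity r + Q.rootMultiplicity r := by
    intro r hr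
    have h1 : J.rootMultiplicity r = B.rootMultiplicity r + W.rootMultiplicity r := by
      have h2 : B * W ≠ 0 := mul_ne_zero hB hW
      rw [h, rootMultiplicity_mul h2]
    have h3 := hlt r hr
    have h4 := lemR_mult Q B r hQ hB (by rw [← hQW]; exact hW)
    rw [← hQW] at h4
    by_cases h5 : B.rootMultiplicity r ≤ Q.rootMultiplicity r
    · have := h4.2 h5
      omega
    · have := h4.1 (by omega)
      omega
  obtain ⟨S, hS⟩ : ∃ S : Finset ℂ, S = B.roots.toFinset := ⟨_, rfl⟩
  have hSmem : ∀ r, r ∈ S ↔ B.IsRoot r := by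
    intro r
    rw [hS, Multiset.mem_toFinset, mem_roots hB]
  have h1 := lemR_natDegree_eq_sum J hJ S (fun r hr => (hSmem r).2 (hroot r hr))
  have h2 := lemR_natDegree_eq_sum B hB S (fun r hr => (hSmem r).2 hr)
  have h3 := lemR_sum_le_natDegree Q hQ S
  have h4 : ∑ r ∈ S, (J.rootMultiplicity r + 1) =
      ∑ r ∈ S, (2 * B.rootMultiplicity r + Q.rootMultiplicity r) :=
    Finset.sum_congr rfl fun r hr => hmult r ((hSmem r).1 hr)
  rw [Finset.sum_add_distrib, Finset.sum_add_distrib, ← Finset.mul_sum, ← h1, ← h2,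
    Finset.sum_const, smul_eq_mul, mul_one] at h4
  have h5 : S.card ≤ 1 := by omega
  intro r r' hr hr'
  exact Finset.card_le_one.1 h5 r ((hSmem r).2 hr) r' ((hSmem r').2 hr')

/-- degree version -/
theorem lemR_deg (B J : Polynomial ℂ) (hB : B ≠ 0) (hJ : J ≠ 0)
    (hroot : ∀ r, J.IsRoot r → B.IsRoot r)
    (hlt : ∀ r, B.IsRoot r → J.rootMultiplicity r < 3 * B.rootMultiplicity r)
    (hdeg : 3 * B.natDegree ≤ J.natDegree) : B.natDegree = 0 ∧ J.natDegree = 0 := by
  classical
  obtain ⟨S, hS⟩ : ∃ S : Finset ℂ, S = B.roots.toFinset := ⟨_, rfl⟩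
  have hSmem : ∀ r, r ∈ S ↔ B.IsRoot r := by
    intro r
    rw [hS, Multiset.mem_toFinset, mem_roots hB]
  have h1 := lemR_natDegree_eq_sum J hJ S (fun r hr => (hSmem r).2 (hroot r hr))
  have h2 := lemR_natDegree_eq_sum B hB S (fun r hr => (hSmem r).2 hr)
  rcases S.eq_empty_or_nonempty with h3 | h3
  · rw [h3, Finset.sum_empty] at h1 h2
    exact ⟨h2, h1⟩
  · have h4 : ∑ r ∈ S, J.rootMultiplicity r < ∑ r ∈ S, 3 * B.rootMultiplicity r :=
      Finset.sum_lt_sum_of_nonempty h3 fun r hr => hlt r ((hSmem r).1 hr)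
    rw [← Finset.mul_sum, ← h1, ← h2] at h4
    omega

/-- strict inequality version (used at a single point) -/
theorem lemR_sum (B J : Polynomial ℂ) (hB : B ≠ 0) (hJ : J ≠ 0)
    (hroot : ∀ r, J.IsRoot r → B.IsRoot r)
    (hlt : ∀ r, B.IsRoot r → J.rootMultiplicity r < 3 * B.rootMultiplicity r)
    (hJd : J.natDegree ≠ 0) : J.natDegree < 3 * B.natDegree := by
  by_contra h
  rw [not_lt] at h
  exact hJd (lemR_deg B J hB hJ hroot hlt h).2

end Pool.Agent.Lib.MP_5bde83_ag
end

section

namespace Pool.Agent.Lib.MP_5bde83_ag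

open Polynomial

lemma uniN_natDegree_X_mul_wr (a b : Polynomial ℂ) :
    (X * (derivative a * b - a * derivative b)).natDegree ≤ a.natDegree + b.natDegree := by
  have h2 : X * (derivative a * b - a * derivative b) =
      (X * derivative a) * b - a * (X * derivative b) := by ring
  rw [h2]
  refine (natDegree_sub_le _ _).trans (max_le ?_ ?_)
  · refine natDegree_mul_le.trans ?_
    have := lemR_natDegree_X_deriv a
    omega
  · refine natDegree_mul_le.trans ?_
    have := lemR_natDegree_X_deriv b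
    omega

lemma uniN_wr_ne_zero (P B : Polynomial ℂ) (hP : P ≠ 0) (hB : B ≠ 0)
    (hd : P.natDegree ≠ B.natDegree) : derivative P * B - P * derivative B ≠ 0 := by
  have h1 : (X * (derivative P * B - P * derivative B)).coeff (P.natDegree + B.natDegree) =
      ((P.natDegree : ℂ) - B.natDegree) * (P.leadingCoeff * B.leadingCoeff) := by
    have h2 : X * (derivative P * B - P * derivative B) =
        (X * derivative P) * B - P * (X * derivative B) := by ring
    rw [h2, coeff_sub, coeff_mul_add_eq_of_natDegree_le (lemR_natDegree_X_deriv P) le_rfl,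
      coeff_mul_add_eq_of_natDegree_le le_rfl (lemR_natDegree_X_deriv B), lemR_coeff_X_deriv,
      lemR_coeff_X_deriv, coeff_natDegree, coeff_natDegree]
    ring
  intro h0
  rw [h0, mul_zero, coeff_zero] at h1
  have h3 : ((P.natDegree : ℂ) - B.natDegree) * (P.leadingCoeff * B.leadingCoeff) ≠ 0 := by
    refine mul_ne_zero ?_ (mul_ne_zero (leadingCoeff_ne_zero.2 hP) (leadingCoeff_ne_zero.2 hB))
    rw [sub_ne_zero]
    exact_mod_cast hd
  exact h3 h1.symm

/-- type N at a noncentral point: there is a multiple root, and there are two different roots -/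
theorem uniN (ν e : ℕ) (a b G : Polynomial ℂ) (he : 2 ≤ e) (heν : e ≤ ν)
    (ha : a.natDegree + e ≤ ν) (hb : b.natDegree ≤ ν)
    (hG : G = - ((X * a + b) * (derivative a * b - a * derivative b))) (hG0 : G ≠ 0)
    (hdeg : G.natDegree + e + 1 = 3 * ν) (hroot : ∀ r, G.IsRoot r → (X * a + b).IsRoot r) :
    (∃ r, 2 ≤ G.rootMultiplicity r) ∧ ∃ r r', G.IsRoot r ∧ G.IsRoot r' ∧ r ≠ r' := by
  classical
  obtain ⟨H, hH⟩ : ∃ H, H = X * a + b := ⟨_, rfl⟩
  obtain ⟨W, hW⟩ : ∃ W, W = derivative a * b - a * derivative b := ⟨_, rfl⟩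
  have hXW := uniN_natDegree_X_mul_wr a b
  rw [← hH, ← hW] at hG
  rw [← hW] at hXW
  rw [← hH] at hroot
  have hH0 : H ≠ 0 := by
    intro h
    apply hG0
    rw [hG, h]
    simp
  have hW0 : W ≠ 0 := by
    intro h
    apply hG0
    rw [hG, h]
    simp
  have hGdeg : G.natDegree = H.natDegree + W.natDegree := by
    rw [hG, natDegree_neg, natDegree_mul hH0 hW0]
  have hWdeg : W.natDegree + 1 ≤ a.natDegree + b.natDegree := by
    rw [natDegree_X_mul hW0] at hXW
    exact hXW
  have hXa : (X * a).natDegree ≤ a.natDegree + 1 := by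
    refine natDegree_mul_le.trans ?_
    rw [natDegree_X]
    omega
  have hHdeg : H.natDegree ≤ max (a.natDegree + 1) b.natDegree := by
    rw [hH]
    refine (natDegree_add_le _ _).trans (max_le_max hXa le_rfl)
  have hbν : b.natDegree = ν := by
    by_contra h
    have h1 : b.natDegree ≤ ν - 1 := by omega
    have h2 : H.natDegree ≤ ν - 1 := by
      refine hHdeg.trans (max_le ?_ h1)
      omega
    omega
  have hHν : H.natDegree = ν := by
    rw [hH, natDegree_add_eq_right_of_natDegree_lt, hbν]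
    rw [hbν]
    omega
  have hHG : ∀ r, H.IsRoot r → G.IsRoot r := by
    intro r hr
    rw [IsRoot.def] at hr ⊢
    rw [hG, eval_neg, eval_mul, hr, zero_mul, neg_zero]
  have hWG : ∀ r, W.IsRoot r → G.IsRoot r := by
    intro r hr
    rw [IsRoot.def] at hr ⊢
    rw [hG, eval_neg, eval_mul, hr, mul_zero, neg_zero]
  constructor
  · by_contra hcon
    push Not at hcon
    have h1 := lemR_natDegree_eq_sum G hG0 H.roots.toFinset (fun r hr => by
      rw [Multiset.mem_toFinset, mem_roots hH0]
      exact hroot r hr)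
    have h2 : ∑ r ∈ H.roots.toFinset, G.rootMultiplicity r ≤ ∑ r ∈ H.roots.toFinset, 1 :=
      Finset.sum_le_sum fun r _ => by have := hcon r; omega
    rw [← h1, Finset.sum_const, smul_eq_mul, mul_one] at h2
    have h3 : H.roots.toFinset.card ≤ H.natDegree :=
      (Multiset.toFinset_card_le _).trans (card_roots' H)
    omega
  · by_contra hcon
    push Not at hcon
    have hGd : G.degree ≠ 0 := by
      intro h
      have h0 : G.natDegree = 0 := natDegree_eq_zero_iff_degree_le_zero.2 h.le
      omega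
    obtain ⟨r, hr⟩ := IsAlgClosed.exists_root G hGd
    have honly : ∀ r', G.IsRoot r' → r' = r := fun r' hr' => (hcon r r' hr hr').symm
    have h1 := lemR_natDegree_eq_sum H hH0 {r} (fun r' hr' => by
      rw [Finset.mem_singleton]
      exact honly r' (hHG r' hr'))
    have h2 := lemR_natDegree_eq_sum W hW0 {r} (fun r' hr' => by
      rw [Finset.mem_singleton]
      exact honly r' (hWG r' hr'))
    rw [Finset.sum_singleton] at h1 h2
    have ha0 : a ≠ 0 := by
      intro h
      apply hW0
      rw [hW, h]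
      simp
    obtain ⟨o, ho⟩ : ∃ o, o = a.rootMultiplicity r := ⟨_, rfl⟩
    have hoa : o ≤ a.natDegree := by
      have := lemR_sum_le_natDegree a ha0 {r}
      rw [Finset.sum_singleton] at this
      omega
    have hHd : (X - C r) ^ ν ∣ H := by
      rw [← le_rootMultiplicity_iff hH0]
      omega
    have had : (X - C r) ^ o ∣ a := by
      rw [← le_rootMultiplicity_iff ha0]
      omega
    have hHd' : (X - C r) ^ (ν - 1) ∣ derivative H := pow_sub_one_dvd_derivative_of_pow_dvd hHd
    have had' : (X - C r) ^ (o - 1) ∣ derivative a := pow_sub_one_dvd_derivative_of_pow_dvd had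
    have hWa : a * a = W - (derivative a * H - a * derivative H) := by
      rw [hW, hH, derivative_add, derivative_mul, derivative_X]
      ring
    have h3 : (X - C r) ^ (2 * o + 1) ∣ derivative a * H - a * derivative H := by
      refine dvd_sub ?_ ?_
      · refine (pow_dvd_pow _ (?_ : 2 * o + 1 ≤ (o - 1) + ν)).trans ?_
        · omega
        · rw [pow_add]
          exact mul_dvd_mul had' hHd
      · refine (pow_dvd_pow _ (?_ : 2 * o + 1 ≤ o + (ν - 1))).trans ?_
        · omega
        · rw [pow_add]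
          exact mul_dvd_mul had hHd'
    have h4 : (X - C r) ^ (2 * o + 1) ∣ W := by
      rw [← le_rootMultiplicity_iff hW0]
      omega
    have h5 : (X - C r) ^ (2 * o + 1) ∣ a * a := by
      rw [hWa]
      exact dvd_sub h4 h3
    have haa : a * a ≠ 0 := mul_ne_zero ha0 ha0
    rw [← le_rootMultiplicity_iff haa, rootMultiplicity_mul haa, ← ho] at h5
    omega

/-- vanishing Wronskian: proportional -/
theorem wronskian_prop (a b : Polynomial ℂ) (ha : a ≠ 0)
    (h : derivative a * b - a * derivative b = 0) : ∃ c : ℂ, b = C c * a := by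
  by_cases hb : b = 0
  · exact ⟨0, by rw [hb, C_0, zero_mul]⟩
  · obtain ⟨c, hc⟩ : ∃ c : ℂ, c = b.leadingCoeff / a.leadingCoeff := ⟨_, rfl⟩
    have hal : a.leadingCoeff ≠ 0 := leadingCoeff_ne_zero.2 ha
    have hbl : b.leadingCoeff ≠ 0 := leadingCoeff_ne_zero.2 hb
    have hc0 : c ≠ 0 := by
      rw [hc]
      exact div_ne_zero hbl hal
    refine ⟨c, ?_⟩
    by_contra hne
    have h1 : b - C c * a ≠ 0 := sub_ne_zero.2 hne
    have h2 : derivative a * (b - C c * a) - a * derivative (b - C c * a) = 0 := by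
      rw [derivative_sub, derivative_C_mul]
      linear_combination h
    have h3 : a.natDegree = b.natDegree := by
      by_contra h4
      exact uniN_wr_ne_zero a b ha hb h4 h
    have h5 : b.degree = (C c * a).degree := by
      rw [degree_C_mul hc0, degree_eq_natDegree ha, degree_eq_natDegree hb, h3]
    have h6 : b.leadingCoeff = (C c * a).leadingCoeff := by
      rw [leadingCoeff_mul, leadingCoeff_C, hc]
      field_simp
    have h7 := degree_sub_lt_left h5 hb h6
    have h8 := natDegree_lt_natDegree h1 h7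
    exact uniN_wr_ne_zero a (b - C c * a) ha h1 (by omega) h2

end Pool.Agent.Lib.MP_5bde83_ag
end
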