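import Mathlib
import Pool.Agent.Lib.MP_5bde83_ag.FlatBase

section

/-!
Part B (flatness): sums over the roots of a polynomial (Lagrange, residues of `g / D ^ 2`).
-/

namespace Pool.Agent.Lib.MP_5bde83_ag

open Polynomial

variable {E ι : Type} [Field E]

theorem eq_nodal (S : Finset ι) (x : ι → E) (hx : Set.InjOn x S) (D : E[X]) (hD : D ≠ 0)
    (hdeg : D.natDegree = S.card) (hroot : ∀ i ∈ S, D.eval (x i) = 0) :
    D = C D.leadingCoeff * Lagrange.nodal S x := by
  have h1 : (C D.leadingCoeff * Lagrange.nodal S x).degree = D.degree := by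
    rw [degree_mul, degree_C (leadingCoeff_ne_zero.mpr hD), Lagrange.degree_nodal, zero_add,
      degree_eq_natDegree hD, hdeg]
  apply Polynomial.eq_of_degree_sub_lt_of_eval_index_eq S hx
  · rw [← hdeg, ← degree_eq_natDegree hD]
    apply degree_sub_lt_left h1.symm hD
    rw [leadingCoeff_mul, leadingCoeff_C, (Lagrange.nodal_monic (s := S) (v := x)).leadingCoeff,
      mul_one]
  · intro i hi
    rw [hroot i hi, eval_mul, Lagrange.eval_nodal_at_node hi, mul_zero]

theorem eval_derivative_root [DecidableEq ι] (S : Finset ι) (x : ι → E) (hx : Set.InjOn x S)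
    (D : E[X]) (hD : D ≠ 0)
    (hdeg : D.natDegree = S.card) (hroot : ∀ i ∈ S, D.eval (x i) = 0) (i : ι) (hi : i ∈ S) :
    (derivative D).eval (x i) = D.leadingCoeff * ∏ j ∈ S.erase i, (x i - x j) := by
  conv_lhs => rw [eq_nodal S x hx D hD hdeg hroot]
  rw [derivative_C_mul, eval_C_mul, Lagrange.eval_nodal_derivative_eval_node_eq hi,
    Lagrange.eval_nodal]

theorem eval_derivative_root_ne (S : Finset ι) (x : ι → E) (hx : Set.InjOn x S)
    (D : E[X]) (hD : D ≠ 0)
    (hdeg : D.natDegree = S.card) (hroot : ∀ i ∈ S, D.eval (x i) = 0) (i : ι) (hi : i ∈ S) :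
    (derivative D).eval (x i) ≠ 0 := by
  classical
  rw [eval_derivative_root S x hx D hD hdeg hroot i hi]
  apply mul_ne_zero (leadingCoeff_ne_zero.mpr hD)
  rw [Finset.prod_ne_zero_iff]
  intro j hj h
  rw [Finset.mem_erase] at hj
  exact hj.1 (hx hj.2 hi (sub_eq_zero.mp h).symm)

/-- Lagrange: the sum of `g / D'` over the roots of `D` -/
theorem lag_sum (S : Finset ι) (x : ι → E) (hx : Set.InjOn x S) (D : E[X]) (hD : D ≠ 0)
    (hdeg : D.natDegree = S.card) (hroot : ∀ i ∈ S, D.eval (x i) = 0) (g : E[X])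
    (hg : g.degree < S.card) :
    ∑ i ∈ S, g.eval (x i) / (derivative D).eval (x i) = g.coeff (S.card - 1) / D.leadingCoeff := by
  classical
  rw [Lagrange.coeff_eq_sum hx hg, Finset.sum_div]
  refine Finset.sum_congr rfl fun i hi => ?_
  rw [eval_derivative_root S x hx D hD hdeg hroot i hi, mul_comm, div_mul_eq_div_div]

/-- the sum of the residues of `g / D ^ 2` is zero if `deg g ≤ 2 deg D - 2` -/
theorem lag_res (S : Finset ι) (x : ι → E) (hx : Set.InjOn x S) (D : E[X]) (hD : D ≠ 0)
    (hdeg : D.natDegree = S.card) (hroot : ∀ i ∈ S, D.eval (x i) = 0) (g : E[X])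
    (hg : g.natDegree ≤ 2 * S.card - 2) :
    ∑ i ∈ S, ((derivative g).eval (x i) * (derivative D).eval (x i) -
      g.eval (x i) * (derivative (derivative D)).eval (x i)) / (derivative D).eval (x i) ^ 3 = 0 := by
  classical
  rcases S.eq_empty_or_nonempty with rfl | hne
  · simp
  have hcard : 1 ≤ S.card := hne.card_pos
  have hne' := eval_derivative_root_ne S x hx D hD hdeg hroot
  -- D and D' are coprime
  have hcop : IsCoprime D (derivative D) := by
    have h1 : (Lagrange.nodal S x).Separable := by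
      rw [Lagrange.nodal_eq, separable_prod_X_sub_C_iff']
      intro i hi j hj hij
      exact hx hi hj hij
    have hu : IsUnit (C D.leadingCoeff) :=
      isUnit_C.mpr (leadingCoeff_ne_zero.mpr hD).isUnit
    rw [eq_nodal S x hx D hD hdeg hroot, derivative_C_mul]
    exact (isCoprime_mul_unit_left hu _ _).mpr h1
  obtain ⟨a, b, hab⟩ := hcop
  -- g = u D + w D' with deg w < n
  set w := (b * g) % D with hw
  set u := a * g + (b * g) / D * derivative D with hu
  have hg1 : g = u * D + w * derivative D := by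
    have h1 := EuclideanDomain.div_add_mod (b * g) D
    have h2 : g = (a * D + b * derivative D) * g := by rw [hab, one_mul]
    rw [hu, hw]
    linear_combination h2 - derivative D * h1
  have hwdeg : w.degree < D.degree := degree_mod_lt _ hD
  clear_value u w
  clear hu hw
  have hDdeg : D.degree = (S.card : WithBot ℕ) := by rw [degree_eq_natDegree hD, hdeg]
  -- degree of u + w'
  have hkey : (u + derivative w).degree < ((S.card - 1 : ℕ) : WithBot ℕ) := by
    have hw' : (derivative w).degree < ((S.card - 1 : ℕ) : WithBot ℕ) := by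
      by_cases hw0 : derivative w = 0
      · rw [hw0, degree_zero]; exact WithBot.bot_lt_coe _
      · have hw1 : w ≠ 0 := by rintro h; rw [h] at hw0; simp at hw0
        have h3 : w.natDegree < S.card := by
          have := hwdeg
          rw [hDdeg, degree_eq_natDegree hw1] at this
          exact_mod_cast this
        rw [degree_eq_natDegree hw0]
        have h4 := natDegree_derivative_lt (p := w) (by
          intro h5
          apply hw0
          rw [eq_C_of_natDegree_eq_zero h5, derivative_C])
        exact_mod_cast (by omega : (derivative w).natDegree < S.card - 1)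
    have hu' : u.degree < ((S.card - 1 : ℕ) : WithBot ℕ) := by
      by_cases hu0 : u = 0
      · rw [hu0, degree_zero]; exact WithBot.bot_lt_coe _
      · have h5 : (u * D).natDegree ≤ 2 * S.card - 2 := by
          have h6 : u * D = g - w * derivative D := by linear_combination -hg1
          rw [h6]
          refine (natDegree_sub_le _ _).trans (max_le hg ?_)
          by_cases hw1 : w = 0
          · rw [hw1, zero_mul, natDegree_zero]; omega
          have h3 : w.natDegree < S.card := by
            have := hwdeg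
            rw [hDdeg, degree_eq_natDegree hw1] at this
            exact_mod_cast this
          refine natDegree_mul_le.trans ?_
          have := natDegree_derivative_le D
          omega
        rw [natDegree_mul hu0 hD, hdeg] at h5
        rw [degree_eq_natDegree hu0]
        exact_mod_cast (by omega : u.natDegree < S.card - 1)
    exact (degree_add_le _ _).trans_lt (max_lt hu' hw')
  have hlt : (u + derivative w).degree < (S.card : WithBot ℕ) := by
    refine hkey.trans_le ?_
    exact_mod_cast (by omega : S.card - 1 ≤ S.card)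
  have hsum := lag_sum S x hx D hD hdeg hroot (u + derivative w) hlt
  rw [coeff_eq_zero_of_degree_lt hkey, zero_div] at hsum
  rw [← hsum]
  refine Finset.sum_congr rfl fun i hi => ?_
  have hr := hroot i hi
  have hn := hne' i hi
  have e1 : g.eval (x i) = w.eval (x i) * (derivative D).eval (x i) := by
    conv_lhs => rw [hg1]
    rw [eval_add, eval_mul, eval_mul, hr]; ring
  have e2 : (derivative g).eval (x i) = u.eval (x i) * (derivative D).eval (x i) +
      (derivative w).eval (x i) * (derivative D).eval (x i) +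
      w.eval (x i) * (derivative (derivative D)).eval (x i) := by
    conv_lhs => rw [hg1]
    rw [derivative_add, derivative_mul, derivative_mul]
    simp only [eval_add, eval_mul, hr]; ring
  rw [e1, e2, eval_add]
  field_simp
  ring

end Pool.Agent.Lib.MP_5bde83_ag
end

section

/-!
Part B (flatness): local identities at a tangency point.
-/

namespace Pool.Agent.Lib.MP_5bde83_ag

open Polynomial

noncomputable section

section alg

variable {E : Type} [Field E] [CharZero E]

theorem alg_L1 (Q a c D1 D2 kI k f f1 : E) (hQ : Q ≠ 0) (hD1 : D1 ≠ 0) (hf : f ≠ 0)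
    (h1 : Q * D2 = (kI - a - c) * D1) (h3 : Q * f1 = k * f) :
    Q / D1 * ((f * D2 + 2 * f1 * D1) / (2 * (f * D1))) = ((kI - (a + c)) / 2 + k) / D1 := by
  have hD2 : D2 = (kI - a - c) * D1 / Q := by rw [eq_div_iff hQ]; linear_combination h1
  have hf1 : f1 = k * f / Q := by rw [eq_div_iff hQ]; linear_combination h3
  subst hD2 hf1
  field_simp
  ring

theorem alg_L2 (Q a Q2 Qy c c1 D1 D2 D3 kI kI1 Lam k k1 f f1 f2 fy : E)
    (hQ : Q ≠ 0) (hD1 : D1 ≠ 0) (hf : f ≠ 0)
    (h1 : Q * D2 = (kI - a - c) * D1)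
    (h2 : a ^ 2 * D1 + Q * Q2 * D1 + 3 * Q * a * D2 + Q ^ 2 * D3 + a * c * D1 + 3 * Q * c1 * D1
      + Q * c * D2 + Qy * D1 ^ 2 + c ^ 2 * D1
      = kI1 * Q * D1 + kI * (a * D1 + Q * D2 + c * D1) + Lam * D1)
    (h3 : Q * f1 = k * f) (h4 : Q * f2 + a * f1 + D1 * fy = k1 * f + k * f1)
    (h5 : Lam = a ^ 2 + Q * Q2 + D1 * Qy - kI * a) :
    Q / D1 * ((f * D3 + 3 * f1 * D2 + 3 * f2 * D1) / (6 * (f * D1))) =
      ((Q * kI1 + kI ^ 2 - kI * (a + c) - 3 * Q * (Q2 + c1) + 3 * Lam) / 6 +
        (kI * k - 2 * (a + c) * k + Q * k1 + k ^ 2) / 2) / (Q * D1) +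
      1 / 2 * (((f1 * Q + f * a) * (c / D1) - (fy * Q + f * Qy)) / (f * Q)) := by
  have hD2 : D2 = (kI - a - c) * D1 / Q := by rw [eq_div_iff hQ]; linear_combination h1
  have hf1 : f1 = k * f / Q := by rw [eq_div_iff hQ]; linear_combination h3
  have hf2 : f2 = (k1 * f + k * f1 - a * f1 - D1 * fy) / Q := by
    rw [eq_div_iff hQ]; linear_combination h4
  have hD3 : D3 = (kI1 * Q * D1 + kI * (a * D1 + Q * D2 + c * D1) + Lam * D1
      - (a ^ 2 * D1 + Q * Q2 * D1 + 3 * Q * a * D2 + a * c * D1 + 3 * Q * c1 * D1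
      + Q * c * D2 + Qy * D1 ^ 2 + c ^ 2 * D1)) / Q ^ 2 := by
    rw [eq_div_iff (pow_ne_zero 2 hQ)]; linear_combination h2
  subst h5 hD3 hf2 hD2 hf1
  field_simp
  ring

end alg

theorem DyDx (f : R2) : Dy (Dx f) = Dx (Dy f) := by
  ext1 j
  rw [Dy_coeff, Dx_coeff, Dx_coeff, Dy_coeff, derivative_mul]
  simp

section jets

variable {E : Type} [Field E] [Algebra ℂ E]

/-- derivative of `h` along the line `y = p x - q` -/
def del (p x y : E) (h : R2) : E := evE x y (Dx h) + p * evE x y (Dy h)

theorem jet5 (P Q κ Λ : R2) (hQ2 : Xd Q P (Xd Q P Q) = κ * Xd Q P Q + Λ * Q)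
    (x y p : E) (hr : evE x y P = p * evE x y Q) (hQ : evE x y Q ≠ 0) :
    evE x y Λ = del p x y Q ^ 2
      + evE x y Q * (del p x y (Dx Q) + p * del p x y (Dy Q))
      + (del p x y P - p * del p x y Q) * evE x y (Dy Q) - evE x y κ * del p x y Q := by
  have h := congrArg (evE x y) hQ2
  unfold Xd at h
  simp only [Dx_add, Dx_mul, Dy_add, Dy_mul, DyDx, map_add, map_mul] at h
  unfold del
  simp only [DyDx]
  apply mul_left_cancel₀ hQ
  rw [hr] at h
  linear_combination -h

theorem jet1 (P Q κ Λ : R2) (hQ2 : Xd Q P (Xd Q P Q) = κ * Xd Q P Q + Λ * Q)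
    (hP2 : Xd Q P (Xd Q P P) = κ * Xd Q P P + Λ * P)
    (x y p : E) (hr : evE x y P = p * evE x y Q) (hQ : evE x y Q ≠ 0) :
    evE x y Q * ((del p x y (Dx P) + p * del p x y (Dy P))
        - p * (del p x y (Dx Q) + p * del p x y (Dy Q))) =
      (evE x y κ - del p x y Q - (evE x y (Dy P) - p * evE x y (Dy Q))) *
        (del p x y P - p * del p x y Q) := by
  have h := congrArg (evE x y) hQ2
  have h' := congrArg (evE x y) hP2
  unfold Xd at h h'
  simp only [Dx_add, Dx_mul, Dy_add, Dy_mul, DyDx, map_add, map_mul] at h h'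
  unfold del
  simp only [DyDx]
  apply mul_left_cancel₀ hQ
  rw [hr] at h h'
  linear_combination h' - p * h

theorem jet2 (P Q κ Λ : R2) (hQ2 : Xd Q P (Xd Q P Q) = κ * Xd Q P Q + Λ * Q)
    (hP2 : Xd Q P (Xd Q P P) = κ * Xd Q P P + Λ * P)
    (x y p : E) (hr : evE x y P = p * evE x y Q) :
    del p x y Q ^ 2 * (del p x y P - p * del p x y Q)
    + evE x y Q * (del p x y (Dx Q) + p * del p x y (Dy Q)) * (del p x y P - p * del p x y Q)
    + 3 * evE x y Q * del p x y Q * ((del p x y (Dx P) + p * del p x y (Dy P))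
        - p * (del p x y (Dx Q) + p * del p x y (Dy Q)))
    + evE x y Q ^ 2 * (((del p x y (Dx (Dx P)) + p * del p x y (Dx (Dy P)))
        + p * (del p x y (Dx (Dy P)) + p * del p x y (Dy (Dy P))))
        - p * ((del p x y (Dx (Dx Q)) + p * del p x y (Dx (Dy Q)))
        + p * (del p x y (Dx (Dy Q)) + p * del p x y (Dy (Dy Q)))))
    + del p x y Q * (evE x y (Dy P) - p * evE x y (Dy Q)) * (del p x y P - p * del p x y Q)
    + 3 * evE x y Q * (del p x y (Dy P) - p * del p x y (Dy Q))
        * (del p x y P - p * del p x y Q)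
    + evE x y Q * (evE x y (Dy P) - p * evE x y (Dy Q)) *
        ((del p x y (Dx P) + p * del p x y (Dy P))
        - p * (del p x y (Dx Q) + p * del p x y (Dy Q)))
    + evE x y (Dy Q) * (del p x y P - p * del p x y Q) ^ 2
    + (evE x y (Dy P) - p * evE x y (Dy Q)) ^ 2 * (del p x y P - p * del p x y Q)
    = del p x y κ * evE x y Q * (del p x y P - p * del p x y Q)
    + evE x y κ * (del p x y Q * (del p x y P - p * del p x y Q)
      + evE x y Q * ((del p x y (Dx P) + p * del p x y (Dy P))
        - p * (del p x y (Dx Q) + p * del p x y (Dy Q)))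
      + (evE x y (Dy P) - p * evE x y (Dy Q)) * (del p x y P - p * del p x y Q))
    + evE x y Λ * (del p x y P - p * del p x y Q) := by
  have h1 := congrArg (fun f => evE x y (Dx f)) hQ2
  have h2 := congrArg (fun f => evE x y (Dy f)) hQ2
  have h3 := congrArg (fun f => evE x y (Dx f)) hP2
  have h4 := congrArg (fun f => evE x y (Dy f)) hP2
  unfold Xd at h1 h2 h3 h4
  simp only [Dx_add, Dx_mul, Dy_add, Dy_mul, DyDx, map_add, map_mul] at h1 h2 h3 h4
  unfold del
  simp only [DyDx]
  rw [hr] at h1 h2 h3 h4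
  linear_combination h3 + p * h4 - p * (h1 + p * h2)

end jets

end

end Pool.Agent.Lib.MP_5bde83_ag
end
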