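import Pool.Agent.Lib.MP_5bde83_ag.Mg.G001
import Pool.Agent.Lib.MP_5bde83_ag.FlatDef
import Pool.Agent.Lib.MP_5bde83_ag.FlatBase

section

/-!
Part B (flatness): derivatives of the web polynomial and of the slopes at a tangency point.
-/

namespace Pool.Agent.Lib.MP_5bde83_ag

open Polynomial

noncomputable section

variable {E : Type} [Field E] [Algebra ℂ E]

theorem onLine_d1 (p q x : E) (h : R2) :
    (derivative (onLine p q h)).eval x = del p x (p * x - q) h := by
  rw [onLine_derivative]
  simp [onLine_eval, del]

theorem onLine_d2 (p q x : E) (h : R2) :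
    (derivative (derivative (onLine p q h))).eval x =
      del p x (p * x - q) (Dx h) + p * del p x (p * x - q) (Dy h) := by
  rw [onLine_derivative, derivative_add, derivative_C_mul, eval_add, eval_mul, eval_C, onLine_d1,
    onLine_d1]

theorem onLine_d3 (p q x : E) (h : R2) :
    (derivative (derivative (derivative (onLine p q h)))).eval x =
      (del p x (p * x - q) (Dx (Dx h)) + p * del p x (p * x - q) (Dx (Dy h))) +
      p * (del p x (p * x - q) (Dx (Dy h)) + p * del p x (p * x - q) (Dy (Dy h))) := by
  rw [onLine_derivative, derivative_add, derivative_C_mul, derivative_add, derivative_C_mul,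
    eval_add, eval_mul, eval_C, onLine_d2, onLine_d2, DyDx]

variable {dp dq : Derivation ℂ E E} {p q : E}

theorem dq_ev (hpq : PQ dp dq p q) (x : E) (h : R2) :
    dq (evE x (p * x - q) h) =
      del p x (p * x - q) h * dq x - evE x (p * x - q) (Dy h) := by
  rw [deriv_evE, map_sub, Derivation.leibniz, hpq.qp, hpq.qq, del]
  simp only [smul_eq_mul]
  ring

theorem dp_ev (hpq : PQ dp dq p q) (x : E) (h : R2) :
    dp (evE x (p * x - q) h) =
      del p x (p * x - q) h * dp x + x * evE x (p * x - q) (Dy h) := by
  rw [deriv_evE, map_sub, Derivation.leibniz, hpq.pp, hpq.pq, del]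
  simp only [smul_eq_mul]
  ring

variable {P Q : R2}

theorem tang_eval (x : E) :
    (tangPoly P Q p q).eval x = evE x (p * x - q) P - p * evE x (p * x - q) Q := by
  simp [tangPoly, onLine_eval]

theorem tang_d1 (x : E) : (derivative (tangPoly P Q p q)).eval x =
    del p x (p * x - q) P - p * del p x (p * x - q) Q := by
  rw [tangPoly, derivative_sub, derivative_C_mul, eval_sub, eval_mul, eval_C, onLine_d1, onLine_d1]

theorem tang_d2 (x : E) : (derivative (derivative (tangPoly P Q p q))).eval x =
    (del p x (p * x - q) (Dx P) + p * del p x (p * x - q) (Dy P)) -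
      p * (del p x (p * x - q) (Dx Q) + p * del p x (p * x - q) (Dy Q)) := by
  rw [tangPoly, derivative_sub, derivative_C_mul, derivative_sub, derivative_C_mul, eval_sub,
    eval_mul, eval_C, onLine_d2, onLine_d2]

theorem tang_d3 (x : E) : (derivative (derivative (derivative (tangPoly P Q p q)))).eval x =
    ((del p x (p * x - q) (Dx (Dx P)) + p * del p x (p * x - q) (Dx (Dy P))) +
      p * (del p x (p * x - q) (Dx (Dy P)) + p * del p x (p * x - q) (Dy (Dy P)))) -
      p * ((del p x (p * x - q) (Dx (Dx Q)) + p * del p x (p * x - q) (Dx (Dy Q))) +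
      p * (del p x (p * x - q) (Dx (Dy Q)) + p * del p x (p * x - q) (Dy (Dy Q)))) := by
  rw [tangPoly, derivative_sub, derivative_C_mul, derivative_sub, derivative_C_mul, derivative_sub,
    derivative_C_mul, eval_sub, eval_mul, eval_C, onLine_d3, onLine_d3]

/-- `D1 * u = c` -/
theorem slope_q (hpq : PQ dp dq p q) (x : E) (hr : (tangPoly P Q p q).eval x = 0) :
    (derivative (tangPoly P Q p q)).eval x * dq x =
      evE x (p * x - q) (Dy P) - p * evE x (p * x - q) (Dy Q) := by
  rw [tang_eval] at hr
  have h := congrArg dq hr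
  rw [map_sub, Derivation.leibniz, map_zero, hpq.qp, dq_ev hpq, dq_ev hpq] at h
  simp only [smul_eq_mul] at h
  rw [tang_d1]
  linear_combination h

/-- `D1 * s = Q` -/
theorem slope_s (hpq : PQ dp dq p q) (x : E) (hr : (tangPoly P Q p q).eval x = 0) :
    (derivative (tangPoly P Q p q)).eval x * (dp x + x * dq x) = evE x (p * x - q) Q := by
  have hu := slope_q hpq x hr
  rw [tang_eval] at hr
  have h := congrArg dp hr
  rw [map_sub, Derivation.leibniz, map_zero, hpq.pp, dp_ev hpq, dp_ev hpq] at h
  simp only [smul_eq_mul] at h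
  rw [tang_d1] at hu ⊢
  linear_combination h + x * hu

/-- slopes of the branches coming from the curve -/
theorem slope_curve (hpq : PQ dp dq p q) (f : R2) (x : E) (hr : (onLine p q f).eval x = 0) :
    (derivative (onLine p q f)).eval x * dq x = evE x (p * x - q) (Dy f) ∧
    (derivative (onLine p q f)).eval x * (dp x + x * dq x) = 0 := by
  rw [onLine_eval] at hr
  have h := congrArg dq hr
  have h' := congrArg dp hr
  rw [map_zero, dq_ev hpq] at h
  rw [map_zero, dp_ev hpq] at h'
  rw [onLine_d1]
  constructor
  · linear_combination h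
  · linear_combination h' + x * h

/-- derivation of `D1` -/
theorem dq_D1 (hpq : PQ dp dq p q) (x : E) :
    dq ((derivative (tangPoly P Q p q)).eval x) =
      (derivative (derivative (tangPoly P Q p q))).eval x * dq x -
        (del p x (p * x - q) (Dy P) - p * del p x (p * x - q) (Dy Q)) := by
  rw [tang_d1, tang_d2]
  have e1 : dq (del p x (p * x - q) P) =
      del p x (p * x - q) (Dx P) * dq x + p * del p x (p * x - q) (Dy P) * dq x -
        del p x (p * x - q) (Dy P) := by
    rw [del, map_add, Derivation.leibniz, hpq.qp, dq_ev hpq, dq_ev hpq, DyDx]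
    simp only [smul_eq_mul, del]
    ring
  have e2 : dq (del p x (p * x - q) Q) =
      del p x (p * x - q) (Dx Q) * dq x + p * del p x (p * x - q) (Dy Q) * dq x -
        del p x (p * x - q) (Dy Q) := by
    rw [del, map_add, Derivation.leibniz, hpq.qp, dq_ev hpq, dq_ev hpq, DyDx]
    simp only [smul_eq_mul, del]
    ring
  rw [map_sub, Derivation.leibniz, hpq.qp, e1, e2]
  simp only [smul_eq_mul]
  ring

theorem dp_D1 (hpq : PQ dp dq p q) (x : E) :
    dp ((derivative (tangPoly P Q p q)).eval x) =
      (derivative (derivative (tangPoly P Q p q))).eval x * dp x +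
        x * (del p x (p * x - q) (Dy P) - p * del p x (p * x - q) (Dy Q)) +
        (evE x (p * x - q) (Dy P) - p * evE x (p * x - q) (Dy Q)) - del p x (p * x - q) Q := by
  rw [tang_d1, tang_d2]
  have e1 : dp (del p x (p * x - q) P) =
      del p x (p * x - q) (Dx P) * dp x + p * del p x (p * x - q) (Dy P) * dp x +
        x * del p x (p * x - q) (Dy P) + evE x (p * x - q) (Dy P) := by
    rw [del, map_add, Derivation.leibniz, hpq.pp, dp_ev hpq, dp_ev hpq, DyDx]
    simp only [smul_eq_mul, del]
    ring
  have e2 : dp (del p x (p * x - q) Q) =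
      del p x (p * x - q) (Dx Q) * dp x + p * del p x (p * x - q) (Dy Q) * dp x +
        x * del p x (p * x - q) (Dy Q) + evE x (p * x - q) (Dy Q) := by
    rw [del, map_add, Derivation.leibniz, hpq.pp, dp_ev hpq, dp_ev hpq, DyDx]
    simp only [smul_eq_mul, del]
    ring
  rw [map_sub, Derivation.leibniz, hpq.pp, e1, e2]
  simp only [smul_eq_mul]
  ring

/-- (L5) -/
theorem res_identity (hpq : PQ dp dq p q) (B : R2) (x : E) (hr : (tangPoly P Q p q).eval x = 0)
    (hD : (derivative (tangPoly P Q p q)).eval x ≠ 0) (hQ : evE x (p * x - q) Q ≠ 0) :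
    dp (evE x (p * x - q) B / (evE x (p * x - q) Q * (derivative (tangPoly P Q p q)).eval x)) +
    dq (x * (evE x (p * x - q) B /
      (evE x (p * x - q) Q * (derivative (tangPoly P Q p q)).eval x))) =
    ((derivative (onLine p q B)).eval x * (derivative (tangPoly P Q p q)).eval x -
      (onLine p q B).eval x * (derivative (derivative (tangPoly P Q p q))).eval x) /
      (derivative (tangPoly P Q p q)).eval x ^ 3 := by
  set T := evE x (p * x - q) B / (evE x (p * x - q) Q *
    (derivative (tangPoly P Q p q)).eval x) with hT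
  have hT1 : T * (evE x (p * x - q) Q * (derivative (tangPoly P Q p q)).eval x) =
      evE x (p * x - q) B := by
    rw [hT]; field_simp
  have h1 := congrArg dp hT1
  have h2 := congrArg dq hT1
  rw [Derivation.leibniz, Derivation.leibniz, dp_ev hpq, dp_ev hpq, dp_D1 hpq] at h1
  rw [Derivation.leibniz, Derivation.leibniz, dq_ev hpq, dq_ev hpq, dq_D1 hpq] at h2
  simp only [smul_eq_mul] at h1 h2
  have hu := slope_q hpq x hr
  have hs := slope_s hpq x hr
  rw [Derivation.leibniz, onLine_eval, onLine_d1, ← hT1]
  simp only [smul_eq_mul]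
  clear_value T
  generalize (derivative (tangPoly P Q p q)).eval x = D1 at *
  generalize (derivative (derivative (tangPoly P Q p q))).eval x = D2 at *
  generalize evE x (p * x - q) Q = Qv at *
  generalize evE x (p * x - q) B = Bv at *
  generalize del p x (p * x - q) Q = a at *
  generalize del p x (p * x - q) B = B' at *
  generalize evE x (p * x - q) (Dy P) - p * evE x (p * x - q) (Dy Q) = c at *
  generalize del p x (p * x - q) (Dy P) - p * del p x (p * x - q) (Dy Q) = c1 at *
  have hu' : dq x = c / D1 := by rw [eq_div_iff hD]; linear_combination hu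
  have hs' : dp x = (Qv - x * c) / D1 := by
    rw [eq_div_iff hD]; linear_combination hs - x * hu
  have key : (dp T + x * dq T) * (Qv * D1) =
      B' * (dp x + x * dq x) - T * (a * (dp x + x * dq x) * D1 +
        Qv * (D2 * (dp x + x * dq x) + c - a)) := by
    linear_combination h1 + x * h2
  have key2 : dp T + x * dq T = (B' * (dp x + x * dq x) - T * (a * (dp x + x * dq x) * D1 +
        Qv * (D2 * (dp x + x * dq x) + c - a))) / (Qv * D1) := by
    rw [eq_div_iff (mul_ne_zero hQ hD)]; exact key
  have : dp T + (x * dq T + T * dq x) = (dp T + x * dq T) + T * dq x := by ring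
  rw [this, key2, hu', hs']
  field_simp
  ring

end

end Pool.Agent.Lib.MP_5bde83_ag
end

section

/-!
Part B (flatness): degree and top coefficient of the restriction to a line.
-/

namespace Pool.Agent.Lib.MP_5bde83_ag

open Polynomial

noncomputable section

variable {E : Type} [Field E] [Algebra ℂ E]

theorem onLine_eq_sum (p q : E) (h : R2) :
    onLine p q h = ∑ j ∈ h.support, (h.coeff j).map (algebraMap ℂ E) * (C p * X - C q) ^ j := by
  rw [onLine, coe_eval₂RingHom, eval₂_eq_sum, Polynomial.sum_def]
  simp

omit [Algebra ℂ E] in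
theorem natDegree_lin_pow (p q : E) (j : ℕ) : ((C p * X - C q : E[X]) ^ j).natDegree ≤ j := by
  refine natDegree_pow_le.trans ?_
  have h1 : (C p * X - C q : E[X]).natDegree ≤ 1 := by
    refine (natDegree_sub_le _ _).trans ?_
    simp only [natDegree_C]
    exact max_le ((natDegree_C_mul_le _ _).trans natDegree_X_le) zero_le_one
  calc j * _ ≤ j * 1 := Nat.mul_le_mul_left j h1
    _ = j := mul_one j

omit [Algebra ℂ E] in
theorem coeff_lin_pow (p q : E) (j : ℕ) : ((C p * X - C q : E[X]) ^ j).coeff j = p ^ j := by
  have h1 : (C p * X - C q : E[X]).natDegree ≤ 1 := by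
    simpa using natDegree_lin_pow p q 1
  have := coeff_pow_of_natDegree_le (p := (C p * X - C q : E[X])) (n := 1) (m := j) h1
  rw [mul_one] at this
  rw [this]
  simp

theorem Deg_coeff {N : ℕ} {h : R2} (hd : Deg N h) (j : ℕ) (hj : j ∈ h.support) :
    j ≤ N ∧ (h.coeff j).natDegree ≤ N - j := by
  rw [mem_support_iff] at hj
  have h2 := hd (h.coeff j).natDegree j (by
    rw [coeff_natDegree]; exact leadingCoeff_ne_zero.mpr hj)
  omega

theorem onLine_natDegree_le {N : ℕ} {h : R2} (hd : Deg N h) (p q : E) :
    (onLine p q h).natDegree ≤ N := by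
  rw [onLine_eq_sum]
  refine natDegree_sum_le_of_forall_le _ _ fun j hj => ?_
  obtain ⟨h1, h2⟩ := Deg_coeff hd j hj
  refine natDegree_mul_le.trans ?_
  have h3 := natDegree_lin_pow p q j
  have h4 : ((h.coeff j).map (algebraMap ℂ E)).natDegree ≤ (h.coeff j).natDegree :=
    natDegree_map_le
  omega

/-- the top coefficient -/
theorem onLine_coeff {N : ℕ} {h : R2} (hd : Deg N h) (p q : E) :
    (onLine p q h).coeff N =
      ∑ j ∈ Finset.range (N + 1), algebraMap ℂ E ((h.coeff j).coeff (N - j)) * p ^ j := by
  rw [onLine_eq_sum, finsetSum_coeff]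
  have key : ∀ j ∈ h.support, ((h.coeff j).map (algebraMap ℂ E) * (C p * X - C q) ^ j).coeff N =
      algebraMap ℂ E ((h.coeff j).coeff (N - j)) * p ^ j := by
    intro j hj
    obtain ⟨h1, h2⟩ := Deg_coeff hd j hj
    have h4 : ((h.coeff j).map (algebraMap ℂ E)).natDegree ≤ N - j :=
      natDegree_map_le.trans h2
    have := coeff_mul_add_eq_of_natDegree_le h4 (natDegree_lin_pow p q j)
    rw [Nat.sub_add_cancel h1] at this
    rw [this, coeff_lin_pow, coeff_map]
  rw [Finset.sum_congr rfl key]
  apply Finset.sum_subset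
  · intro j hj
    rw [Finset.mem_range]
    have := (Deg_coeff hd j hj).1
    omega
  · intro j _ hj
    rw [mem_support_iff, not_not] at hj
    rw [hj]; simp

theorem dq_poly_p {dq : Derivation ℂ E E} {p : E} (hp : dq p = 0) (c : ℂ) (j : ℕ) :
    dq (algebraMap ℂ E c * p ^ j) = 0 := by
  rw [Derivation.leibniz, Derivation.leibniz_pow, hp, Derivation.map_algebraMap]
  simp

/-- the top coefficient does not depend on `q` -/
theorem dq_onLine_coeff {N : ℕ} {h : R2} (hd : Deg N h) {dq : Derivation ℂ E E} {p q : E}
    (hp : dq p = 0) : dq ((onLine p q h).coeff N) = 0 := by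
  rw [onLine_coeff hd, map_sum]
  exact Finset.sum_eq_zero fun j _ => dq_poly_p hp _ j

end

end Pool.Agent.Lib.MP_5bde83_ag
end
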