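import Pool.Agent.Lib.MP_5bde83_ag.Web4

section

namespace Pool.Agent.Lib.MP_5bde83_ag.Web

open Polynomial Finset

set_option linter.unusedSimpArgs false
set_option linter.unusedSectionVars false

noncomputable section

variable {R E : Type*} [CommRing R] [Field E] [Algebra R E] [CharZero E]
variable {Dp Dq : Derivation R E E}
variable {ι : Type*} [Fintype ι] [LinearOrder ι]

/-! ### Logarithmic derivatives of products -/

theorem prod_deriv (s : Finset ι) (x : ι → E) (t : E) (h : ∀ j ∈ s, t ≠ x j) :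
    (derivative (∏ j ∈ s, (X - C (x j)))).eval t =
      (∏ j ∈ s, (X - C (x j))).eval t * ∑ j ∈ s, (t - x j)⁻¹ ∧
    (derivative (derivative (∏ j ∈ s, (X - C (x j))))).eval t =
      (∏ j ∈ s, (X - C (x j))).eval t *
        ((∑ j ∈ s, (t - x j)⁻¹) ^ 2 - ∑ j ∈ s, ((t - x j)⁻¹) ^ 2) := by
  classical
  induction s using Finset.induction_on with
  | empty => simp
  | insert a s ha ih =>
    obtain ⟨i1, i2⟩ := ih (fun j hj => h j (Finset.mem_insert_of_mem hj))
    have ht : t - x a ≠ 0 := sub_ne_zero.2 (h a (Finset.mem_insert_self a s))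
    rw [Finset.prod_insert ha, Finset.sum_insert ha, Finset.sum_insert ha]
    set V := ∏ j ∈ s, (X - C (x j)) with hV
    have d1 : derivative ((X - C (x a)) * V) = V + (X - C (x a)) * derivative V := by
      rw [derivative_mul, derivative_sub, derivative_X, derivative_C, sub_zero, one_mul]
    constructor
    · rw [d1]
      simp only [eval_add, eval_mul, eval_sub, eval_X, eval_C, i1]
      field_simp
    · rw [d1]
      have d2 : derivative (V + (X - C (x a)) * derivative V) =
          2 * derivative V + (X - C (x a)) * derivative (derivative V) := by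
        rw [derivative_add, derivative_mul, derivative_sub, derivative_X, derivative_C, sub_zero,
          one_mul]
        ring
      rw [d2]
      simp only [eval_add, eval_mul, eval_sub, eval_X, eval_C, i1, i2, eval_ofNat]
      field_simp
      ring

/-- `2 e2 = e1^2 - sum of squares` -/
theorem two_e2 (x : ι → E) (i : ι) :
    2 * e2 x i = (∑ j ∈ univ.erase i, (x i - x j)⁻¹) ^ 2 -
      ∑ j ∈ univ.erase i, ((x i - x j)⁻¹) ^ 2 := by
  have h := pair_sum i (fun j k : ι => (x i - x j)⁻¹ * (x i - x k)⁻¹) (fun _ _ => mul_comm _ _)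
  have h2 : ∑ j ∈ univ.erase i, ∑ k ∈ (univ.erase i).erase j,
      (x i - x j)⁻¹ * (x i - x k)⁻¹ = (∑ j ∈ univ.erase i, (x i - x j)⁻¹) ^ 2 -
      ∑ j ∈ univ.erase i, ((x i - x j)⁻¹) ^ 2 := by
    rw [sq, Finset.sum_mul, ← Finset.sum_sub_distrib]
    refine Finset.sum_congr rfl fun j hj => ?_
    rw [← Finset.mul_sum, ← Finset.add_sum_erase (univ.erase i) (fun k => (x i - x k)⁻¹) hj]
    ring
  rw [h2] at h
  rw [two_mul]; exact h

/-- values of the derivatives of the web polynomial -/
theorem deriv_vals (x : ι → E) (hx : Function.Injective x) (W : E[X]) (c : E) (hc : c ≠ 0)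
    (hW : W = C c * ∏ j, (X - C (x j))) (i : ι) :
    (derivative W).eval (x i) ≠ 0 ∧
    e1 x i = (derivative (derivative W)).eval (x i) / (2 * (derivative W).eval (x i)) ∧
    e2 x i = (derivative (derivative (derivative W))).eval (x i) /
      (6 * (derivative W).eval (x i)) := by
  set V := ∏ j ∈ univ.erase i, (X - C (x j)) with hV
  have hWV : W = C c * ((X - C (x i)) * V) := by
    rw [hW, hV, Finset.mul_prod_erase univ (fun j => X - C (x j)) (Finset.mem_univ i)]
  have hne : ∀ j ∈ univ.erase i, x i ≠ x j := fun j hj => hx.ne (Finset.ne_of_mem_erase hj).symm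
  obtain ⟨i1, i2⟩ := prod_deriv (univ.erase i) x (x i) hne
  rw [← hV] at i1 i2
  have hV0 : V.eval (x i) ≠ 0 := by
    rw [hV, eval_prod]
    exact Finset.prod_ne_zero_iff.2 fun j hj => by
      simpa using sub_ne_zero.2 (hne j hj)
  have D1 : derivative W = C c * (V + (X - C (x i)) * derivative V) := by
    rw [hWV, derivative_C_mul, derivative_mul, derivative_sub, derivative_X, derivative_C,
      sub_zero, one_mul]
  have D2 : derivative (derivative W) =
      C c * (2 * derivative V + (X - C (x i)) * derivative (derivative V)) := by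
    rw [D1, derivative_C_mul, derivative_add, derivative_mul, derivative_sub, derivative_X,
      derivative_C, sub_zero, one_mul]
    ring
  have D3 : derivative (derivative (derivative W)) =
      C c * (3 * derivative (derivative V) +
        (X - C (x i)) * derivative (derivative (derivative V))) := by
    rw [D2, derivative_C_mul, derivative_add, derivative_mul, derivative_mul, derivative_sub,
      derivative_X, derivative_C, sub_zero, one_mul]
    rw [derivative_ofNat]
    ring
  have v1 : (derivative W).eval (x i) = c * V.eval (x i) := by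
    rw [D1]; simp
  have v2 : (derivative (derivative W)).eval (x i) = c * (2 * (derivative V).eval (x i)) := by
    rw [D2]; simp
  have v3 : (derivative (derivative (derivative W))).eval (x i) =
      c * (3 * (derivative (derivative V)).eval (x i)) := by
    rw [D3]; simp
  refine ⟨?_, ?_, ?_⟩
  · rw [v1]; exact mul_ne_zero hc hV0
  · rw [v1, v2, i1, e1]
    field_simp
  · rw [v1, v3, i2, ← two_e2]
    field_simp
    ring

/-- a polynomial of degree `card ι` with the `x i` as roots is a product -/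
theorem eq_prod_of_roots (x : ι → E) (hx : Function.Injective x) (W : E[X]) (hW : W ≠ 0)
    (hdeg : W.natDegree ≤ Fintype.card ι) (hr : ∀ i, W.eval (x i) = 0) :
    W = C W.leadingCoeff * ∏ j, (X - C (x j)) := by
  classical
  have hdvd : ∏ j, (X - C (x j)) ∣ W := by
    apply Finset.prod_dvd_of_coprime
    · intro i _ j _ hij
      exact pairwise_coprime_X_sub_C hx hij
    · intro i _
      exact dvd_iff_isRoot.2 (hr i)
  obtain ⟨Q, hQ⟩ := hdvd
  have hmonic : (∏ j, (X - C (x j))).Monic := monic_prod_of_monic _ _ fun j _ => monic_X_sub_C _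
  have hd1 : (∏ j, (X - C (x j))).natDegree = Fintype.card ι := by
    rw [natDegree_prod_of_monic _ _ fun j _ => monic_X_sub_C _]
    simp
  have hQ0 : Q ≠ 0 := by
    rintro rfl
    exact hW (by rw [hQ, mul_zero])
  have hd2 : W.natDegree = Fintype.card ι + Q.natDegree := by
    rw [hQ, hmonic.natDegree_mul' hQ0, hd1]
  have hQ1 : Q.natDegree = 0 := by omega
  obtain ⟨c, rfl⟩ := natDegree_eq_zero.1 hQ1
  have : W.leadingCoeff = c := by
    rw [hQ, leadingCoeff_mul, hmonic.leadingCoeff, one_mul, leadingCoeff_C]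
  rw [this, hQ, mul_comm]

/-! ### Slope at infinity -/

/-- total curvature of a web with finite slopes and one slope at infinity -/
theorem Ktot_sl_inf (hc : ∀ z, Dp (Dq z) = Dq (Dp z)) (m : ℕ) (w : Fin (m + 1) → E × E)
    (x : Fin m → E) (hx : Function.Injective x) (hw : ∀ i, w (Fin.castSucc i) = sl (x i))
    (hl : w (Fin.last m) = (1, 0)) :
    Ktot Dp Dq w = - Dp (Tsum Dp Dq x) - Dq (Ssum Dp Dq m x) := by
  have h1 : Ktot Dp Dq w = Ktot Dp Dq (fun i => sl (x i)) +
      ∑ i, ∑ j, if i < j then K3 Dp Dq (sl (x i)) (sl (x j)) (1, 0) else 0 := by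
    simp only [Ktot]
    rw [Fin.sum_univ_castSucc]
    have hz : ∑ j, ∑ k, (if Fin.last m < j ∧ j < k then
        K3 Dp Dq (w (Fin.last m)) (w j) (w k) else 0) = 0 := by
      apply Finset.sum_eq_zero; intro j _
      apply Finset.sum_eq_zero; intro k _
      rw [if_neg]
      intro h
      exact absurd h.1 (Fin.le_last j).not_gt
    rw [hz, add_zero, ← Finset.sum_add_distrib]
    refine Finset.sum_congr rfl fun i _ => ?_
    rw [Fin.sum_univ_castSucc]
    have hz2 : ∑ k, (if Fin.castSucc i < Fin.last m ∧ Fin.last m < k then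
        K3 Dp Dq (w (Fin.castSucc i)) (w (Fin.last m)) (w k) else 0) = 0 := by
      apply Finset.sum_eq_zero; intro k _
      rw [if_neg]
      intro h
      exact absurd h.2 (Fin.le_last k).not_gt
    rw [hz2, add_zero, ← Finset.sum_add_distrib]
    refine Finset.sum_congr rfl fun j _ => ?_
    rw [Fin.sum_univ_castSucc]
    congr 1
    · refine Finset.sum_congr rfl fun k _ => ?_
      simp only [Fin.castSucc_lt_castSucc_iff, hw]
    · simp only [Fin.castSucc_lt_castSucc_iff, Fin.castSucc_lt_last, and_true, hw, hl]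
  have h2 : ∑ i, ∑ j, (if i < j then K3 Dp Dq (sl (x i)) (sl (x j)) (1, 0) else 0) =
      - Dq (((m : E) - 1) * ∑ i, Dq (x i) - ∑ i, sd Dp Dq (x i) * e1 x i) := by
    have s1 : ∀ i j : Fin m, (if i < j then K3 Dp Dq (sl (x i)) (sl (x j)) (1, 0) else 0) =
        - Dq ((if i < j then (Dq (x i) - sd Dp Dq (x i) * (x i - x j)⁻¹) else 0) +
          (if i < j then (Dq (x j) - sd Dp Dq (x j) * (x j - x i)⁻¹) else 0)) := by
      intro i j
      split_ifs with h
      · rw [K3_sl_inf hc _ _ (hx.ne h.ne)]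
      · simp
    simp_rw [s1, Finset.sum_neg_distrib, ← map_sum]
    congr 2
    simp_rw [Finset.sum_add_distrib]
    have s2 : ∑ i, ∑ j, (if i < j then (Dq (x j) - sd Dp Dq (x j) * (x j - x i)⁻¹) else 0) =
        ∑ i, ∑ j, (if j < i then (Dq (x i) - sd Dp Dq (x i) * (x i - x j)⁻¹) else 0) := by
      rw [Finset.sum_comm]
    rw [s2, ← Finset.sum_add_distrib, map_sum, Finset.mul_sum, ← Finset.sum_sub_distrib]
    refine Finset.sum_congr rfl fun i _ => ?_
    rw [← Finset.sum_add_distrib]
    have s3 : ∀ j, (if i < j then (Dq (x i) - sd Dp Dq (x i) * (x i - x j)⁻¹) else 0) +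
        (if j < i then (Dq (x i) - sd Dp Dq (x i) * (x i - x j)⁻¹) else 0) =
        (if j ≠ i then (Dq (x i) - sd Dp Dq (x i) * (x i - x j)⁻¹) else 0) := by
      intro j
      rcases lt_trichotomy i j with h | h | h
      · simp [h, h.not_gt, h.ne']
      · subst h; simp
      · simp [h, h.not_gt, h.ne]
    simp_rw [s3]
    rw [← Finset.sum_filter]
    have s4 : (univ.filter fun j : Fin m => j ≠ i) = univ.erase i := by
      ext j; simp
    rw [s4, Finset.sum_sub_distrib, Finset.sum_const, ← Finset.mul_sum,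
      Finset.card_erase_of_mem (Finset.mem_univ i), Finset.card_univ, Fintype.card_fin,
      nsmul_eq_mul]
    have hm : 1 ≤ m := (Nat.zero_le i.val).trans_lt i.isLt
    rw [Nat.cast_sub hm, Nat.cast_one, e1]
  rw [h1, h2, Ktot_sl hc x hx, Fintype.card_fin]
  have h3 : Ssum Dp Dq m x = Ssum Dp Dq (m - 1) x +
      (((m : E) - 1) * ∑ i, Dq (x i) - ∑ i, sd Dp Dq (x i) * e1 x i) := by
    rcases Nat.eq_zero_or_pos m with rfl | hm
    · simp [Ssum]
    · simp only [Ssum]
      obtain ⟨k, rfl⟩ : ∃ k, m = k + 1 := ⟨m - 1, by omega⟩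
      rw [Nat.add_sub_cancel, Nat.choose_succ_succ' k 1]
      have : ∑ i, sd Dp Dq (x i) * (x i * e2 x i - (((k + 1 : ℕ) : E) - 1) * e1 x i) =
          ∑ i, sd Dp Dq (x i) * (x i * e2 x i - ((k : E) - 1) * e1 x i) -
            ∑ i, sd Dp Dq (x i) * e1 x i := by
        rw [← Finset.sum_sub_distrib]
        refine Finset.sum_congr rfl fun i _ => ?_
        push_cast; ring
      rw [this]
      push_cast
      simp only [Nat.choose_one_right]
      ring
  rw [h3, map_add]
  ring

end

end Pool.Agent.Lib.MP_5bde83_ag.Web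
end

section

namespace Pool.Agent.Lib.MP_5bde83_ag.Web

open Polynomial Finset

set_option linter.unusedSimpArgs false
set_option linter.unusedSectionVars false

noncomputable section

variable {R E : Type*} [CommRing R] [Field E] [Algebra R E] [CharZero E]
variable {Dp Dq : Derivation R E E}

/-- pairwise transversality of the leaves -/
def Transv {ι : Type*} (w : ι → E × E) : Prop := ∀ i j, i ≠ j → wedge (w i) (w j) ≠ 0

theorem six_Ktot {ι : Type*} [Fintype ι] [LinearOrder ι] (w : ι → E × E) (hw : Transv w) :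
    6 * Ktot Dp Dq w = ∑ i, ∑ j, ∑ k, if i ≠ j ∧ j ≠ k ∧ k ≠ i then
      K3 Dp Dq (w i) (w j) (w k) else 0 := by
  set G : ι → ι → ι → E := fun i j k => if i ≠ j ∧ j ≠ k ∧ k ≠ i then
      K3 Dp Dq (w i) (w j) (w k) else 0 with hG
  have hswap : ∀ i j k, G j i k = G i j k := by
    intro i j k
    by_cases h : i ≠ j ∧ j ≠ k ∧ k ≠ i
    · have h' : j ≠ i ∧ i ≠ k ∧ k ≠ j := ⟨h.1.symm, h.2.2.symm, h.2.1.symm⟩
      simp only [hG]
      rw [if_pos h, if_pos h']
      exact K3_swap _ _ _ (hw i j h.1) (hw j k h.2.1) (hw k i h.2.2)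
    · have h' : ¬ (j ≠ i ∧ i ≠ k ∧ k ≠ j) := fun h' =>
        h ⟨h'.1.symm, h'.2.2.symm, h'.2.1.symm⟩
      simp only [hG]
      rw [if_neg h, if_neg h']
  have hrot : ∀ i j k, G j k i = G i j k := by
    intro i j k
    by_cases h : i ≠ j ∧ j ≠ k ∧ k ≠ i
    · have h' : j ≠ k ∧ k ≠ i ∧ i ≠ j := ⟨h.2.1, h.2.2, h.1⟩
      simp only [hG]
      rw [if_pos h, if_pos h']
      exact K3_rot _ _ _ (hw i j h.1) (hw j k h.2.1) (hw k i h.2.2)
    · have h' : ¬ (j ≠ k ∧ k ≠ i ∧ i ≠ j) := fun h' => h ⟨h'.2.2, h'.1, h'.2.1⟩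
      simp only [hG]
      rw [if_neg h, if_neg h']
  have h1 : 3 * Ktot Dp Dq w = ∑ i, ∑ j, ∑ k, if j < k ∧ j ≠ i ∧ k ≠ i then G i j k else 0 := by
    rw [← triple_sum G, Ktot]
    simp_rw [Finset.mul_sum]
    refine Finset.sum_congr rfl fun i _ => Finset.sum_congr rfl fun j _ =>
      Finset.sum_congr rfl fun k _ => ?_
    split_ifs with h
    · rw [hswap i j k, ← hrot k i j]
      have : G i j k = K3 Dp Dq (w i) (w j) (w k) := by
        simp only [hG]; rw [if_pos ⟨h.1.ne, h.2.ne, (h.1.trans h.2).ne'⟩]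
      rw [this]; ring
    · simp
  have h2 : ∀ i, (∑ j, ∑ k, if j < k ∧ j ≠ i ∧ k ≠ i then G i j k else 0) +
      (∑ j, ∑ k, if j < k ∧ j ≠ i ∧ k ≠ i then G i j k else 0) = ∑ j, ∑ k, G i j k := by
    intro i
    rw [pair_sum i (fun j k => G i j k) (fun j k => ((hrot j i k).trans (hswap i j k)).symm)]
    rw [← Finset.add_sum_erase univ (fun j => ∑ k, G i j k) (Finset.mem_univ i)]
    have hz : ∑ k, G i i k = 0 := Finset.sum_eq_zero fun k _ => by simp [hG]
    rw [hz, zero_add]
    refine Finset.sum_congr rfl fun j hj => ?_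
    have hji : j ≠ i := Finset.ne_of_mem_erase hj
    rw [← Finset.add_sum_erase univ (fun k => G i j k) (Finset.mem_univ i)]
    have hz2 : G i j i = 0 := by simp [hG]
    rw [hz2, zero_add, ← Finset.add_sum_erase (univ.erase i) (fun k => G i j k)
      (Finset.mem_erase.2 ⟨hji, Finset.mem_univ j⟩)]
    have hz3 : G i j j = 0 := by simp [hG]
    rw [hz3, zero_add]
  calc 6 * Ktot Dp Dq w = 3 * Ktot Dp Dq w + 3 * Ktot Dp Dq w := by ring
    _ = ∑ i, ∑ j, ∑ k, G i j k := by
      rw [h1, ← Finset.sum_add_distrib]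
      exact Finset.sum_congr rfl fun i _ => h2 i

/-- the total curvature does not depend on the numbering of the leaves -/
theorem Ktot_equiv {ι κ : Type*} [Fintype ι] [LinearOrder ι] [Fintype κ] [LinearOrder κ]
    (e : ι ≃ κ) (w : κ → E × E) (hw : Transv w) :
    Ktot Dp Dq (fun i => w (e i)) = Ktot Dp Dq w := by
  have hw' : Transv (fun i => w (e i)) := fun i j hij => hw _ _ (e.injective.ne hij)
  have h6 : (6 : E) ≠ 0 := by norm_num
  apply mul_left_cancel₀ h6
  rw [six_Ktot _ hw', six_Ktot _ hw]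
  rw [← Equiv.sum_comp e]
  refine Finset.sum_congr rfl fun i _ => ?_
  rw [← Equiv.sum_comp e]
  refine Finset.sum_congr rfl fun j _ => ?_
  rw [← Equiv.sum_comp e]
  refine Finset.sum_congr rfl fun k _ => ?_
  simp only [ne_eq, EmbeddingLike.apply_eq_iff_eq]

/-- invariance of the total curvature: rescaling the forms and changing the coordinates -/
theorem Ktot_change {ι : Type*} [Fintype ι] [LinearOrder ι] {D1 D2 : Derivation R E E} {p q : E}
    (hc : ∀ z, D1 (D2 z) = D2 (D1 z)) (hJ : jac D1 D2 p q ≠ 0) (w v : ι → E × E)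
    (hw : Transv w) (g : ι → E) (hg : ∀ i, g i ≠ 0)
    (hv : ∀ i, v i = g i • pull D1 D2 p q (w i)) :
    Ktot D1 D2 v = jac D1 D2 p q * Ktot (dualP D1 D2 p q) (dualQ D1 D2 p q) w := by
  have hpull : ∀ i j, i ≠ j → wedge (pull D1 D2 p q (w i)) (pull D1 D2 p q (w j)) ≠ 0 := by
    intro i j hij
    rw [wedge_pull]; exact mul_ne_zero hJ (hw i j hij)
  simp only [Ktot, Finset.mul_sum]
  refine Finset.sum_congr rfl fun i _ => Finset.sum_congr rfl fun j _ =>
    Finset.sum_congr rfl fun k _ => ?_
  split_ifs with h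
  · have hij := h.1.ne
    have hjk := h.2.ne
    have hki := (h.1.trans h.2).ne'
    rw [hv i, hv j, hv k, K3_smul hc _ _ _ (hpull i j hij) (hpull j k hjk) (hpull k i hki)
      _ _ _ (hg i) (hg j) (hg k),
      K3_pull hc hJ _ _ _ (hw i j hij) (hw j k hjk) (hw k i hki)]
  · simp

end

end Pool.Agent.Lib.MP_5bde83_ag.Web
end
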