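import Pool.Agent.Lib.MP_5bde83_ag.WrapB
import Pool.Agent.Lib.MP_5bde83_ag.FlatData
import Pool.Agent.Lib.MP_5bde83_ag.DegApi

section

/-!
Flatness of the dual web: assembly.
-/

namespace Pool.Agent.Lib.MP_5bde83_ag

open Polynomial

noncomputable section

variable {E : Type} [Field E] [Algebra ℂ E]

/-- injectivity of the restriction to the generic line -/
theorem wr_onLine_ne {dp dq : Derivation ℂ E E} {p q : E} (hpq : PQ dp dq p q) (N : ℕ) :
    ∀ h : R2, Deg N h → onLine p q h = 0 → h = 0 := by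
  have hdq : ∀ h : R2, (onLine p q h).map (algebraMap E E) = onLine p q h := fun h => by
    rw [Algebra.algebraMap_self, Polynomial.map_id]
  induction N with
  | zero =>
    intro h hh h0
    obtain ⟨c, rfl⟩ := hh.eq_cc'
    rw [onLine_C, map_C, C_eq_zero] at h0
    have : c = 0 := (map_eq_zero (algebraMap ℂ E)).1 h0
    rw [this, C_0, C_0]
  | succ N ih =>
    intro h hh h0
    -- every value vanishes
    have hev : ∀ t : ℂ, evE (algebraMap ℂ E t) (p * algebraMap ℂ E t - q) h = 0 := by
      intro t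
      rw [← onLine_eval, h0, eval_zero]
    have hDy : onLine p q (Dy h) = 0 := by
      apply Polynomial.eq_zero_of_infinite_isRoot
      apply Set.Infinite.mono (s := Set.range (algebraMap ℂ E))
      · rintro _ ⟨t, rfl⟩
        have h1 := congrArg dq (hev t)
        rw [deriv_evE, map_zero] at h1
        simp only [map_sub, Derivation.leibniz, Derivation.map_algebraMap, hpq.qp, hpq.qq,
          smul_zero, mul_zero, zero_add, zero_sub, mul_neg, mul_one, neg_eq_zero] at h1
        show (onLine p q (Dy h)).eval (algebraMap ℂ E t) = 0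
        rw [onLine_eval, h1]
      · exact Set.infinite_range_of_injective (algebraMap ℂ E).injective
    have hDx : onLine p q (Dx h) = 0 := by
      have h1 := onLine_derivative p q h
      rw [h0, hDy, derivative_zero, mul_zero, add_zero] at h1
      exact h1.symm
    have e1 : Dy h = 0 := ih _ (hh.dy'.mono' (by omega)) hDy
    have e2 : Dx h = 0 := ih _ (hh.dx'.mono' (by omega)) hDx
    have e3 : h = C (h.coeff 0) := by
      have : derivative h = 0 := e1
      exact eq_C_of_natDegree_eq_zero (derivative_eq_zero.1 this)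
    have e4 : derivative (h.coeff 0) = 0 := by
      rw [← Dx_coeff, e2, coeff_zero]
    have e5 : h.coeff 0 = C ((h.coeff 0).coeff 0) :=
      eq_C_of_natDegree_eq_zero (derivative_eq_zero.1 e4)
    rw [e5] at e3
    rw [e3, onLine_C, map_C, C_eq_zero] at h0
    have : (h.coeff 0).coeff 0 = 0 := (map_eq_zero (algebraMap ℂ E)).1 h0
    rw [e3, this, C_0, C_0]

/-- the total curvature vanishes in the special chart -/
theorem core_zero {n k : ℕ} {P Q f κI Λ κ : R2} (H : CoreData n k P Q f κI Λ κ)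
    {dp dq : Derivation ℂ E E} {p q : E} (hpq : PQ dp dq p q)
    {ι : Type} [Fintype ι] [LinearOrder ι] (x : ι → E) (hx : Function.Injective x)
    (hcard : Fintype.card ι = n + k) (hW0 : webPoly P Q f p q ≠ 0)
    (hroot : ∀ i, (webPoly P Q f p q).eval (x i) = 0)
    (hsing : ∀ t : E, evE t (p * t - q) P = 0 → evE t (p * t - q) Q = 0 → False) (M : ℕ) :
    - dp (Web.Tsum dp dq x) - dq (Web.Ssum dp dq M x) = 0 := by
  have hchar : CharZero E := charZero_of_injective_algebraMap (algebraMap ℂ E).injective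
  obtain ⟨h1, h2, h3⟩ := flat_core H hpq x hx hcard hW0 hroot hsing
  set W := webPoly P Q f p q with hW
  have hdeg : W.natDegree ≤ Fintype.card ι := by
    rw [hcard, hW, webPoly, add_comm n k]
    refine natDegree_mul_le.trans (add_le_add (wr_onLine_natDegree p q H.degf) ?_)
    rw [tangPoly]
    refine (natDegree_sub_le _ _).trans (max_le (wr_onLine_natDegree p q H.degP) ?_)
    exact (natDegree_C_mul_le _ _).trans (wr_onLine_natDegree p q H.degQ)
  have hprod := Web.eq_prod_of_roots x hx W hW0 hdeg hroot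
  have hc : W.leadingCoeff ≠ 0 := leadingCoeff_ne_zero.2 hW0
  have hv := fun i => Web.deriv_vals x hx W _ hc hprod i
  have e1 : ∀ i, Web.e1 x i = (derivative (derivative W)).eval (x i) /
      (2 * (derivative W).eval (x i)) := fun i => (hv i).2.1
  have e2 : ∀ i, Web.e2 x i = (derivative (derivative (derivative W))).eval (x i) /
      (6 * (derivative W).eval (x i)) := fun i => (hv i).2.2
  have a2 : ∑ i, (dp (x i) + x i * dq (x i)) * ((derivative (derivative W)).eval (x i) /
      (2 * (derivative W).eval (x i))) = ∑ i, Web.sd dp dq (x i) * Web.e1 x i := by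
    refine Finset.sum_congr rfl fun i _ => ?_
    rw [e1, Web.sd]
  have a3 : ∑ i, (dp (x i) + x i * dq (x i)) *
      ((derivative (derivative (derivative W))).eval (x i) /
      (6 * (derivative W).eval (x i))) = Web.Tsum dp dq x := by
    rw [Web.Tsum]
    refine Finset.sum_congr rfl fun i _ => ?_
    rw [e2, Web.sd]
  have a4 : ∑ i, x i * (dp (x i) + x i * dq (x i)) *
      ((derivative (derivative (derivative W))).eval (x i) /
      (6 * (derivative W).eval (x i))) = ∑ i, x i * Web.sd dp dq (x i) * Web.e2 x i := by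
    refine Finset.sum_congr rfl fun i _ => ?_
    rw [e2, Web.sd]
  rw [a2] at h2
  rw [a3, a4] at h3
  have hS : Web.Ssum dp dq M x = (M.choose 2 : E) * ∑ i, dq (x i) +
      ∑ i, x i * Web.sd dp dq (x i) * Web.e2 x i -
        ((M : E) - 1) * ∑ i, Web.sd dp dq (x i) * Web.e1 x i := by
    rw [Web.Ssum, add_sub_assoc, Finset.mul_sum (s := Finset.univ) (a := (M : E) - 1),
      ← Finset.sum_sub_distrib]
    congr 1
    refine Finset.sum_congr rfl fun i _ => ?_
    ring
  have hM1 : dq ((M.choose 2 : ℕ) : E) = 0 := Derivation.map_natCast dq _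
  have hM2 : dq ((M : E) - 1) = 0 := by
    rw [map_sub, Derivation.map_natCast, Derivation.map_one_eq_zero, sub_zero]
  rw [hS, map_sub, map_add, Derivation.leibniz, Derivation.leibniz, h1, h2, hM1, hM2]
  simp only [smul_zero, zero_add, add_zero, sub_zero, smul_eq_mul]
  linear_combination -h3

end

end Pool.Agent.Lib.MP_5bde83_ag
end

section

/-!
Part B (flatness): on a generic line the web polynomial has `n + k` distinct roots.
-/

namespace Pool.Agent.Lib.MP_5bde83_ag

open Polynomial

noncomputable section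

variable {E : Type} [Field E] [Algebra ℂ E]

/-! ### Common zeros of coprime polynomials -/

theorem coprime_aux {K : Type} [Field K] {a b : K[X]} (ha : Irreducible a) (hab : ¬ a ∣ b) :
    IsCoprime a b := (ha.coprime_iff_not_dvd).2 hab

theorem alg_fst {g h : R2} (hg : Irreducible g) (hgh : ¬ g ∣ h) {t y : E}
    (h1 : evE t y g = 0) (h2 : evE t y h = 0) : IsAlgebraic ℂ t := by
  by_contra ht
  have ht' : Transcendental ℂ t := ht
  have hinj : Function.Injective (aeval t : ℂ[X] →ₐ[ℂ] E) := transcendental_iff_injective.1 ht'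
  let K := FractionRing ℂ[X]
  let φ : K →+* E := IsFractionRing.lift (A := ℂ[X]) (K := K) (g := (aeval t : ℂ[X] →ₐ[ℂ] E).toRingHom)
    hinj
  have hφ : ∀ a : ℂ[X], φ (algebraMap ℂ[X] K a) = aeval t a := fun a =>
    IsFractionRing.lift_algebraMap hinj a
  have hev : ∀ f : R2, evE t y f = (f.map (algebraMap ℂ[X] K)).eval₂ φ y := by
    intro f
    rw [eval₂_map]
    have : φ.comp (algebraMap ℂ[X] K) = eval₂RingHom (algebraMap ℂ E) t := by
      apply Polynomial.ringHom_ext'
      · ext c
        simp [hφ]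
      · simp [hφ]
    rw [this]
    rfl
  have hdeg : g.natDegree ≠ 0 := by
    intro h0
    obtain ⟨a, rfl⟩ := natDegree_eq_zero.1 h0
    rw [evE_C] at h1
    have ha : a = 0 := hinj (by rw [h1, map_zero])
    rw [ha, C_0] at hg
    exact hg.ne_zero rfl
  have hprim := hg.isPrimitive hdeg
  have hirr : Irreducible (g.map (algebraMap ℂ[X] K)) :=
    (hprim.irreducible_iff_irreducible_map_fraction_map).1 hg
  have hnd : ¬ (g.map (algebraMap ℂ[X] K)) ∣ (h.map (algebraMap ℂ[X] K)) := fun hd =>
    hgh (hprim.dvd_of_fraction_map_dvd_fraction_map hd)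
  have hcop : IsCoprime (g.map (algebraMap ℂ[X] K)) (h.map (algebraMap ℂ[X] K)) :=
    coprime_aux hirr hnd
  obtain ⟨u, v, huv⟩ := hcop
  have := congrArg (eval₂ φ y) huv
  rw [eval₂_add, eval₂_mul, eval₂_mul, ← hev, ← hev, h1, h2, eval₂_one] at this
  simp at this

/-- both coordinates -/
theorem alg_both {g h : R2} (hg : Irreducible g) (hgh : ¬ g ∣ h) {t y : E}
    (h1 : evE t y g = 0) (h2 : evE t y h = 0) : IsAlgebraic ℂ t ∧ IsAlgebraic ℂ y := by
  have ht := alg_fst hg hgh h1 h2
  refine ⟨ht, ?_⟩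
  have h3 : t ∈ (algebraMap ℂ E).range := by
    apply minpoly.mem_range_of_degree_eq_one
    exact IsAlgClosed.degree_eq_one_of_irreducible ℂ (minpoly.irreducible ht.isIntegral)
  obtain ⟨x0, hx0⟩ := h3
  rw [← hx0, evE_const] at h1 h2
  have hdiv : ∀ f : R2, f.map (evalRingHom x0) = 0 → C (X - C x0) ∣ f := by
    intro f hf
    rw [C_dvd_iff_dvd_coeff]
    intro i
    have := congrArg (fun f : ℂ[X] => f.coeff i) hf
    simp only [coeff_map, coeff_zero, coe_evalRingHom] at this
    exact dvd_iff_isRoot.2 this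
  by_cases hg0 : g.map (evalRingHom x0) = 0
  · by_cases hh0 : h.map (evalRingHom x0) = 0
    · exfalso
      have hirr : Irreducible (C (X - C x0) : R2) :=
        (prime_C_iff.2 (prime_X_sub_C x0)).irreducible
      have hass := hirr.associated_of_dvd hg (hdiv g hg0)
      exact hgh (hass.symm.dvd.trans (hdiv h hh0))
    · exact ⟨_, hh0, h2⟩
  · exact ⟨_, hg0, h1⟩

/-- generic lines contain no point with algebraic coordinates -/
theorem PQ.not_alg {dp dq : Derivation ℂ E E} {p q : E} (hpq : PQ dp dq p q) (t : E)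
    (ha : IsAlgebraic ℂ t) (hb : IsAlgebraic ℂ (p * t - q)) : False := by
  have e1' := (PQ.deriv_const (dp := dp) (dq := dq) t ha).2
  have e2' := (PQ.deriv_const (dp := dp) (dq := dq) _ hb).2
  rw [map_sub, Derivation.leibniz, e1', hpq.qp, hpq.qq] at e2'
  simp at e2'

theorem const_of_grad {g : R2} (hx : Dx g = 0) (hy : Dy g = 0) : ∃ c : ℂ, g = C (C c) := by
  have h1 : g.natDegree = 0 := by
    have : derivative g = 0 := hy
    exact derivative_eq_zero.1 this
  obtain ⟨a, rfl⟩ := natDegree_eq_zero.1 h1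
  rw [Dx_C] at hx
  have h2 : derivative a = 0 := C_injective (by rw [hx, C_0])
  obtain ⟨c, rfl⟩ := natDegree_eq_zero.1 (derivative_eq_zero.1 h2)
  exact ⟨c, rfl⟩

/-- an irreducible factor through a given zero -/
theorem exists_factor_zero {f : R2} (hf : f ≠ 0) {t y : E} (h : evE t y f = 0) :
    ∃ g, Irreducible g ∧ g ∣ f ∧ evE t y g = 0 := by
  induction f using WfDvdMonoid.induction_on_irreducible with
  | zero => exact absurd rfl hf
  | unit u hu =>
    exfalso
    have := hu.map (evE t y)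
    rw [h] at this
    exact not_isUnit_zero this
  | mul a i ha hi ih =>
    rw [map_mul] at h
    rcases mul_eq_zero.1 h with h1 | h1
    · exact ⟨i, hi, Dvd.intro _ rfl, h1⟩
    · obtain ⟨g, hg1, hg2, hg3⟩ := ih ha h1
      exact ⟨g, hg1, hg2.mul_left _, hg3⟩

/-- a generic line contains no singular point of a reduced curve -/
theorem sqfree_no_sing {f : R2} (hf : f ≠ 0) (hsq : Squarefree f)
    {dp dq : Derivation ℂ E E} {p q : E} (hpq : PQ dp dq p q) (t : E)
    (h0 : evE t (p * t - q) f = 0) (hx : evE t (p * t - q) (Dx f) = 0)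
    (hy : evE t (p * t - q) (Dy f) = 0) : False := by
  obtain ⟨g, hg, ⟨h, rfl⟩, hg0⟩ := exists_factor_zero hf h0
  have hgh : ¬ g ∣ h := by
    rintro ⟨h', rfl⟩
    have := hsq g ⟨h', by ring⟩
    exact hg.not_isUnit this
  by_cases hh : evE t (p * t - q) h = 0
  · obtain ⟨ha, hb⟩ := alg_both hg hgh hg0 hh
    exact hpq.not_alg t ha hb
  · rw [Dx_mul, map_add, map_mul, map_mul, hg0, zero_mul, add_zero] at hx
    rw [Dy_mul, map_add, map_mul, map_mul, hg0, zero_mul, add_zero] at hy
    have hx' := (mul_eq_zero.1 hx).resolve_right hh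
    have hy' := (mul_eq_zero.1 hy).resolve_right hh
    have hd : (phi 1 1 g).natDegree ≠ 0 := fun h0 => hg.not_isUnit (isUnit_of_phi hg.ne_zero h0)
    have hdg : Deg (phi 1 1 g).natDegree g := Deg_iff.2 le_rfl
    have key : ∀ g' : R2, Deg ((phi 1 1 g).natDegree - 1) g' → g' ≠ 0 → ¬ g ∣ g' := by
      rintro g' hd' hne ⟨u, rfl⟩
      have hu : u ≠ 0 := right_ne_zero_of_mul hne
      rw [Deg_iff, map_mul, natDegree_mul (phi_ne_zero hg.ne_zero) (phi_ne_zero hu)] at hd'
      omega
    by_cases hx0 : Dx g = 0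
    · have hy0 : Dy g ≠ 0 := by
        intro hy0
        obtain ⟨c, rfl⟩ := const_of_grad hx0 hy0
        rw [phi_CC] at hd
        exact hd (natDegree_C _)
      obtain ⟨ha, hb⟩ := alg_both hg (key _ hdg.dy' hy0) hg0 hy'
      exact hpq.not_alg t ha hb
    · obtain ⟨ha, hb⟩ := alg_both hg (key _ hdg.dx' hx0) hg0 hx'
      exact hpq.not_alg t ha hb

/-! ### Homogenization -/

theorem eval_scale {k : ℕ} {F : MvPolynomial (Fin 3) ℂ} (hF : F.IsHomogeneous k) (γ : ℂ)
    (v : Fin 3 → ℂ) : MvPolynomial.eval (fun j => γ * v j) F = γ ^ k * MvPolynomial.eval v F := by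
  rw [MvPolynomial.eval_eq', MvPolynomial.eval_eq', Finset.mul_sum]
  refine Finset.sum_congr rfl fun d hd => ?_
  have hdeg : d 0 + d 1 + d 2 = k := by
    have h1 := hF (MvPolynomial.mem_support_iff.1 hd)
    rw [Finsupp.weight_apply, Finsupp.sum_fintype _ _ (by simp), Fin.sum_univ_three] at h1
    simpa using h1
  rw [Fin.prod_univ_three, Fin.prod_univ_three, mul_pow, mul_pow, mul_pow, ← hdeg,
    pow_add, pow_add]
  ring

theorem aeval_pt_eval (e1 e2 s : Fin 3 → ℂ) (F : MvPolynomial (Fin 3) ℂ) (x y : ℂ) :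
    ((MvPolynomial.aeval (pt e1 e2 s) F : R2).eval (C y)).eval x =
      MvPolynomial.eval (x • e1 + y • e2 + s) F := by
  let σ : R2 →+* ℂ := (evalRingHom x).comp (evalRingHom (C y))
  have hσ : ∀ f : R2, (f.eval (C y)).eval x = σ f := fun f => rfl
  have hC : ∀ c : ℂ, σ (C (C c)) = c := by
    intro c
    simp [σ]
  rw [hσ, evAux_hom σ (fun c => hC c), ← MvPolynomial.coe_aeval_eq_eval]
  have : (fun j => σ (pt e1 e2 s j)) = x • e1 + y • e2 + s := by
    funext j
    simp [σ, pt]
    ring
  rw [this]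
  rfl

/-- the cross product -/
def crs (u v : Fin 3 → ℂ) : Fin 3 → ℂ :=
  ![u 1 * v 2 - u 2 * v 1, u 2 * v 0 - u 0 * v 2, u 0 * v 1 - u 1 * v 0]

theorem dot_crs (u v w : Fin 3 → ℂ) : dot (crs u v) w = tri u v w := by
  simp only [dot, tri, crs, Fin.sum_univ_three, Matrix.cons_val_zero, Matrix.cons_val_one,
    Matrix.cons_val]
  ring

theorem tri_self1 (u v : Fin 3 → ℂ) : tri u v u = 0 := by simp only [tri]; ring
theorem tri_self2 (u v : Fin 3 → ℂ) : tri u v v = 0 := by simp only [tri]; ring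
theorem tri_rot (u v w : Fin 3 → ℂ) : tri v w u = tri u v w := by simp only [tri]; ring

theorem aeval_pt_inj {k : ℕ} (e1 e2 s : Fin 3 → ℂ) (ht : tri e1 e2 s ≠ 0)
    {F : MvPolynomial (Fin 3) ℂ} (hF : F.IsHomogeneous k)
    (h0 : (MvPolynomial.aeval (pt e1 e2 s) F : R2) = 0) : F = 0 := by
  have hl : crs e1 e2 ≠ 0 := by
    intro h
    apply ht
    rw [← dot_crs, h]
    simp [dot]
  have h1 : lf (crs e1 e2) * F = 0 := by
    apply MvPolynomial.funext
    intro p
    rw [map_mul, map_zero, eval_lform]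
    obtain ⟨α, β, γ, rfl⟩ := tri_decomp e1 e2 s p ht
    rw [dot_add_smul, dot_crs, dot_crs, dot_crs, tri_self1, tri_self2]
    by_cases hγ : γ = 0
    · rw [hγ]; ring
    · have h8 : (α • e1 + β • e2 + γ • s) = fun j => γ * ((α / γ) • e1 + (β / γ) • e2 + s) j := by
        funext j
        simp only [Pi.add_apply, Pi.smul_apply, smul_eq_mul]
        field_simp
      rw [h8, eval_scale hF, ← aeval_pt_eval, h0]
      simp
  exact (mul_eq_zero.1 h1).resolve_left (lform_ne_zero _ hl)

/-- homogenization of degree `N` with respect to the frame -/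
def Hm (e1 e2 s : Fin 3 → ℂ) (N : ℕ) (g : R2) : MvPolynomial (Fin 3) ℂ :=
  ∑ j ∈ Finset.range (N + 1), ∑ i ∈ Finset.range (N + 1 - j),
    MvPolynomial.C ((g.coeff j).coeff i) *
      (lf (crs e2 s) ^ i * lf (crs s e1) ^ j * lf (crs e1 e2) ^ (N - i - j))

theorem Hm_hom (e1 e2 s : Fin 3 → ℂ) (N : ℕ) (g : R2) : (Hm e1 e2 s N g).IsHomogeneous N := by
  refine MvPolynomial.IsHomogeneous.sum _ _ _ fun j hj => ?_
  refine MvPolynomial.IsHomogeneous.sum _ _ _ fun i hi => ?_
  have hj' := Finset.mem_range.1 hj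
  have hi' := Finset.mem_range.1 hi
  have h1 := ((((lform_hom (crs e2 s)).pow i).mul ((lform_hom (crs s e1)).pow j)).mul
    ((lform_hom (crs e1 e2)).pow (N - i - j)))
  have h2 := (MvPolynomial.isHomogeneous_C (Fin 3) ((g.coeff j).coeff i)).mul h1
  have h3 : 0 + (1 * i + 1 * j + 1 * (N - i - j)) = N := by omega
  rw [h3] at h2
  exact h2

theorem R2_eq_sum {N : ℕ} {g : R2} (hg : Deg N g) :
    g = ∑ j ∈ Finset.range (N + 1), ∑ i ∈ Finset.range (N + 1 - j),
      C (C ((g.coeff j).coeff i)) * (C X) ^ i * X ^ j := by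
  have h1 : g.natDegree < N + 1 := by
    have : g.natDegree ≤ N := by
      rw [natDegree_le_iff_coeff_eq_zero]
      intro j hj
      ext i
      by_contra hne
      have := hg i j (by simpa using hne)
      omega
    omega
  conv_lhs => rw [g.as_sum_range_C_mul_X_pow' h1]
  refine Finset.sum_congr rfl fun j hj => ?_
  have hj' := Finset.mem_range.1 hj
  have h2 : (g.coeff j).natDegree < N + 1 - j := by
    by_cases hz : g.coeff j = 0
    · rw [hz, natDegree_zero]; omega
    have : (g.coeff j).natDegree ≤ N - j := by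
      rw [natDegree_le_iff_coeff_eq_zero]
      intro i hi
      by_contra hne
      have := hg i j hne
      omega
    omega
  conv_lhs => rw [(g.coeff j).as_sum_range_C_mul_X_pow' h2]
  rw [map_sum, Finset.sum_mul]
  refine Finset.sum_congr rfl fun i _ => ?_
  rw [C_mul, C_pow]

theorem aeval_Hm (e1 e2 s : Fin 3 → ℂ) {N : ℕ} {g : R2} (hg : Deg N g) :
    (MvPolynomial.aeval (pt e1 e2 s) (Hm e1 e2 s N g) : R2) = C (C (tri e1 e2 s ^ N)) * g := by
  have a1 : (MvPolynomial.aeval (pt e1 e2 s) (lf (crs e2 s)) : R2) = C (C (tri e1 e2 s)) * C X := by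
    rw [aeval_lf]
    simp only [Lin, lc, dot_crs, tri_self1, tri_self2, Matrix.cons_val_zero, Matrix.cons_val_one,
      Matrix.cons_val, map_zero, zero_mul, add_zero]
    rw [tri_rot]
  have a2 : (MvPolynomial.aeval (pt e1 e2 s) (lf (crs s e1)) : R2) = C (C (tri e1 e2 s)) * X := by
    rw [aeval_lf]
    simp only [Lin, lc, dot_crs, tri_self1, tri_self2, Matrix.cons_val_zero, Matrix.cons_val_one,
      Matrix.cons_val, map_zero, zero_mul, add_zero, zero_add]
    rw [tri_rot, tri_rot]
  have a3 : (MvPolynomial.aeval (pt e1 e2 s) (lf (crs e1 e2)) : R2) = C (C (tri e1 e2 s)) := by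
    rw [aeval_lf]
    simp only [Lin, lc, dot_crs, tri_self1, tri_self2, Matrix.cons_val_zero, Matrix.cons_val_one,
      Matrix.cons_val, map_zero, zero_mul, add_zero, zero_add]
  conv_rhs => rw [R2_eq_sum hg]
  rw [Hm, map_sum, Finset.mul_sum]
  refine Finset.sum_congr rfl fun j hj => ?_
  rw [map_sum, Finset.mul_sum]
  refine Finset.sum_congr rfl fun i hi => ?_
  have hj' := Finset.mem_range.1 hj
  have hi' := Finset.mem_range.1 hi
  rw [map_mul, map_mul, map_mul, map_pow, map_pow, map_pow, a1, a2, a3, MvPolynomial.aeval_C]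
  have h3 : tri e1 e2 s ^ N = tri e1 e2 s ^ i * tri e1 e2 s ^ j * tri e1 e2 s ^ (N - i - j) := by
    rw [← pow_add, ← pow_add]
    congr 1; omega
  have h4 : (algebraMap ℂ R2) ((g.coeff j).coeff i) = C (C ((g.coeff j).coeff i)) := rfl
  rw [h3, h4]
  simp only [map_mul, map_pow]
  ring

/-- the affine equation of a reduced curve is squarefree -/
theorem sqfree_aeval {k : ℕ} (e1 e2 s : Fin 3 → ℂ) (ht : tri e1 e2 s ≠ 0)
    {F : MvPolynomial (Fin 3) ℂ} (hF : F.IsHomogeneous k) (hsq : Squarefree F) :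
    Squarefree (MvPolynomial.aeval (pt e1 e2 s) F : R2) := by
  rintro g ⟨q, hq⟩
  have hF0 : F ≠ 0 := hsq.ne_zero
  have hf0 : (MvPolynomial.aeval (pt e1 e2 s) F : R2) ≠ 0 := fun h => hF0 (aeval_pt_inj e1 e2 s ht hF h)
  have hg0 : g ≠ 0 := by
    rintro rfl
    exact hf0 (by rw [hq]; ring)
  have hq0 : q ≠ 0 := by
    rintro rfl
    exact hf0 (by rw [hq]; ring)
  set N := (phi 1 1 g).natDegree with hN
  set M := (phi 1 1 q).natDegree with hM
  have hdeg : N + N + M ≤ k := by
    have h1 := Deg_iff.1 (Deg.hom' e1 e2 s hF)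
    rw [hq, map_mul, map_mul, natDegree_mul (mul_ne_zero (phi_ne_zero hg0) (phi_ne_zero hg0))
      (phi_ne_zero hq0), natDegree_mul (phi_ne_zero hg0) (phi_ne_zero hg0)] at h1
    exact h1
  have hgN : Deg N g := Deg_iff.2 le_rfl
  have hqM : Deg M q := Deg_iff.2 le_rfl
  set G := Hm e1 e2 s N g with hG
  set Q := Hm e1 e2 s M q with hQ
  have hT : IsUnit (MvPolynomial.C (tri e1 e2 s ^ k) : MvPolynomial (Fin 3) ℂ) :=
    (IsUnit.mk0 _ (pow_ne_zero k ht)).map MvPolynomial.C
  have key : MvPolynomial.C (tri e1 e2 s ^ k) * F =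
      G * G * (Q * lf (crs e1 e2) ^ (k - (N + N + M))) := by
    rw [← sub_eq_zero]
    apply aeval_pt_inj (k := k) e1 e2 s ht
    · refine MvPolynomial.IsHomogeneous.sub ?_ ?_
      · have := (MvPolynomial.isHomogeneous_C (Fin 3) (tri e1 e2 s ^ k)).mul hF
        rwa [zero_add] at this
      · have := (((Hm_hom e1 e2 s N g).mul (Hm_hom e1 e2 s N g)).mul
          ((Hm_hom e1 e2 s M q).mul ((lform_hom (crs e1 e2)).pow (k - (N + N + M)))))
        have h3 : N + N + (M + 1 * (k - (N + N + M))) = k := by omega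
        rw [h3] at this
        exact this
    · have a3 : (MvPolynomial.aeval (pt e1 e2 s) (lf (crs e1 e2)) : R2) =
          C (C (tri e1 e2 s)) := by
        rw [aeval_lf]
        simp only [Lin, lc, dot_crs, tri_self1, tri_self2, Matrix.cons_val_zero,
          Matrix.cons_val_one, Matrix.cons_val, map_zero, zero_mul, add_zero, zero_add]
      rw [map_sub, map_mul, map_mul, map_mul, map_mul,
        map_pow (MvPolynomial.aeval (pt e1 e2 s)) (lf (crs e1 e2)), hG, hQ, aeval_Hm e1 e2 s hgN,
        aeval_Hm e1 e2 s hqM, a3, MvPolynomial.aeval_C, hq]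
      have h4 : (algebraMap ℂ R2) (tri e1 e2 s ^ k) = C (C (tri e1 e2 s ^ k)) := rfl
      have h5 : tri e1 e2 s ^ k = tri e1 e2 s ^ N * tri e1 e2 s ^ N * tri e1 e2 s ^ M *
          tri e1 e2 s ^ (k - (N + N + M)) := by
        rw [← pow_add, ← pow_add, ← pow_add]
        congr 1; omega
      rw [h4, h5]
      simp only [map_mul, map_pow]
      ring
  have hGu : IsUnit G := by
    apply hsq
    have : G * G ∣ MvPolynomial.C (tri e1 e2 s ^ k) * F := by rw [key]; exact Dvd.intro _ rfl
    exact (hT.dvd_mul_left).1 this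
  have h6 := hGu.map (MvPolynomial.aeval (pt e1 e2 s) : MvPolynomial (Fin 3) ℂ →ₐ[ℂ] R2)
  rw [hG, aeval_Hm e1 e2 s hgN] at h6
  exact isUnit_of_mul_isUnit_right h6

end

end Pool.Agent.Lib.MP_5bde83_ag
end
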