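import Pool.Agent.Lib.MP_5bde83_ag.Biv
import Pool.Agent.Lib.MP_5bde83_ag.Mg.G006
import Pool.Agent.Lib.MP_5bde83_ag.Mg.G005

section

namespace Pool.Agent.Lib.MP_5bde83_ag

open Polynomial

/-- univariate part of the Newton polygon argument -/
theorem newton_uni (a b : Polynomial ℂ) (γ i0 e : ℕ) (c : ℂ) (hc : c ≠ 0)
    (h : b * (derivative a * b - a * derivative b) = C c * X ^ e)
    (hb : b.natDegree = γ) (ha : a.natDegree = i0) (hi : γ < i0) (haγ : a.coeff γ = 0) :
    (∀ i < γ, b.coeff i = 0) ∧ (∀ i < i0, a.coeff i = 0) := by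
  have hCc : (C c * X ^ e : Polynomial ℂ) ≠ 0 :=
    mul_ne_zero (by simpa using hc) (pow_ne_zero _ X_ne_zero)
  have hbdvd : b ∣ X ^ e := by
    have h1 : b ∣ C c * X ^ e := ⟨_, h.symm⟩
    have hu : IsUnit (C c : Polynomial ℂ) := by
      rw [isUnit_C]; exact isUnit_iff_ne_zero.mpr hc
    exact (hu.dvd_mul_left).mp h1
  obtain ⟨k, hk, hk2⟩ := (dvd_prime_pow prime_X e).mp hbdvd
  obtain ⟨u, hu⟩ := hk2.symm
  obtain ⟨β, hβ, hβ2⟩ := Polynomial.isUnit_iff.mp u.isUnit
  have hβ0 : β ≠ 0 := hβ.ne_zero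
  have hbeq : b = C β * X ^ k := by
    rw [← hu, ← hβ2]; ring
  have hkγ : k = γ := by
    rw [← hb, hbeq, natDegree_C_mul_X_pow k β hβ0]
  subst hkγ
  have hbcoef : ∀ i < k, b.coeff i = 0 := by
    intro i hik
    rw [hbeq, coeff_C_mul_X_pow, if_neg (by omega)]
  refine ⟨hbcoef, ?_⟩
  have hXb : X * derivative b = C (k : ℂ) * b := by
    rw [hbeq, derivative_mul, derivative_C, derivative_X_pow]
    rcases Nat.eq_zero_or_pos k with h0 | h0
    · subst h0; simp
    · obtain ⟨k', rfl⟩ : ∃ k', k = k' + 1 := ⟨k - 1, by omega⟩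
      simp only [Nat.add_sub_cancel, pow_succ]
      ring
  have hmain : C (β ^ 2) * (X ^ (2 * k) * (X * derivative a - C (k : ℂ) * a)) =
      C c * X ^ (e + 1) := by
    have h1 : X * (b * (derivative a * b - a * derivative b)) = X * (C c * X ^ e) := by rw [h]
    have h2 : X * (b * (derivative a * b - a * derivative b)) =
        b ^ 2 * (X * derivative a) - b * a * (X * derivative b) := by ring
    rw [h2, hXb] at h1
    have h3 : b ^ 2 * (X * derivative a) - b * a * (C (k : ℂ) * b) =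
        b ^ 2 * (X * derivative a - C (k : ℂ) * a) := by ring
    rw [h3] at h1
    have h4 : b ^ 2 = C (β ^ 2) * X ^ (2 * k) := by
      rw [hbeq, C_pow]; ring
    rw [h4] at h1
    calc C (β ^ 2) * (X ^ (2 * k) * (X * derivative a - C (k : ℂ) * a))
        = C (β ^ 2) * X ^ (2 * k) * (X * derivative a - C (k : ℂ) * a) := by ring
      _ = X * (C c * X ^ e) := h1
      _ = C c * X ^ (e + 1) := by ring
  have hcoef : ∀ i : ℕ,
      β ^ 2 * (((i : ℂ) - k) * a.coeff i) = if i + 2 * k = e + 1 then c else 0 := by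
    intro i
    have h1 := congrArg (fun p => coeff p (i + 2 * k)) hmain
    simp only [coeff_C_mul_X_pow] at h1
    rw [coeff_C_mul, mul_comm (X ^ (2 * k)), coeff_mul_X_pow, coeff_sub, coeff_C_mul] at h1
    have h2 : (X * derivative a).coeff i = (i : ℂ) * a.coeff i := by
      rcases i with _ | i
      · simp
      · rw [coeff_X_mul, coeff_derivative]; push_cast; ring
    rw [h2] at h1
    rw [← h1]
    ring
  have ha0 : a.coeff i0 ≠ 0 := by
    rw [← ha]
    apply leadingCoeff_ne_zero.mpr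
    intro h0
    rw [h0, natDegree_zero] at ha
    omega
  have hik0 : ((i0 : ℂ) - k) ≠ 0 := by
    rw [sub_ne_zero]
    exact_mod_cast (by omega : i0 ≠ k)
  have he : i0 + 2 * k = e + 1 := by
    by_contra hne
    have := hcoef i0
    rw [if_neg hne] at this
    exact (mul_ne_zero (pow_ne_zero 2 hβ0) (mul_ne_zero hik0 ha0)) this
  intro i hii
  have h1 := hcoef i
  rw [if_neg (by omega)] at h1
  rcases eq_or_ne i k with h2 | h2
  · rw [h2]; exact haγ
  · have h3 : ((i : ℂ) - k) ≠ 0 := by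
      rw [sub_ne_zero]
      exact_mod_cast h2
    have h4 := (mul_eq_zero.mp h1).resolve_left (pow_ne_zero 2 hβ0)
    exact (mul_eq_zero.mp h4).resolve_left h3

/-- the support is finite -/
theorem supp_finite (f : R2) : {q : ℕ × ℕ | (f.coeff q.2).coeff q.1 ≠ 0}.Finite := by
  have h : {q : ℕ × ℕ | (f.coeff q.2).coeff q.1 ≠ 0} ⊆
      ⋃ j ∈ f.support, ((f.coeff j).support.image (fun i => (i, j)) : Set (ℕ × ℕ)) := by
    rintro ⟨i, j⟩ hq
    simp only [Set.mem_ofPred_eq] at hq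
    simp only [Set.mem_iUnion, Finset.coe_image, Set.mem_image, Finset.mem_coe, mem_support_iff]
    refine ⟨j, ?_, i, hq, rfl⟩
    intro h0
    rw [h0, coeff_zero] at hq
    exact hq rfl
  refine Set.Finite.subset ?_ h
  exact Set.Finite.biUnion f.support.finite_toSet (fun j _ => Finset.finite_toSet _)

/-- minimal slope -/
theorem exists_min_slope (S : Set (ℕ × ℕ)) (hfin : S.Finite) (hne : S.Nonempty)
    (hpos : ∀ p ∈ S, 0 < p.2) :
    ∃ p ∈ S, ∀ q ∈ S, p.1 * q.2 ≤ p.2 * q.1 := by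
  obtain ⟨p, hp, hmin⟩ := Set.exists_min_image S (fun p => (p.1 : ℚ) / (p.2 : ℚ)) hfin hne
  refine ⟨p, hp, fun q hq => ?_⟩
  have h1 := hmin q hq
  have hp2 : (0 : ℚ) < p.2 := by exact_mod_cast hpos p hp
  have hq2 : (0 : ℚ) < q.2 := by exact_mod_cast hpos q hq
  rw [div_le_div_iff₀ hp2 hq2] at h1
  have h2 : p.1 * q.2 ≤ q.1 * p.2 := by exact_mod_cast h1
  calc p.1 * q.2 ≤ q.1 * p.2 := h2
    _ = p.2 * q.1 := Nat.mul_comm _ _

/-- the Newton polygon argument: contradiction when the order of `x` in the lowest form of `A'`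
is larger than in the lowest form of `B` -/
theorem newton (ν E e γ a' i0 K k0 : ℕ) (m A' B : R2) (hν : 1 ≤ ν) (hγ : 1 ≤ γ)
    (hB : Ord 1 1 ν B) (hBγ : (wc 1 1 ν B).coeff γ ≠ 0)
    (hBγ' : ∀ i < γ, (wc 1 1 ν B).coeff i = 0)
    (hA' : Ord 1 1 a' A') (ha' : ν + 1 ≤ a') (hAi : (wc 1 1 a' A').coeff i0 ≠ 0)
    (hAi' : ∀ i < i0, (wc 1 1 a' A').coeff i = 0) (hi0 : γ < i0)
    (hm : X ∣ m) (hkap : (C X) ^ K ∣ kap m)
    (hk0 : (A'.coeff k0).coeff 0 ≠ 0) (hk0K : k0 ≤ K)
    (hcoef : ∀ j ≤ K, (A'.coeff j).coeff γ = 0)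
    (he : e + 1 = 2 * γ + i0) (hE : E + 1 = 2 * ν + a') (hEK : E < K)
    (hW : ∀ N D, 0 < D → D < N → Ord N D (N * e + D * (E - e)) (Infl (A' - m * B) B) ∧
      ∃ c : ℂ, c ≠ 0 ∧ wc N D (N * e + D * (E - e)) (Infl (A' - m * B) B) = C c * X ^ e) :
    False := by
  -- membership facts in standard weights
  obtain ⟨jB, hjB, hjB2⟩ := wc_coeff_ne ν γ B hBγ
  rw [wc_coeff_eq one_pos] at hjB2
  have hγν : γ ≤ ν := by omega
  have hjB' : jB = ν - γ := by omega
  have hBγ1 : (B.coeff (ν - γ)).coeff γ ≠ 0 := by rw [← hjB', ← hjB2]; exact hBγ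
  obtain ⟨jA, hjA, hjA2⟩ := wc_coeff_ne a' i0 A' hAi
  rw [wc_coeff_eq one_pos] at hjA2
  have hi0a : i0 ≤ a' := by omega
  have hjA' : jA = a' - i0 := by omega
  have hAi1 : (A'.coeff (a' - i0)).coeff i0 ≠ 0 := by rw [← hjA', ← hjA2]; exact hAi
  have hB1 : ∀ i j, (B.coeff j).coeff i ≠ 0 → ν ≤ i + j := by
    intro i j h; have := hB i j h; omega
  have hB2 : ∀ i j, (B.coeff j).coeff i ≠ 0 → i < γ → ν < i + j := by
    intro i j h hi
    rcases Nat.lt_or_ge ν (i + j) with h1 | h1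
    · exact h1
    · exfalso
      have h2 := hB1 i j h
      have h3 : ν = 1 * i + 1 * j := by omega
      apply h
      rw [← wc_coeff_eq (N := 1) one_pos i j B, ← h3]
      exact hBγ' i hi
  have hA1 : ∀ i j, (A'.coeff j).coeff i ≠ 0 → a' ≤ i + j := by
    intro i j h; have := hA' i j h; omega
  have hA2 : ∀ i j, (A'.coeff j).coeff i ≠ 0 → i < i0 → a' < i + j := by
    intro i j h hi
    rcases Nat.lt_or_ge a' (i + j) with h1 | h1
    · exact h1
    · exfalso
      have h2 := hA1 i j h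
      have h3 : a' = 1 * i + 1 * j := by omega
      apply h
      rw [← wc_coeff_eq (N := 1) one_pos i j A', ← h3]
      exact hAi' i hi
  have hA3 : ∀ j, (A'.coeff j).coeff γ ≠ 0 → K < j := by
    intro j h
    by_contra h1
    exact h (hcoef j (by omega))
  -- the set of slopes
  set S : Set (ℕ × ℕ) :=
    {p | ∃ i j, (B.coeff j).coeff i ≠ 0 ∧ i < γ ∧ p = (j - (ν - γ), γ - i)} ∪
    {p | ∃ i j, (A'.coeff j).coeff i ≠ 0 ∧ i < i0 ∧ i ≠ γ ∧ p = (j - (a' - i0), i0 - i)} with hS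
  have hSfin : S.Finite := by
    apply Set.Finite.union
    · refine Set.Finite.subset ((supp_finite B).image
        (fun q => (q.2 - (ν - γ), γ - q.1))) ?_
      rintro p ⟨i, j, h1, h2, rfl⟩
      exact ⟨(i, j), h1, rfl⟩
    · refine Set.Finite.subset ((supp_finite A').image
        (fun q => (q.2 - (a' - i0), i0 - q.1))) ?_
      rintro p ⟨i, j, h1, h2, h3, rfl⟩
      exact ⟨(i, j), h1, rfl⟩
  have hk0S : (k0 - (a' - i0), i0) ∈ S := by
    right
    exact ⟨0, k0, hk0, by omega, by omega, by simp⟩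
  have hSpos : ∀ p ∈ S, 0 < p.2 ∧ p.2 < p.1 := by
    rintro p (⟨i, j, h1, h2, rfl⟩ | ⟨i, j, h1, h2, h3, rfl⟩)
    · have := hB2 i j h1 h2
      simp only
      omega
    · have := hA2 i j h1 h2
      simp only
      omega
  obtain ⟨p, hpS, hpmin⟩ := exists_min_slope S hSfin ⟨_, hk0S⟩ (fun p hp => (hSpos p hp).1)
  obtain ⟨N, D⟩ := p
  obtain ⟨hD, hDN⟩ := hSpos _ hpS
  simp only at hD hDN hpmin
  set β := N * γ + D * (ν - γ) with hβ
  set α := N * i0 + D * (a' - i0) with hα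
  have hk0min : N * i0 ≤ D * (k0 - (a' - i0)) := hpmin _ hk0S
  have hk0a : a' < k0 := by
    have := hA2 0 k0 hk0 (by omega)
    omega
  have hαk0 : α ≤ D * k0 := by
    rw [hα]
    have : D * k0 = D * (k0 - (a' - i0)) + D * (a' - i0) := by
      rw [← Nat.mul_add]; congr 1; omega
    omega
  have hαK : α ≤ D * K := hαk0.trans (Nat.mul_le_mul_left D hk0K)
  have hslope : ∀ i j s t : ℕ, s ≤ i → t ≤ i + j → N * s + D * (t - s) ≤ N * i + D * j := by
    intro i j s t hs ht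
    rcases Nat.lt_or_ge t s with h | h
    · have h0 : t - s = 0 := by omega
      rw [h0, Nat.mul_zero]
      have := Nat.mul_le_mul_left N hs
      omega
    · obtain ⟨u, rfl⟩ : ∃ u, i = s + u := ⟨i - s, by omega⟩
      obtain ⟨v, rfl⟩ : ∃ v, t = s + v := ⟨t - s, by omega⟩
      have h1 : s + v - s = v := by omega
      rw [h1]
      have h2 : v ≤ u + j := by omega
      have h3 : D * v ≤ D * u + D * j := by
        rw [← Nat.mul_add]; exact Nat.mul_le_mul_left D h2
      have h4 : D * u ≤ N * u := Nat.mul_le_mul_right u hDN.le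
      rw [Nat.mul_add]
      omega
  have hslope' : ∀ i j s t : ℕ, s < i → s ≤ t → t ≤ i + j → N * s + D * (t - s) < N * i + D * j := by
    intro i j s t hs hst ht
    obtain ⟨u, rfl⟩ : ∃ u, i = s + u := ⟨i - s, by omega⟩
    obtain ⟨v, rfl⟩ : ∃ v, t = s + v := ⟨t - s, by omega⟩
    have h1 : s + v - s = v := by omega
    rw [h1]
    have h2 : v ≤ u + j := by omega
    have h3 : D * v ≤ D * u + D * j := by
      rw [← Nat.mul_add]; exact Nat.mul_le_mul_left D h2
    have h4 : D * u < N * u := Nat.mul_lt_mul_of_pos_right hDN (by omega)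
    rw [Nat.mul_add]
    omega
  have hOB : Ord N D β B := by
    intro i j h
    rcases Nat.lt_or_ge i γ with hi | hi
    · have h1 := hpmin (j - (ν - γ), γ - i) (Or.inl ⟨i, j, h, hi, rfl⟩)
      simp only at h1
      have h2 := hB2 i j h hi
      obtain ⟨u, hu⟩ : ∃ u, γ = i + u := ⟨γ - i, by omega⟩
      obtain ⟨v, hv⟩ : ∃ v, j = (ν - γ) + v := ⟨j - (ν - γ), by omega⟩
      have e1 : j - (ν - γ) = v := by omega
      have e2 : γ - i = u := by omega
      rw [e1, e2] at h1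
      rw [hβ, hv, Nat.mul_add D]
      have e3 : N * γ = N * i + N * u := by rw [hu, Nat.mul_add]
      omega
    · have h1 := hslope i j γ ν hi (hB1 i j h)
      omega
  have hOA : Ord N D α A' := by
    intro i j h
    rcases Nat.lt_or_ge i i0 with hi | hi
    · by_cases hiγ : i = γ
      · rw [hiγ] at h
        have h1 := hA3 j h
        have h2 : D * K ≤ D * j := Nat.mul_le_mul_left D h1.le
        omega
      · have h1 := hpmin (j - (a' - i0), i0 - i) (Or.inr ⟨i, j, h, hi, hiγ, rfl⟩)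
        simp only at h1
        have h2 := hA2 i j h hi
        obtain ⟨u, hu⟩ : ∃ u, i0 = i + u := ⟨i0 - i, by omega⟩
        obtain ⟨v, hv⟩ : ∃ v, j = (a' - i0) + v := ⟨j - (a' - i0), by omega⟩
        have e1 : j - (a' - i0) = v := by omega
        have e2 : i0 - i = u := by omega
        rw [e1, e2] at h1
        rw [hα, hv, Nat.mul_add D]
        have e3 : N * i0 = N * i + N * u := by rw [hu, Nat.mul_add]
        omega
    · have h1 := hslope i j i0 a' hi (hA1 i j h)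
      omega
  -- numerical facts
  have hNβ : N ≤ β := by
    have : N * 1 ≤ N * γ := Nat.mul_le_mul_left N hγ
    omega
  have hNα : N ≤ α := by
    have : N * 1 ≤ N * i0 := Nat.mul_le_mul_left N (by omega)
    omega
  obtain ⟨T, hT⟩ : ∃ T, T + N = 2 * β + α := ⟨2 * β + α - N, by omega⟩
  have hTe : N * e + D * (E - e) = T := by
    have e1 : E - e = 2 * (ν - γ) + (a' - i0) := by omega
    have e2 : N * e + N = 2 * (N * γ) + N * i0 := by
      have : N * (e + 1) = N * (2 * γ + i0) := by rw [he]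
      rw [Nat.mul_add, Nat.mul_add, Nat.mul_one] at this
      rw [this]
      ring
    have e3 : D * (E - e) = 2 * (D * (ν - γ)) + D * (a' - i0) := by
      rw [e1]; ring
    omega
  have hαβ : β + D < α + N := by
    have h1 : N * γ + D * (i0 - γ) < N * i0 := by
      obtain ⟨u, hu⟩ : ∃ u, i0 = γ + u := ⟨i0 - γ, by omega⟩
      have e2 : i0 - γ = u := by omega
      rw [e2, hu, Nat.mul_add]
      have : D * u < N * u := Nat.mul_lt_mul_of_pos_right hDN (by omega)
      omega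
    have h2 : D * (ν - γ) ≤ D * (a' - i0) + D * (i0 - γ) := by
      rw [← Nat.mul_add]; exact Nat.mul_le_mul_left D (by omega)
    omega
  obtain ⟨_, c, hc, hwc⟩ := hW N D hD hDN
  rw [hTe] at hwc
  -- the terms
  have hm1 : Ord N D D m := by
    have := Ord_of_X_pow_dvd (N := N) (D := D) (k := 1) (by simpa using hm)
    rwa [Nat.mul_one] at this
  have t1 : Ord N D (T + 1) (B ^ 3 * kap m) := by
    have h1 := (hOB.pow 3).mul (Ord_of_CX_pow_dvd (N := N) (D := D) hkap)
    apply h1.mono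
    have : D * K ≤ N * K := Nat.mul_le_mul_right K hDN.le
    have hN : 0 < N := by omega
    omega
  have t3 : Ord N D (T + 1) (m * B * (Dy A' * B - A' * Dy B)) := by
    have h1 : Ord N D ((α - D) + β) (Dy A' * B) := hOA.dy.mul hOB
    have h2 : Ord N D (α + (β - D)) (A' * Dy B) := hOA.mul hOB.dy
    have h3 : Ord N D (α + β - D) (Dy A' * B - A' * Dy B) :=
      (h1.mono (by omega)).sub (h2.mono (by omega))
    have h4 := (hm1.mul hOB).mul h3
    apply h4.mono
    omega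
  have t4 : Ord N D (T + 1) (A' * Dy m * B ^ 2) := by
    have h1 := (hOA.mul (Ord_zero N D (Dy m))).mul (hOB.pow 2)
    apply h1.mono
    omega
  have t5 : Ord N D (T + 1) (A' * (Dy A' * B - A' * Dy B)) := by
    have h1 : Ord N D ((α - D) + β) (Dy A' * B) := hOA.dy.mul hOB
    have h2 : Ord N D (α + (β - D)) (A' * Dy B) := hOA.mul hOB.dy
    have h3 : Ord N D (α + β - D) (Dy A' * B - A' * Dy B) :=
      (h1.mono (by omega)).sub (h2.mono (by omega))
    have h4 := hOA.mul h3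
    apply h4.mono
    omega
  set a := wc N D α A' with ha
  set b := wc N D β B with hb
  have t2 : wc N D T (B * (Dx A' * B - A' * Dx B)) = b * (derivative a * b - a * derivative b) := by
    have h1 : Ord N D ((α - N) + β) (Dx A' * B) := hOA.dx.mul hOB
    have h2 : Ord N D (α + (β - N)) (A' * Dx B) := hOA.mul hOB.dx
    have e1 : (α - N) + β = α + β - N := by omega
    have e2 : α + (β - N) = α + β - N := by omega
    have h3 : Ord N D (α + β - N) (Dx A' * B - A' * Dx B) := by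
      rw [e1] at h1; rw [e2] at h2
      exact h1.sub h2
    have e3 : T = β + (α + β - N) := by omega
    rw [e3, wc_mul hD hOB h3, wc_sub]
    congr 1
    have k1 : wc N D (α + β - N) (Dx A' * B) = derivative a * b := by
      rw [← e1, wc_mul hD hOA.dx hOB, wc_Dx]
      congr 2
      rw [ha]; congr 1
      omega
    have k2 : wc N D (α + β - N) (A' * Dx B) = a * derivative b := by
      rw [← e2, wc_mul hD hOA hOB.dx, wc_Dx]
      congr 2
      rw [hb]; congr 1
      omega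
    rw [k1, k2]
  rw [Infl_shift, wc_add, wc_sub, wc_sub, wc_sub,
    wc_eq_zero_of_Ord hD t1 (Nat.lt_succ_self T), wc_eq_zero_of_Ord hD t3 (Nat.lt_succ_self T),
    wc_eq_zero_of_Ord hD t4 (Nat.lt_succ_self T), wc_eq_zero_of_Ord hD t5 (Nat.lt_succ_self T),
    t2] at hwc
  have hfin : b * (derivative a * b - a * derivative b) = C (-c) * X ^ e := by
    rw [C_neg, neg_mul, ← hwc]; ring
  -- degrees
  have hbγ : b.coeff γ ≠ 0 := by
    rw [hb, hβ, wc_coeff_eq hD]; exact hBγ1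
  have hai0 : a.coeff i0 ≠ 0 := by
    rw [ha, hα, wc_coeff_eq hD]; exact hAi1
  have hbdeg : b.natDegree = γ := by
    apply le_antisymm
    · rw [natDegree_le_iff_coeff_eq_zero]
      intro i hi
      by_contra hne
      obtain ⟨j, hj, hj2⟩ := wc_coeff_ne β i B hne
      rw [wc_coeff_eq hD] at hj2
      have h1 : (B.coeff j).coeff i ≠ 0 := by rw [← hj2]; exact hne
      have h2 := hslope' i j γ ν hi hγν (hB1 i j h1)
      omega
    · exact le_natDegree_of_ne_zero hbγ
  have hadeg : a.natDegree = i0 := by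
    apply le_antisymm
    · rw [natDegree_le_iff_coeff_eq_zero]
      intro i hi
      by_contra hne
      obtain ⟨j, hj, hj2⟩ := wc_coeff_ne α i A' hne
      rw [wc_coeff_eq hD] at hj2
      have h1 : (A'.coeff j).coeff i ≠ 0 := by rw [← hj2]; exact hne
      have h2 := hslope' i j i0 a' hi hi0a (hA1 i j h1)
      omega
    · exact le_natDegree_of_ne_zero hai0
  have haγ : a.coeff γ = 0 := by
    by_contra hne
    obtain ⟨j, hj, hj2⟩ := wc_coeff_ne α γ A' hne
    rw [wc_coeff_eq hD] at hj2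
    have h1 : (A'.coeff j).coeff γ ≠ 0 := by rw [← hj2]; exact hne
    have h2 := hA3 j h1
    have h3 : D * K < D * j := Nat.mul_lt_mul_of_pos_left h2 hD
    omega
  obtain ⟨hbz, haz⟩ := newton_uni a b γ i0 e (-c) (neg_ne_zero.mpr hc) hfin hbdeg hadeg hi0 haγ
  -- the minimizer gives a contradiction
  rcases hpS with ⟨i, j, h1, h2, h3⟩ | ⟨i, j, h1, h2, h2', h3⟩
  · rw [Prod.mk.injEq] at h3
    obtain ⟨h3, h4⟩ := h3
    have h5 := hB2 i j h1 h2
    have h6 : N * i + D * j = β := by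
      obtain ⟨v, hv⟩ : ∃ v, ν = γ + v := ⟨ν - γ, by omega⟩
      have e1 : ν - γ = v := by omega
      obtain ⟨u, hu⟩ : ∃ u, γ = i + u := ⟨γ - i, by omega⟩
      have e2 : γ - i = u := by omega
      rw [e1] at h3
      rw [e2] at h4
      have e3 : j = v + N := by omega
      rw [hβ, e1, h4, e3, hu]
      ring
    have h7 := hbz i h2
    rw [hb, ← h6, wc_coeff_eq hD] at h7
    exact h1 h7
  · rw [Prod.mk.injEq] at h3
    obtain ⟨h3, h4⟩ := h3
    have h5 := hA2 i j h1 h2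
    have h6 : N * i + D * j = α := by
      obtain ⟨v, hv⟩ : ∃ v, a' = i0 + v := ⟨a' - i0, by omega⟩
      have e1 : a' - i0 = v := by omega
      obtain ⟨u, hu⟩ : ∃ u, i0 = i + u := ⟨i0 - i, by omega⟩
      have e2 : i0 - i = u := by omega
      rw [e1] at h3
      rw [e2] at h4
      have e3 : j = v + N := by omega
      rw [hα, e1, h4, e3, hu]
      ring
    have h7 := haz i h2
    rw [ha, ← h6, wc_coeff_eq hD] at h7
    exact h1 h7

end Pool.Agent.Lib.MP_5bde83_ag
end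

section

namespace Pool.Agent.Lib.MP_5bde83_ag

open Polynomial

/-- the expansion of `Infl (A' - m B) B` with orders -/
theorem shift_orders (ν a' K : ℕ) (hν : 1 ≤ ν) (ha' : ν + 1 ≤ a') (m A' B : R2)
    (hA' : Ord 1 1 a' A') (hB : Ord 1 1 ν B) (hm : X ∣ m) (hk : (C X) ^ K ∣ kap m) :
    ∃ R1 R2' : R2, Infl (A' - m * B) B = - (B * (Dx A' * B - A' * Dx B)) + R1 + R2' ∧
      Ord 1 1 K R1 ∧ Ord 1 1 (2 * ν + a') R2' ∧
      Ord 1 1 (2 * ν + a' - 1) (- (B * (Dx A' * B - A' * Dx B))) ∧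
      wc 1 1 (2 * ν + a' - 1) (- (B * (Dx A' * B - A' * Dx B))) =
        - (wc 1 1 ν B * (derivative (wc 1 1 a' A') * wc 1 1 ν B
          - wc 1 1 a' A' * derivative (wc 1 1 ν B))) := by
  have hmO : Ord 1 1 1 m := by
    have : (X : R2) ^ 1 ∣ m := by simpa using hm
    simpa using Ord_of_X_pow_dvd (N := 1) (D := 1) this
  have hkO : Ord 1 1 K (kap m) := by
    simpa using Ord_of_CX_pow_dvd (N := 1) (D := 1) hk
  have hDmO : Ord 1 1 0 (Dy m) := Ord_zero 1 1 _
  have hW : Ord 1 1 (ν + a' - 1) (Dy A' * B - A' * Dy B) := by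
    have h1 := hA'.dy.mul hB
    have h2 := hA'.mul hB.dy
    refine (h1.mono (by omega)).sub (h2.mono (by omega))
  have hWx1 : Ord 1 1 ((a' - 1) + ν) (Dx A' * B) := hA'.dx.mul hB
  have hWx2 : Ord 1 1 (a' + (ν - 1)) (A' * Dx B) := hA'.mul hB.dx
  have hWx : Ord 1 1 (ν + a' - 1) (Dx A' * B - A' * Dx B) :=
    (hWx1.mono (by omega)).sub (hWx2.mono (by omega))
  refine ⟨B ^ 3 * kap m, - (m * B * (Dy A' * B - A' * Dy B)) - A' * Dy m * B ^ 2
      + A' * (Dy A' * B - A' * Dy B), ?_, ?_, ?_, ?_, ?_⟩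
  · rw [Infl_shift]; ring
  · exact hkO.mul_left _
  · refine ((Ord.neg ?_).sub ?_).add ?_
    · exact ((hmO.mul hB).mul hW).mono (by omega)
    · exact ((hA'.mul hDmO).mul (hB.pow 2)).mono (by omega)
    · exact (hA'.mul hW).mono (by omega)
  · exact (((hB.mul hWx).neg)).mono (by omega)
  · rw [wc_neg]
    have e1 : 2 * ν + a' - 1 = ν + (ν + a' - 1) := by omega
    rw [e1, wc_mul (by norm_num) hB hWx, wc_sub]
    have e2 : ν + a' - 1 = (a' - 1) + ν := by omega
    have e3 : ν + a' - 1 = a' + (ν - 1) := by omega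
    have f1 : wc 1 1 (ν + a' - 1) (Dx A' * B) = derivative (wc 1 1 a' A') * wc 1 1 ν B := by
      rw [e2, wc_mul (by norm_num) hA'.dx hB, wc_Dx, Nat.sub_add_cancel (by omega)]
    have f2 : wc 1 1 (ν + a' - 1) (A' * Dx B) = wc 1 1 a' A' * derivative (wc 1 1 ν B) := by
      rw [e3, wc_mul (by norm_num) hA' hB.dx, wc_Dx, Nat.sub_add_cancel (by omega)]
    rw [f1, f2]

theorem typeII_struct (ν E K γ : ℕ) (hν : 1 ≤ ν) (A B : R2) (hA : Ord 1 1 (ν + 1) A)
    (hB : Ord 1 1 ν B) (hγ : (wc 1 1 ν B).coeff γ ≠ 0)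
    (hγ' : ∀ i < γ, (wc 1 1 ν B).coeff i = 0)
    (hE : Ord 1 1 E (Infl A B)) (hG : wc 1 1 E (Infl A B) ≠ 0) (hK : E < K) :
    ∃ (m A' : R2) (a' : ℕ), X ∣ m ∧ (C X) ^ K ∣ kap m ∧ A = A' - m * B ∧
      (∀ j ≤ K, (A'.coeff j).coeff γ = 0) ∧
      Ord 1 1 a' A' ∧ wc 1 1 a' A' ≠ 0 ∧ ν + 1 ≤ a' ∧ E + 1 = 2 * ν + a' ∧
      wc 1 1 E (Infl A B) = - (wc 1 1 ν B * (derivative (wc 1 1 a' A') * wc 1 1 ν B
        - wc 1 1 a' A' * derivative (wc 1 1 ν B))) ∧ (wc 1 1 a' A').coeff γ = 0 := by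
  obtain ⟨m, hm, hk, hc⟩ := kill ν γ K A B hA hB hγ hγ'
  have hAeq : A = (A + m * B) - m * B := by ring
  set A' := A + m * B with hA'def
  have hmO : Ord 1 1 1 m := by
    have : (X : R2) ^ 1 ∣ m := by simpa using hm
    simpa using Ord_of_X_pow_dvd (N := 1) (D := 1) this
  have hA'1 : Ord 1 1 (ν + 1) A' := by
    refine hA.add ?_
    exact (hmO.mul hB).mono (by omega)
  have hkO : Ord 1 1 K (kap m) := by
    simpa using Ord_of_CX_pow_dvd (N := 1) (D := 1) hk
  have hI : Infl A B = Infl (A' - m * B) B := by rw [← hAeq]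
  have hA'0 : A' ≠ 0 := by
    intro h0
    apply hG
    rw [hI, Infl_shift, h0]
    simp only [Dx_zero, Dy_zero, zero_mul, mul_zero, sub_zero, add_zero]
    exact wc_eq_zero_of_Ord (by norm_num) (hkO.mul_left _) hK
  obtain ⟨a', ha1, ha2⟩ := exists_Ord (N := 1) (D := 1) (by norm_num) hA'0
  have haν : ν + 1 ≤ a' := by
    by_contra hlt
    push Not at hlt
    exact ha2 (wc_eq_zero_of_Ord (by norm_num) hA'1 hlt)
  obtain ⟨R1, R3, hdec, hR1, hR2, hmain, hwc⟩ := shift_orders ν a' K hν haν m A' B ha1 hB hm hk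
  have hTE : 2 * ν + a' - 1 ≤ E := by
    by_contra hlt
    push Not at hlt
    apply hG
    rw [hI, hdec, wc_add, wc_add, wc_eq_zero_of_Ord (by norm_num) hmain hlt,
      wc_eq_zero_of_Ord (by norm_num) hR1 hK,
      wc_eq_zero_of_Ord (by norm_num) hR2 (by omega)]
    simp
  have ha'K : a' ≤ K := by omega
  have hcoefγ : (wc 1 1 a' A').coeff γ = 0 := by
    by_contra hne
    obtain ⟨j, hj, hj2⟩ := wc_coeff_ne a' γ A' hne
    rw [wc_coeff_eq (by norm_num)] at hj2
    exact hne (by rw [hj2]; exact hc j (by omega))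
  -- the component at T is nonzero
  have hb0 : wc 1 1 ν B ≠ 0 := by intro h; rw [h] at hγ; simp at hγ
  have hwr : derivative (wc 1 1 a' A') * wc 1 1 ν B - wc 1 1 a' A' * derivative (wc 1 1 ν B) ≠ 0 := by
    intro h
    have h' : derivative (wc 1 1 ν B) * wc 1 1 a' A' - wc 1 1 ν B * derivative (wc 1 1 a' A') = 0 := by
      linear_combination -h
    obtain ⟨c, hc'⟩ := wronskian_prop _ _ hb0 h'
    have : c = 0 := by
      have h2 := congrArg (fun p => p.coeff γ) hc'
      simp only [hcoefγ, coeff_C_mul] at h2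
      rcases mul_eq_zero.mp h2.symm with h3 | h3
      · exact h3
      · exact absurd h3 hγ
    rw [this] at hc'
    exact ha2 (by simpa using hc')
  have hTne : wc 1 1 (2 * ν + a' - 1) (Infl A B) ≠ 0 := by
    rw [hI, hdec, wc_add, wc_add, hwc, wc_eq_zero_of_Ord (by norm_num) hR1 (by omega),
      wc_eq_zero_of_Ord (by norm_num) hR2 (by omega)]
    simp only [add_zero]
    exact neg_ne_zero.mpr (mul_ne_zero hb0 hwr)
  have hET : E ≤ 2 * ν + a' - 1 := by
    by_contra hlt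
    push Not at hlt
    exact hTne (wc_eq_zero_of_Ord (by norm_num) hE hlt)
  have hEeq : E = 2 * ν + a' - 1 := by omega
  refine ⟨m, A', a', hm, hk, hAeq, hc, ha1, ha2, haν, by omega, ?_, hcoefγ⟩
  rw [hEeq, hI, hdec, wc_add, wc_add, hwc, wc_eq_zero_of_Ord (by norm_num) hR1 (by omega),
      wc_eq_zero_of_Ord (by norm_num) hR2 (by omega)]
  simp

end Pool.Agent.Lib.MP_5bde83_ag
end

section

namespace Pool.Agent.Lib.MP_5bde83_ag

open Polynomial

theorem wr_mult (a b : Polynomial ℂ) (r : ℂ) (ha : a ≠ 0) (hb : b ≠ 0)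
    (hne : a.rootMultiplicity r ≠ b.rootMultiplicity r) :
    derivative a * b - a * derivative b ≠ 0 ∧
    (derivative a * b - a * derivative b).rootMultiplicity r + 1 =
      a.rootMultiplicity r + b.rootMultiplicity r := by
  obtain ⟨a1, ha1, ha2⟩ := exists_eq_pow_rootMultiplicity_mul_and_not_dvd a ha r
  obtain ⟨b1, hb1, hb2⟩ := exists_eq_pow_rootMultiplicity_mul_and_not_dvd b hb r
  set p := a.rootMultiplicity r with hp
  set q := b.rootMultiplicity r with hq
  have key : (X - C r) * (derivative a * b - a * derivative b) =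
      (X - C r) ^ (p + q) * (C ((p : ℂ) - q) * (a1 * b1)
        + (X - C r) * (derivative a1 * b1 - a1 * derivative b1)) := by
    have hda : (X - C r) * derivative a =
        (X - C r) ^ p * (C (p : ℂ) * a1 + (X - C r) * derivative a1) := by
      rw [ha1, derivative_mul]
      rcases Nat.eq_zero_or_pos p with h0 | h0
      · rw [h0]; simp
      · obtain ⟨p', hp'⟩ : ∃ p', p = p' + 1 := ⟨p - 1, by omega⟩
        rw [hp', derivative_X_sub_C_pow]
        push_cast
        simp only [map_add, map_natCast, map_one]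
        ring
    have hdb : (X - C r) * derivative b =
        (X - C r) ^ q * (C (q : ℂ) * b1 + (X - C r) * derivative b1) := by
      rw [hb1, derivative_mul]
      rcases Nat.eq_zero_or_pos q with h0 | h0
      · rw [h0]; simp
      · obtain ⟨p', hp'⟩ : ∃ p', q = p' + 1 := ⟨q - 1, by omega⟩
        rw [hp', derivative_X_sub_C_pow]
        push_cast
        simp only [map_add, map_natCast, map_one]
        ring
    have e1 : (X - C r) * (derivative a * b - a * derivative b) =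
      ((X - C r) * derivative a) * b - a * ((X - C r) * derivative b) := by ring
    rw [e1, hda, hdb]
    nth_rw 1 [hb1]
    nth_rw 1 [ha1]
    rw [pow_add, C_sub]
    ring
  have hfac : ¬ (X - C r) ∣ (C ((p : ℂ) - q) * (a1 * b1)
        + (X - C r) * (derivative a1 * b1 - a1 * derivative b1)) := by
    intro hdvd
    rw [dvd_iff_isRoot, IsRoot.def] at hdvd
    simp only [eval_add, eval_mul, eval_C, eval_sub, eval_X, sub_self, zero_mul, add_zero] at hdvd
    have h1 : a1.eval r ≠ 0 := by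
      intro h; exact ha2 (dvd_iff_isRoot.mpr h)
    have h2 : b1.eval r ≠ 0 := by
      intro h; exact hb2 (dvd_iff_isRoot.mpr h)
    have h3 : ((p : ℂ) - q) ≠ 0 := by
      intro h; apply hne
      have : (p : ℂ) = q := by linear_combination h
      exact_mod_cast this
    exact mul_ne_zero h3 (mul_ne_zero h1 h2) hdvd
  have hfne : (C ((p : ℂ) - q) * (a1 * b1)
        + (X - C r) * (derivative a1 * b1 - a1 * derivative b1)) ≠ 0 := by
    intro h; rw [h] at hfac; exact hfac (dvd_zero _)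
  have hW : derivative a * b - a * derivative b ≠ 0 := by
    intro h
    rw [h, mul_zero] at key
    exact mul_ne_zero (pow_ne_zero _ (X_sub_C_ne_zero r)) hfne key.symm
  refine ⟨hW, ?_⟩
  have h1 : rootMultiplicity r _ = rootMultiplicity r _ := congrArg (fun f => rootMultiplicity r f) key
  rw [rootMultiplicity_mul (mul_ne_zero (X_sub_C_ne_zero r) hW),
    rootMultiplicity_mul (mul_ne_zero (pow_ne_zero _ (X_sub_C_ne_zero r)) hfne),
    rootMultiplicity_X_sub_C_self, rootMultiplicity_X_sub_C_pow,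
    rootMultiplicity_eq_zero (p := (C ((p : ℂ) - q) * (a1 * b1)
        + (X - C r) * (derivative a1 * b1 - a1 * derivative b1)))
        (by rw [← dvd_iff_isRoot]; exact hfac)] at h1
  omega

variable (ν E : ℕ) (hν : 1 ≤ ν) (A B : R2) (hA : Ord 1 1 (ν + 1) A)
    (hB : Ord 1 1 ν B) (hb : wc 1 1 ν B ≠ 0)
    (hE : Ord 1 1 E (Infl A B)) (hG : wc 1 1 E (Infl A B) ≠ 0)

include hν hA hB hb hE hG

theorem II_struct (K : ℕ) (hK : E < K) :
    ∃ (m A' : R2) (a' : ℕ), X ∣ m ∧ (C X) ^ K ∣ kap m ∧ A = A' - m * B ∧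
      (∀ j ≤ K, (A'.coeff j).coeff (wc 1 1 ν B).natTrailingDegree = 0) ∧
      Ord 1 1 a' A' ∧ wc 1 1 a' A' ≠ 0 ∧ ν + 1 ≤ a' ∧ E + 1 = 2 * ν + a' ∧
      wc 1 1 E (Infl A B) = - (wc 1 1 ν B * (derivative (wc 1 1 a' A') * wc 1 1 ν B
        - wc 1 1 a' A' * derivative (wc 1 1 ν B))) ∧
      (wc 1 1 a' A').coeff (wc 1 1 ν B).natTrailingDegree = 0 := by
  apply typeII_struct ν E K _ hν A B hA hB _ _ hE hG hK
  · exact mt trailingCoeff_eq_zero.mp hb
  · intro i hi
    exact coeff_eq_zero_of_lt_natTrailingDegree hi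

theorem II_upper_lambda (hx : C X ∣ B) (k : ℕ) (hk : (A.coeff k).coeff 0 ≠ 0) :
    E + 1 ≤ 2 * ν + k ∧ E + 3 ≤ 3 * k := by
  obtain ⟨m, A', a', hm, hkap, hAeq, hc, ha1, ha2, haν, hEq, -, -⟩ :=
    II_struct ν E hν A B hA hB hb hE hG (E + 1) (by omega)
  have h1 : (A'.coeff k).coeff 0 ≠ 0 := by
    have hA' : A' = A + m * B := by rw [hAeq]; ring
    obtain ⟨B1, hB1⟩ := hx
    have h2 : ((m * B).coeff k).coeff 0 = 0 := by
      rw [hB1]
      have : m * (C X * B1) = C X * (m * B1) := by ring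
      rw [this, coeff_C_mul, mul_coeff_zero]
      simp
    rw [hA', coeff_add, coeff_add, h2, add_zero]
    exact hk
  have h3 := ha1 0 k h1
  omega

theorem II_upper_star (hcen : X * A.coeff 1 + B.coeff 0 = 0) (k : ℕ)
    (hk0 : ∀ j < k, (B.coeff 0).coeff j = 0) (hk : (B.coeff 0).coeff k ≠ 0) :
    E + 1 ≤ 2 * ν + k := by
  obtain ⟨m, A', a', hm, hkap, hAeq, hc, ha1, ha2, haν, hEq, -, -⟩ :=
    II_struct ν E hν A B hA hB hb hE hG (E + 1) (by omega)
  have hk1 : 1 ≤ k := by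
    have := hB k 0 hk
    omega
  obtain ⟨k', rfl⟩ : ∃ k', k = k' + 1 := ⟨k - 1, by omega⟩
  have hA' : A' = A + m * B := by rw [hAeq]; ring
  obtain ⟨m1, rfl⟩ := hm
  have h1 : (A'.coeff 1).coeff k' ≠ 0 := by
    rw [hA', coeff_add, coeff_add]
    have h2 : ((X * m1 * B).coeff 1).coeff k' = 0 := by
      have : X * m1 * B = X * (m1 * B) := by ring
      rw [this, coeff_X_mul, mul_coeff_zero, coeff_mul]
      apply Finset.sum_eq_zero
      rintro ⟨p, q⟩ hpq
      rw [Finset.HasAntidiagonal.mem_antidiagonal] at hpq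
      simp only at hpq ⊢
      rw [hk0 q (by omega), mul_zero]
    rw [h2, add_zero]
    have h3 := congrArg (fun f => f.coeff (k' + 1)) hcen
    simp only [coeff_add, coeff_X_mul, coeff_zero] at h3
    intro h4
    rw [h4, zero_add] at h3
    exact hk h3
  have h3 := ha1 k' 1 h1
  omega

theorem II_mult_ge (r : ℂ) (hr : (wc 1 1 ν B).IsRoot r) :
    2 * (wc 1 1 ν B).rootMultiplicity r ≤ (wc 1 1 E (Infl A B)).rootMultiplicity r + 1 := by
  obtain ⟨m, A', a', hm, hkap, hAeq, hc, ha1, ha2, haν, hEq, hGeq, -⟩ :=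
    II_struct ν E hν A B hA hB hb hE hG (E + 1) (by omega)
  set b := wc 1 1 ν B with hbdef
  set a := wc 1 1 a' A' with hadef
  set g := b.rootMultiplicity r with hg
  have hg1 : 1 ≤ g := (rootMultiplicity_pos hb).mpr hr
  obtain ⟨g', hg'⟩ : ∃ g', g = g' + 1 := ⟨g - 1, by omega⟩
  have hdvd : (X - C r) ^ g ∣ b := pow_rootMultiplicity_dvd b r
  obtain ⟨b1, hb1⟩ := hdvd
  have : 2 * g - 1 ≤ (wc 1 1 E (Infl A B)).rootMultiplicity r := by
    rw [le_rootMultiplicity_iff hG, hGeq, hb1, hg']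
    have hder : derivative ((X - C r) ^ (g' + 1) * b1) =
      (X - C r) ^ g' * (C ((g' : ℂ) + 1) * b1 + (X - C r) * derivative b1) := by
      rw [derivative_mul, derivative_X_sub_C_pow]
      push_cast
      simp only [map_add, map_natCast, map_one]
      ring
    rw [hder]
    refine ⟨- (b1 * (derivative a * ((X - C r) * b1)
      - a * (C ((g' : ℂ) + 1) * b1 + (X - C r) * derivative b1))), ?_⟩
    have : 2 * (g' + 1) - 1 = g' + 1 + g' := by omega
    rw [this, pow_add]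
    ring
  omega

theorem II_mult_lt (hx : C X ∣ B) (h0 : (wc 1 1 ν B).IsRoot 0) (k0 : ℕ)
    (hk0 : (A.coeff k0).coeff 0 ≠ 0)
    (hW : ∀ N D, 0 < D → D < N →
      Ord N D (N * (wc 1 1 E (Infl A B)).rootMultiplicity 0 +
        D * (E - (wc 1 1 E (Infl A B)).rootMultiplicity 0)) (Infl A B) ∧
      ∃ c : ℂ, c ≠ 0 ∧ wc N D (N * (wc 1 1 E (Infl A B)).rootMultiplicity 0 +
        D * (E - (wc 1 1 E (Infl A B)).rootMultiplicity 0)) (Infl A B) =
          C c * X ^ (wc 1 1 E (Infl A B)).rootMultiplicity 0) :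
    (wc 1 1 E (Infl A B)).rootMultiplicity 0 < 3 * (wc 1 1 ν B).rootMultiplicity 0 := by
  obtain ⟨m, A', a', hm, hkap, hAeq, hc, ha1, ha2, haν, hEq, hGeq, hcγ⟩ :=
    II_struct ν E hν A B hA hB hb hE hG (E + 1 + k0) (by omega)
  have hγeq : (wc 1 1 ν B).rootMultiplicity 0 = (wc 1 1 ν B).natTrailingDegree :=
    rootMultiplicity_eq_natTrailingDegree'
  have hieq : (wc 1 1 a' A').rootMultiplicity 0 = (wc 1 1 a' A').natTrailingDegree :=
    rootMultiplicity_eq_natTrailingDegree'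
  have hγ1 : 1 ≤ (wc 1 1 ν B).natTrailingDegree := by
    rw [← hγeq]; exact (rootMultiplicity_pos hb).mpr h0
  have hAine : (wc 1 1 a' A').coeff (wc 1 1 a' A').natTrailingDegree ≠ 0 :=
    mt trailingCoeff_eq_zero.mp ha2
  have hBγ : (wc 1 1 ν B).coeff (wc 1 1 ν B).natTrailingDegree ≠ 0 :=
    mt trailingCoeff_eq_zero.mp hb
  have hne : (wc 1 1 a' A').rootMultiplicity 0 ≠ (wc 1 1 ν B).rootMultiplicity 0 := by
    rw [hγeq, hieq]
    intro h
    rw [h] at hAine
    exact hAine hcγ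
  obtain ⟨hW0, hWm⟩ := wr_mult _ _ 0 ha2 hb hne
  have hGm : (wc 1 1 E (Infl A B)).rootMultiplicity 0 + 1 =
      2 * (wc 1 1 ν B).rootMultiplicity 0 + (wc 1 1 a' A').rootMultiplicity 0 := by
    have hrm : (wc 1 1 E (Infl A B)).rootMultiplicity 0 = (wc 1 1 ν B).rootMultiplicity 0 +
        (derivative (wc 1 1 a' A') * wc 1 1 ν B
          - wc 1 1 a' A' * derivative (wc 1 1 ν B)).rootMultiplicity 0 := by
      rw [hGeq, ← rootMultiplicity_mul (mul_ne_zero hb hW0)]
      have : ∀ f : Polynomial ℂ, (-f).rootMultiplicity 0 = f.rootMultiplicity 0 := by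
        intro f
        have h1 : -f = C (-1) * f := by simp
        by_cases hf : f = 0
        · simp [hf]
        · rw [h1, rootMultiplicity_mul (mul_ne_zero (by simp) hf), rootMultiplicity_C, zero_add]
      exact this _
    omega
  by_contra hcon
  push Not at hcon
  have hlt : (wc 1 1 ν B).natTrailingDegree < (wc 1 1 a' A').natTrailingDegree := by
    rw [← hγeq, ← hieq]; omega
  refine newton ν E ((wc 1 1 E (Infl A B)).rootMultiplicity 0) (wc 1 1 ν B).natTrailingDegree a'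
    (wc 1 1 a' A').natTrailingDegree (E + 1 + k0) k0 m A' B hν hγ1 hB hBγ ?_ ha1 haν hAine ?_ hlt
    hm hkap ?_ (by omega) hc (by rw [← hγeq, ← hieq]; exact hGm) hEq (by omega) ?_
  · intro i hi; exact coeff_eq_zero_of_lt_natTrailingDegree hi
  · intro i hi; exact coeff_eq_zero_of_lt_natTrailingDegree hi
  · have hA' : A' = A + m * B := by rw [hAeq]; ring
    obtain ⟨B1, hB1⟩ := hx
    have h2 : ((m * B).coeff k0).coeff 0 = 0 := by
      rw [hB1]
      have : m * (C X * B1) = C X * (m * B1) := by ring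
      rw [this, coeff_C_mul, mul_coeff_zero]
      simp
    rw [hA', coeff_add, coeff_add, h2, add_zero]
    exact hk0
  · rw [← hAeq]; exact hW

theorem II_single (hroot : ∀ r, (wc 1 1 E (Infl A B)).IsRoot r → (wc 1 1 ν B).IsRoot r)
    (hlt : ∀ r, (wc 1 1 ν B).IsRoot r →
      (wc 1 1 E (Infl A B)).rootMultiplicity r < 3 * (wc 1 1 ν B).rootMultiplicity r) :
    ∀ r r', (wc 1 1 ν B).IsRoot r → (wc 1 1 ν B).IsRoot r' → r = r' := by
  obtain ⟨m, A', a', hm, hkap, hAeq, hc, ha1, ha2, haν, hEq, hGeq, -⟩ :=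
    II_struct ν E hν A B hA hB hb hE hG (E + 1) (by omega)
  apply lemR (wc 1 1 ν B) (wc 1 1 E (Infl A B)) (- wc 1 1 a' A') hb hG _ hroot hlt
  rw [hGeq, derivative_neg]
  ring

end Pool.Agent.Lib.MP_5bde83_ag
end

section

namespace Pool.Agent.Lib.MP_5bde83_ag

open Polynomial

variable {n : ℕ} {ω : Fin 3 → MvPolynomial (Fin 3) ℂ} {ℓ : Fin (3 * n) → Fin 3 → ℂ}

theorem eval_smul_hom (F : MvPolynomial (Fin 3) ℂ) (m : ℕ) (hF : F.IsHomogeneous m) (c : ℂ)
    (p : Fin 3 → ℂ) : MvPolynomial.eval (c • p) F = c ^ m * MvPolynomial.eval p F := by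
  rw [MvPolynomial.eval_eq', MvPolynomial.eval_eq', Finset.mul_sum]
  apply Finset.sum_congr rfl
  intro d hd
  have hdm : d 0 + d 1 + d 2 = m := by
    have h1 := hF (MvPolynomial.mem_support_iff.mp hd)
    rw [Finsupp.weight_apply, Finsupp.sum_fintype _ _ (by simp)] at h1
    simpa [Fin.sum_univ_three] using h1
  simp only [Fin.prod_univ_three, Pi.smul_apply, smul_eq_mul, mul_pow]
  rw [← hdm, pow_add, pow_add]
  ring

theorem evv_smul (h : ∀ j, (ω j).IsHomogeneous (n + 1)) (c : ℂ) (p : Fin 3 → ℂ) :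
    evv ω (c • p) = c ^ (n + 1) • evv ω p := by
  funext j
  simp only [evv, Pi.smul_apply, smul_eq_mul]
  exact eval_smul_hom (ω j) (n + 1) (h j) c p

theorem frame_decomp {e1 e2 s : Fin 3 → ℂ} (ht : tri e1 e2 s ≠ 0) (p : Fin 3 → ℂ) :
    ∃ a b c : ℂ, p = a • e1 + b • e2 + c • s := by
  refine ⟨tri p e2 s / tri e1 e2 s, tri e1 p s / tri e1 e2 s, tri e1 e2 p / tri e1 e2 s, ?_⟩
  have key : tri e1 e2 s • p = tri p e2 s • e1 + tri e1 p s • e2 + tri e1 e2 p • s := by
    funext j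
    fin_cases j
    · show tri e1 e2 s * p 0 = tri p e2 s * e1 0 + tri e1 p s * e2 0 + tri e1 e2 p * s 0
      unfold tri; ring
    · show tri e1 e2 s * p 1 = tri p e2 s * e1 1 + tri e1 p s * e2 1 + tri e1 e2 p * s 1
      unfold tri; ring
    · show tri e1 e2 s * p 2 = tri p e2 s * e1 2 + tri e1 p s * e2 2 + tri e1 e2 p * s 2
      unfold tri; ring
  have h2 : (tri e1 e2 s)⁻¹ • (tri e1 e2 s • p) = p := by
    rw [smul_smul, inv_mul_cancel₀ ht, one_smul]
  rw [key] at h2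
  conv_lhs => rw [← h2]
  simp only [smul_add, smul_smul, div_eq_inv_mul]

/-- `B` does not vanish identically on an invariant line `y = 0` -/
theorem GData.B0_ne (G : GData n ω ℓ) (l e1 e2 s : Fin 3 → ℂ) (ht : tri e1 e2 s ≠ 0)
    (hl : InvLine ω l) (h1 : dot l e1 = 0) (hs : dot l s = 0) :
    (ev ω e1 e2 s e2).coeff 0 ≠ 0 := by
  intro h0
  have he2 : dot l e2 ≠ 0 := fun h => hl.1 (eq_zero_of_dots ht h1 h hs)
  have hx : ∀ x : ℂ, dot (evv ω (x • e1 + s)) e2 = 0 := by
    intro x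
    have := ev_eval (ω := ω) e1 e2 s e2 x 0
    rw [C_0, ← coeff_zero_eq_eval_zero, h0, eval_zero] at this
    rw [zero_smul, add_zero] at this
    exact this.symm
  have hinf : dot (evv ω e1) e2 = 0 := by
    have h2 := ev_eval (ω := ω) s e2 e1 e2 0 0
    rw [C_0, ← coeff_zero_eq_eval_zero, ← coeff_zero_eq_eval_zero, zero_smul, zero_smul, zero_add,
      zero_add] at h2
    rw [← h2, ← ev_rev G.fol.hom e1 e2 s e2 (n + 1) 0 0 (by ring), h0, coeff_zero]
  obtain ⟨p, hp1, hp2⟩ := G.noline l hl.1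
  obtain ⟨a, b, c, rfl⟩ := frame_decomp ht p
  have hb : b = 0 := by
    rw [dot_add, dot_add, dot_smul, dot_smul, dot_smul, h1, hs] at hp1
    simp only [mul_zero, zero_add, add_zero] at hp1
    exact (mul_eq_zero.mp hp1).resolve_right he2
  obtain ⟨c', hc'⟩ := hl.2 _ hp1
  have hc0 : c' ≠ 0 := by
    intro h; rw [h, zero_smul] at hc'; exact hp2 hc'
  have hd : dot (evv ω (a • e1 + b • e2 + c • s)) e2 ≠ 0 := by
    rw [hc', smul_dot]
    exact mul_ne_zero hc0 he2
  apply hd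
  rw [hb, zero_smul, add_zero]
  by_cases hc : c = 0
  · rw [hc, zero_smul, add_zero, evv_smul G.fol.hom, smul_dot, hinf, mul_zero]
  · have : a • e1 + c • s = c • ((a / c) • e1 + s) := by
      rw [smul_add, smul_smul, mul_div_cancel₀ _ hc]
    rw [this, evv_smul G.fol.hom, smul_dot, hx, mul_zero]

/-- `A` does not vanish identically on an invariant line `x = 0` -/
theorem GData.A0_ne (G : GData n ω ℓ) (l e1 e2 s : Fin 3 → ℂ) (ht : tri e1 e2 s ≠ 0)
    (hl : InvLine ω l) (h1 : dot l e2 = 0) (hs : dot l s = 0) :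
    ∃ k, ((ev ω e1 e2 s e1).coeff k).coeff 0 ≠ 0 := by
  have ht' : tri e2 e1 s ≠ 0 := by
    have : tri e2 e1 s = - tri e1 e2 s := by unfold tri; ring
    rw [this]; exact neg_ne_zero.mpr ht
  have h := G.B0_ne l e2 e1 s ht' hl h1 hs
  by_contra hcon
  push Not at hcon
  apply h
  ext k
  rw [ev_swap]
  simpa using hcon k

/-- existence of the multiplicity `ν` at the origin -/
theorem exists_nu (A B : R2) (hB : B ≠ 0) :
    ∃ ν, Ord 1 1 ν A ∧ Ord 1 1 ν B ∧ (wc 1 1 ν A ≠ 0 ∨ wc 1 1 ν B ≠ 0) := by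
  obtain ⟨k, hk1, hk2⟩ := exists_Ord (N := 1) (D := 1) (by norm_num) hB
  by_cases hA : A = 0
  · exact ⟨k, by rw [hA]; exact Ord_zero_poly 1 1 k, hk1, Or.inr hk2⟩
  · obtain ⟨l, hl1, hl2⟩ := exists_Ord (N := 1) (D := 1) (by norm_num) hA
    rcases le_total k l with h | h
    · exact ⟨k, hl1.mono h, hk1, Or.inr hk2⟩
    · exact ⟨l, hl1, hk1.mono h, Or.inl hl2⟩

/-- type II in standard position: strict multiplicity bound at all roots -/
theorem GData.II_lt_all (G : GData n ω ℓ) (e1 e2 s : Fin 3 → ℂ) (ht : tri e1 e2 s ≠ 0) (ν : ℕ)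
    (hν : 1 ≤ ν) (hA : Ord 1 1 (ν + 1) (ev ω e1 e2 s e1)) (hB : Ord 1 1 ν (ev ω e1 e2 s e2))
    (hb : wc 1 1 ν (ev ω e1 e2 s e2) ≠ 0) (r : ℂ)
    (hr : (wc 1 1 ν (ev ω e1 e2 s e2)).IsRoot r) :
    (wc 1 1 (Ec ℓ s) (Infl (ev ω e1 e2 s e1) (ev ω e1 e2 s e2))).rootMultiplicity r <
      3 * (wc 1 1 ν (ev ω e1 e2 s e2)).rootMultiplicity r := by
  classical
  obtain ⟨-, -, -, hmult⟩ := G.chart_main e1 e2 s ht
  have hpos : 0 < (wc 1 1 ν (ev ω e1 e2 s e2)).rootMultiplicity r :=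
    (rootMultiplicity_pos hb).mpr hr
  rw [hmult r]
  by_cases h0 : fc ℓ s e1 (e2 + r • e1) = 0
  · omega
  -- shear
  have ht' : tri e1 (e2 + r • e1) s ≠ 0 := by
    have : tri e1 (e2 + r • e1) s = tri e1 e2 s := by
      unfold tri; simp only [Pi.add_apply, Pi.smul_apply, smul_eq_mul]; ring
    rw [this]; exact ht
  obtain ⟨h1', h2', -, h4'⟩ := G.chart_main e1 (e2 + r • e1) s ht'
  have hA' : Ord 1 1 (ν + 1) (ev ω e1 (e2 + r • e1) s e1) := ev_shear_Ord e1 e2 s e1 r (ν + 1) hA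
  have hBs : Ord 1 1 ν (ev ω e1 (e2 + r • e1) s e2) := ev_shear_Ord e1 e2 s e2 r ν hB
  have hBeq : ev ω e1 (e2 + r • e1) s (e2 + r • e1) =
      ev ω e1 (e2 + r • e1) s e2 + C (C r) * ev ω e1 (e2 + r • e1) s e1 := by
    rw [ev_add, ev_smul]
  have hB' : Ord 1 1 ν (ev ω e1 (e2 + r • e1) s (e2 + r • e1)) := by
    rw [hBeq]
    exact hBs.add ((hA'.mono (by omega)).mul_left _)
  have hwc : wc 1 1 ν (ev ω e1 (e2 + r • e1) s (e2 + r • e1)) =
      (wc 1 1 ν (ev ω e1 e2 s e2)).comp (X + C r) := by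
    rw [hBeq, wc_add, wc_CC_mul, ev_shear_wc,
      wc_eq_zero_of_Ord (by norm_num) hA' (by omega), mul_zero, add_zero]
  have hb' : wc 1 1 ν (ev ω e1 (e2 + r • e1) s (e2 + r • e1)) ≠ 0 := by
    rw [hwc]
    intro h
    apply hb
    have := congrArg (fun f => f.comp (X - C r)) h
    simpa [comp_assoc] using this
  have hm : (wc 1 1 ν (ev ω e1 (e2 + r • e1) s (e2 + r • e1))).rootMultiplicity 0 =
      (wc 1 1 ν (ev ω e1 e2 s e2)).rootMultiplicity r := by
    rw [hwc, ← rootMultiplicity_eq_rootMultiplicity]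
  have hroot0 : (wc 1 1 ν (ev ω e1 (e2 + r • e1) s (e2 + r • e1))).IsRoot 0 := by
    rw [← rootMultiplicity_pos hb', hm]; exact hpos
  -- an invariant line x = 0
  have h5 : 0 < fc ℓ s e1 (e2 + r • e1) := Nat.pos_of_ne_zero h0
  unfold fc at h5
  rw [Finset.card_pos] at h5
  obtain ⟨i, hi⟩ := h5
  simp only [Finset.mem_filter, Finset.mem_univ, true_and] at hi
  have hx := ev_inv_x G.fol.euler (ℓ i) e1 (e2 + r • e1) s (G.inv i) hi.2.2 hi.1
  obtain ⟨k0, hk0⟩ := G.A0_ne (ℓ i) e1 (e2 + r • e1) s ht' (G.inv i) hi.2.2 hi.1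
  have key := II_mult_lt ν (Ec ℓ s) hν _ _ hA' hB' hb' h1' h2' hx hroot0 k0 hk0
    (G.chart_wt e1 (e2 + r • e1) s ht')
  rw [h4' 0, hm, zero_smul, add_zero] at key
  exact key

end Pool.Agent.Lib.MP_5bde83_ag
end
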