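import Pool.Agent.Lib.MP_5bde83_ag.Mg.G007

section

namespace Pool.Agent.Lib.MP_5bde83_ag

open Polynomial

variable {n : ℕ} {ω : Fin 3 → MvPolynomial (Fin 3) ℂ} {ℓ : Fin (3 * n) → Fin 3 → ℂ}

theorem Ord_swap_ev (e1 e2 s w : Fin 3 → ℂ) (k : ℕ) (h : Ord 1 1 k (ev ω e1 e2 s w)) :
    Ord 1 1 k (ev ω e2 e1 s w) := by
  intro i j hij
  rw [ev_swap] at hij
  have := h j i hij
  omega

theorem wc_swap_ev (e1 e2 s w : Fin 3 → ℂ) (k i : ℕ) (hi : i ≤ k) :
    (wc 1 1 k (ev ω e2 e1 s w)).coeff i = (wc 1 1 k (ev ω e1 e2 s w)).coeff (k - i) := by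
  have h1 := wc_coeff_eq (N := 1) (D := 1) (by norm_num) i (k - i) (ev ω e2 e1 s w)
  have h2 := wc_coeff_eq (N := 1) (D := 1) (by norm_num) (k - i) i (ev ω e1 e2 s w)
  rw [show 1 * i + 1 * (k - i) = k by omega] at h1
  rw [show 1 * (k - i) + 1 * i = k by omega] at h2
  rw [h1, h2, ev_swap]

theorem tri_swap (e1 e2 s : Fin 3 → ℂ) : tri e2 e1 s = - tri e1 e2 s := by
  unfold tri; ring

theorem tri_shear (e1 e2 s : Fin 3 → ℂ) (r : ℂ) : tri e1 (e2 + r • e1) s = tri e1 e2 s := by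
  unfold tri; simp only [Pi.add_apply, Pi.smul_apply, smul_eq_mul]; ring

theorem tri_swap13 (e1 e2 s : Fin 3 → ℂ) : tri s e2 e1 = - tri e1 e2 s := by
  unfold tri; ring

theorem tri_trans (e1 e2 s : Fin 3 → ℂ) (t : ℂ) : tri e1 e2 (s + t • e1) = tri e1 e2 s := by
  unfold tri; simp only [Pi.add_apply, Pi.smul_apply, smul_eq_mul]; ring

/-- type II with `A_ν ≠ 0` is impossible at a noncentral point -/
theorem GData.no_II_a (G : GData n ω ℓ) (e1 e2 s : Fin 3 → ℂ) (ht : tri e1 e2 s ≠ 0) (ν : ℕ)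
    (hν : 1 ≤ ν) (hA : Ord 1 1 ν (ev ω e1 e2 s e1)) (hB : Ord 1 1 ν (ev ω e1 e2 s e2))
    (c : ℂ) (hc : wc 1 1 ν (ev ω e1 e2 s e2) = C c * wc 1 1 ν (ev ω e1 e2 s e1))
    (ha : wc 1 1 ν (ev ω e1 e2 s e1) ≠ 0)
    (hdeg : (wc 1 1 ν (ev ω e1 e2 s e1)).natDegree + ec ℓ e1 s ≤ ν) (he : 2 ≤ ec ℓ e1 s) :
    False := by
  classical
  set f1 := e2 + (-c) • e1 with hf1
  have ht1 : tri e1 f1 s ≠ 0 := by rw [hf1, tri_shear]; exact ht
  have ht2 : tri f1 e1 s ≠ 0 := by rw [tri_swap]; exact neg_ne_zero.mpr ht1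
  -- the frame (e1, f1, s)
  have hA1 : Ord 1 1 ν (ev ω e1 f1 s e1) := ev_shear_Ord e1 e2 s e1 (-c) ν hA
  have hB1 : Ord 1 1 ν (ev ω e1 f1 s e2) := ev_shear_Ord e1 e2 s e2 (-c) ν hB
  have hw1 : wc 1 1 ν (ev ω e1 f1 s e1) = (wc 1 1 ν (ev ω e1 e2 s e1)).comp (X + C (-c)) :=
    ev_shear_wc e1 e2 s e1 (-c) ν
  have hw2 : wc 1 1 ν (ev ω e1 f1 s e2) = (wc 1 1 ν (ev ω e1 e2 s e2)).comp (X + C (-c)) :=
    ev_shear_wc e1 e2 s e2 (-c) ν
  have hBf : Ord 1 1 (ν + 1) (ev ω e1 f1 s f1) := by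
    have heq : ev ω e1 f1 s f1 = ev ω e1 f1 s e2 + C (C (-c)) * ev ω e1 f1 s e1 := by
      conv_lhs => rw [hf1]
      rw [ev_add, ev_smul]
    apply Ord_succ (by norm_num)
    · rw [heq]; exact hB1.add (hA1.mul_left _)
    · rw [heq, wc_add, wc_CC_mul, hw1, hw2, hc]
      simp
  -- the frame (f1, e1, s)
  have hA2 : Ord 1 1 (ν + 1) (ev ω f1 e1 s f1) := Ord_swap_ev e1 f1 s f1 _ hBf
  have hB2 : Ord 1 1 ν (ev ω f1 e1 s e1) := Ord_swap_ev e1 f1 s e1 _ hA1
  have hcomp0 : (wc 1 1 ν (ev ω e1 f1 s e1)) ≠ 0 := by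
    rw [hw1]
    intro h
    apply ha
    have := congrArg (fun f => f.comp (X - C (-c))) h
    simpa [comp_assoc] using this
  have hcompdeg : (wc 1 1 ν (ev ω e1 f1 s e1)).natDegree + ec ℓ e1 s ≤ ν := by
    rw [hw1, natDegree_comp]
    simp only [natDegree_X_add_C, mul_one]
    exact hdeg
  have hdvd : X ^ (ec ℓ e1 s) ∣ wc 1 1 ν (ev ω f1 e1 s e1) := by
    rw [X_pow_dvd_iff]
    intro i hi
    rw [wc_swap_ev e1 f1 s e1 ν i (by omega)]
    apply coeff_eq_zero_of_natDegree_lt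
    omega
  have hb2 : wc 1 1 ν (ev ω f1 e1 s e1) ≠ 0 := by
    intro h
    apply hcomp0
    ext i
    rw [coeff_zero]
    by_cases hi : i ≤ ν
    · have := wc_swap_ev (ω := ω) e1 f1 s e1 ν (ν - i) (by omega)
      rw [h, coeff_zero, show ν - (ν - i) = i by omega] at this
      exact this.symm
    · apply coeff_eq_zero_of_natDegree_lt
      omega
  obtain ⟨h1, h2, -, h4⟩ := G.chart_main f1 e1 s ht2
  have hmul : ec ℓ e1 s ≤ (wc 1 1 ν (ev ω f1 e1 s e1)).rootMultiplicity 0 := by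
    rw [le_rootMultiplicity_iff hb2]
    simpa using hdvd
  have hroot : (wc 1 1 ν (ev ω f1 e1 s e1)).IsRoot 0 := by
    rw [← rootMultiplicity_pos hb2]; omega
  have key := II_mult_ge ν (Ec ℓ s) hν _ _ hA2 hB2 hb2 h1 h2 0 hroot
  rw [h4 0, zero_smul, add_zero] at key
  have hfc : fc ℓ s f1 e1 ≤ ec ℓ e1 s := by
    unfold fc ec
    apply Finset.card_le_card
    intro i hi
    simp only [Finset.mem_filter, Finset.mem_univ, true_and] at hi ⊢
    exact ⟨hi.1, hi.2.2⟩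
  omega

/-- the local classification at a noncentral singular point -/
theorem GData.loc_types (G : GData n ω ℓ) (w0 e2 s : Fin 3 → ℂ) (ht : tri w0 e2 s ≠ 0)
    (hA0 : (ev ω w0 e2 s w0).coeff 0 = 0) (hA1 : (ev ω w0 e2 s w0).coeff 1 = 0)
    (he : 2 ≤ ec ℓ w0 s) (hs : ((ev ω w0 e2 s e2).coeff 0).coeff 0 = 0) :
    ∃ ν, 1 ≤ ν ∧ Ord 1 1 ν (ev ω w0 e2 s w0) ∧ Ord 1 1 ν (ev ω w0 e2 s e2) ∧
      2 * ν + ec ℓ w0 s ≤ Ec ℓ s + 1 ∧
      ((Ec ℓ s + 1 = 3 * ν ∧
        (∃ r, 2 ≤ (wc 1 1 (Ec ℓ s) (Infl (ev ω w0 e2 s w0)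
          (ev ω w0 e2 s e2))).rootMultiplicity r) ∧
        (∃ r r', (wc 1 1 (Ec ℓ s) (Infl (ev ω w0 e2 s w0) (ev ω w0 e2 s e2))).IsRoot r ∧
          (wc 1 1 (Ec ℓ s) (Infl (ev ω w0 e2 s w0) (ev ω w0 e2 s e2))).IsRoot r' ∧ r ≠ r')) ∨
       (Ord 1 1 (ν + 1) (ev ω w0 e2 s w0) ∧ wc 1 1 ν (ev ω w0 e2 s e2) ≠ 0)) := by
  classical
  -- an invariant line y = 0
  have hpos : 0 < ec ℓ w0 s := by omega
  have hline : ∃ i, dot (ℓ i) s = 0 ∧ dot (ℓ i) w0 = 0 := by
    unfold ec at hpos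
    rw [Finset.card_pos] at hpos
    obtain ⟨i, hi⟩ := hpos
    simp only [Finset.mem_filter, Finset.mem_univ, true_and] at hi
    exact ⟨i, hi⟩
  obtain ⟨i0, hi0s, hi0w⟩ := hline
  have hB0 := G.B0_ne (ℓ i0) w0 e2 s ht (G.inv i0) hi0w hi0s
  set A := ev ω w0 e2 s w0 with hAdef
  set B := ev ω w0 e2 s e2 with hBdef
  set e := ec ℓ w0 s with hedef
  obtain ⟨hE, hg0, hgdeg, hgm⟩ := G.chart_main w0 e2 s ht
  rw [← hAdef, ← hBdef] at hE hg0 hgdeg hgm
  set E := Ec ℓ s with hEdef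
  set g := wc 1 1 E (Infl A B) with hgdef
  -- lemma P
  obtain ⟨c, hc, hI⟩ := G.infl_frame w0 e2 s ht
  rw [← hAdef, ← hBdef] at hI
  have hu0 : ∀ i, lc (ℓ i) w0 e2 s ≠ 0 := fun i => lc_ne ht (G.inv i).1
  obtain ⟨J, c', hc', hJ1, hJ2⟩ := lines_coeff c hc (fun i => lc (ℓ i) w0 e2 s) hu0 e (by
    rw [hedef]
    unfold ec
    refine congrArg Finset.card (Finset.filter_congr ?_)
    intro i _
    simp only [lc]
    constructor
    · rintro ⟨h1, h2⟩; exact ⟨by simpa using h2, by simpa using h1⟩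
    · rintro ⟨h1, h2⟩; exact ⟨by simpa using h2, by simpa using h1⟩)
  obtain ⟨⟨m, A', hm, hk, hAeq⟩, -⟩ := lemP e he A B J hA0 hA1 hB0 (by rw [hI, hJ1])
  have hBne : B ≠ 0 := by intro h; apply hB0; rw [h]; simp
  obtain ⟨ν, hAν, hBν, hne⟩ := exists_nu A B hBne
  have hν : 1 ≤ ν := by
    by_contra hlt
    have h0 : ν = 0 := by omega
    subst h0
    have hA00 : (wc 1 1 0 A) = 0 := by
      ext i
      by_contra h
      obtain ⟨j, hj, hj2⟩ := wc_coeff_ne 0 i A (by simpa using h)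
      have hi' : i = 0 := by omega
      have hj' : j = 0 := by omega
      subst hi' hj'
      rw [wc_coeff_eq (by norm_num), hA0] at hj2
      exact h (by simpa using hj2)
    have hB00 : (wc 1 1 0 B) = 0 := by
      ext i
      by_contra h
      obtain ⟨j, hj, hj2⟩ := wc_coeff_ne 0 i B (by simpa using h)
      have hi' : i = 0 := by omega
      have hj' : j = 0 := by omega
      subst hi' hj'
      rw [wc_coeff_eq (by norm_num), hs] at hj2
      exact h (by simpa using hj2)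
    rcases hne with h | h
    · exact h hA00
    · exact h hB00
  have hNC := NC_order ν e hν he A B m A' hAν hBν hm hk hAeq
  have hEge : 2 * ν + e ≤ E + 1 := by
    by_contra hlt
    push Not at hlt
    exact hg0 (wc_eq_zero_of_Ord (by norm_num) hNC (by omega))
  have hNCa := NC_a ν e A B m A' hAν hBν hm hAeq
  obtain ⟨hO3, hw3⟩ := wc_Infl ν hν A B hAν hBν
  refine ⟨ν, hν, hAν, hBν, hEge, ?_⟩
  set a := wc 1 1 ν A with hadef
  set b := wc 1 1 ν B with hbdef
  have hbdeg : b.natDegree ≤ ν := wc_natDegree_le ν B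
  have hInz : Infl A B ≠ 0 := by
    intro h; apply hg0; rw [hgdef, h, wc_zero]
  by_cases hD : X * a + b = 0
  · -- type D
    exfalso
    have ha0 : a ≠ 0 := by
      intro h
      rw [h, mul_zero, zero_add] at hD
      rcases hne with h' | h'
      · exact h' h
      · exact h' hD
    have hadeg : a.natDegree + e ≤ ν := hNCa.resolve_left ha0
    obtain ⟨N, hN, hN1, hN2, hN3, hN4⟩ := typeD ν hν A B hAν hBν hD ha0 hInz
    have hcN : (wc 1 1 (N + 1) (C X * A + X * B)).natDegree ≤ N := by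
      have hy : (X : R2) ^ 1 ∣ C X * A + X * B := by
        rw [pow_one, X_dvd_iff]
        simp [hA0]
      rcases wc_natDegree_of_dvd (N + 1) 1 _ hy with h | h
      · exact absurd h hN2
      · omega
    have hNe : wc 1 1 (N + 2 * ν - 1) (Infl A B) ≠ 0 := by
      rw [hN4]
      apply neg_ne_zero.mpr
      apply mul_ne_zero (mul_ne_zero _ (pow_ne_zero 2 ha0)) hN2
      rw [Ne, C_eq_zero]
      exact_mod_cast (by omega : N - ν + 1 ≠ 0)
    have hEN : E = N + 2 * ν - 1 := Ord_unique (by norm_num) hE hg0 hN3 hNe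
    have hgeq : g = - (C ((N - ν + 1 : ℕ) : ℂ) * a ^ 2 * wc 1 1 (N + 1) (C X * A + X * B)) := by
      rw [hgdef, hEN]; exact hN4
    have hgle : g.natDegree ≤ 2 * a.natDegree + N := by
      rw [hgeq, natDegree_neg]
      refine (natDegree_mul_le).trans ?_
      refine Nat.add_le_add ?_ hcN
      refine (natDegree_C_mul_le _ _).trans ?_
      exact natDegree_pow_le
    omega
  · by_cases hW : derivative a * b - a * derivative b = 0
    · -- type II
      right
      by_cases ha0 : a = 0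
      · refine ⟨Ord_succ (by norm_num) hAν ha0, ?_⟩
        rcases hne with h | h
        · exact absurd ha0 h
        · exact h
      · exfalso
        obtain ⟨c1, hc1⟩ := wronskian_prop a b ha0 hW
        exact G.no_II_a w0 e2 s ht ν hν hAν hBν c1 hc1 ha0 (hNCa.resolve_left ha0) he
    · -- type N
      left
      have hwne : wc 1 1 (3 * ν - 1) (Infl A B) ≠ 0 := by
        rw [hw3]
        exact neg_ne_zero.mpr (mul_ne_zero hD hW)
      have hE3 : E = 3 * ν - 1 := Ord_unique (by norm_num) hE hg0 hO3 hwne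
      have ha0 : a ≠ 0 := by
        intro h; apply hW; rw [h]; simp
      have hadeg : a.natDegree + e ≤ ν := hNCa.resolve_left ha0
      have hgeq : g = - ((X * a + b) * (derivative a * b - a * derivative b)) := by
        rw [hgdef, hE3]; exact hw3
      have key := uniN ν e a b g he (by omega) hadeg hbdeg hgeq hg0 (by omega)
        (fun r hr => G.chart_root w0 e2 s ht ν hAν hBν r hr)
      exact ⟨by omega, key.1, key.2⟩

/-- the local estimate at a noncentral singular point -/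
theorem GData.loc (G : GData n ω ℓ) (w0 e2 s : Fin 3 → ℂ) (ht : tri w0 e2 s ≠ 0)
    (hA0 : (ev ω w0 e2 s w0).coeff 0 = 0) (hA1 : (ev ω w0 e2 s w0).coeff 1 = 0)
    (he : 2 ≤ ec ℓ w0 s) (hs : ((ev ω w0 e2 s e2).coeff 0).coeff 0 = 0)
    (hB0 : (ev ω w0 e2 s e2).coeff 0 ≠ 0) :
    Ec ℓ s < 3 * ((ev ω w0 e2 s e2).coeff 0).rootMultiplicity 0 + ec ℓ w0 s := by
  classical
  obtain ⟨ν, hν, hAν, hBν, hEge, htyp⟩ := G.loc_types w0 e2 s ht hA0 hA1 he hs
  have hνle : ν ≤ ((ev ω w0 e2 s e2).coeff 0).rootMultiplicity 0 := by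
    rw [le_rootMultiplicity_iff hB0, C_0, sub_zero, X_pow_dvd_iff]
    intro i hi
    by_contra h
    have := hBν i 0 h
    omega
  rcases htyp with ⟨h1, -, -⟩ | ⟨h1, h2⟩
  · omega
  · obtain ⟨hE, hg0, hgdeg, hgm⟩ := G.chart_main w0 e2 s ht
    set g := wc 1 1 (Ec ℓ s) (Infl (ev ω w0 e2 s w0) (ev ω w0 e2 s e2)) with hgdef
    by_cases hd : g.natDegree = 0
    · omega
    · have hroot : ∀ r, g.IsRoot r → (wc 1 1 ν (ev ω w0 e2 s e2)).IsRoot r := by
        intro r hr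
        have := G.chart_root w0 e2 s ht ν hAν hBν r hr
        rw [wc_eq_zero_of_Ord (by norm_num) h1 (by omega), mul_zero, zero_add] at this
        exact this
      have hlt := fun r hr => G.II_lt_all w0 e2 s ht ν hν h1 hBν h2 r hr
      have key := lemR_sum _ g h2 hg0 hroot hlt hd
      have h5 : (wc 1 1 ν (ev ω w0 e2 s e2)).natDegree ≤ ν := wc_natDegree_le ν _
      omega

end Pool.Agent.Lib.MP_5bde83_ag
end

section

namespace Pool.Agent.Lib.MP_5bde83_ag

open Polynomial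

variable {n : ℕ} {ω : Fin 3 → MvPolynomial (Fin 3) ℂ} {ℓ : Fin (3 * n) → Fin 3 → ℂ}

/-- the derivative of `ω` at `p` in direction `e`, evaluated on `w` -/
noncomputable def db (ω : Fin 3 → MvPolynomial (Fin 3) ℂ) (p e w : Fin 3 → ℂ) : ℂ :=
  ∑ j, w j * ∑ k, e k * MvPolynomial.eval p (MvPolynomial.pderiv k (ω j))

theorem db_add_e (p e e' w : Fin 3 → ℂ) : db ω p (e + e') w = db ω p e w + db ω p e' w := by
  simp only [db, Pi.add_apply, Fin.sum_univ_three]; ring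

theorem db_smul_e (p e w : Fin 3 → ℂ) (c : ℂ) : db ω p (c • e) w = c * db ω p e w := by
  simp only [db, Pi.smul_apply, smul_eq_mul, Fin.sum_univ_three]; ring

theorem db_smul_w (p e w : Fin 3 → ℂ) (c : ℂ) : db ω p e (c • w) = c * db ω p e w := by
  simp only [db, Pi.smul_apply, smul_eq_mul, Fin.sum_univ_three]; ring

theorem pderiv_hom (F : MvPolynomial (Fin 3) ℂ) (m : ℕ) (hF : F.IsHomogeneous (m + 1)) (k : Fin 3) :
    (MvPolynomial.pderiv k F).IsHomogeneous m := by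
  have := hF.pderiv (i := k)
  simpa using this

theorem db_smul_p (h : ∀ j, (ω j).IsHomogeneous (n + 1)) (p e w : Fin 3 → ℂ) (c : ℂ) :
    db ω (c • p) e w = c ^ n * db ω p e w := by
  have : ∀ j k, MvPolynomial.eval (c • p) (MvPolynomial.pderiv k (ω j)) =
      c ^ n * MvPolynomial.eval p (MvPolynomial.pderiv k (ω j)) :=
    fun j k => eval_smul_hom _ n (pderiv_hom _ n (h j) k) c p
  simp only [db, this, Fin.sum_univ_three]; ring

theorem Dy_aeval (e1 e2 s : Fin 3 → ℂ) (F : MvPolynomial (Fin 3) ℂ) :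
    Dy (MvPolynomial.aeval (pt e1 e2 s) F) =
      ∑ k, C (C (e2 k)) * MvPolynomial.aeval (pt e1 e2 s) (MvPolynomial.pderiv k F) := by
  induction F using MvPolynomial.induction_on with
  | C a =>
    rw [MvPolynomial.algHom_C]
    simp only [MvPolynomial.pderiv_C, map_zero, mul_zero, Finset.sum_const_zero]
    have : (algebraMap ℂ R2) a = C (C a) := rfl
    rw [this, Dy_C]
  | add p q hp hq =>
    simp only [map_add, Dy_add, hp, hq, mul_add, Finset.sum_add_distrib]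
  | mul_X p i hp =>
    have hX : Dy (pt e1 e2 s i) = C (C (e2 i)) := by
      unfold pt
      simp only [Dy_add, Dy_mul, Dy_C, Dy_X]
      ring
    rw [map_mul, MvPolynomial.aeval_X, Dy_mul, hp, hX, Fin.sum_univ_three, Fin.sum_univ_three]
    simp only [Derivation.leibniz, MvPolynomial.pderiv_X, smul_eq_mul, map_add, map_mul,
      MvPolynomial.aeval_X]
    fin_cases i
    · simp; ring
    · simp; ring
    · simp; ring

theorem coeff_one_eval (e1 e2 s w : Fin 3 → ℂ) (x : ℂ) :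
    ((ev ω e1 e2 s w).coeff 1).eval x = db ω (x • e1 + s) e2 w := by
  have h1 : (Dy (ev ω e1 e2 s w)).coeff 0 = (ev ω e1 e2 s w).coeff 1 := by
    rw [Dy_coeff]; simp
  rw [← h1]
  have h2 : Dy (ev ω e1 e2 s w) = ∑ j, C (C (w j)) *
      ∑ k, C (C (e2 k)) * MvPolynomial.aeval (pt e1 e2 s) (MvPolynomial.pderiv k (ω j)) := by
    unfold ev
    rw [Dy_sum]
    apply Finset.sum_congr rfl
    intro j _
    rw [Dy_C_mul, Dy_aeval]
  rw [coeff_zero_eq_eval_zero, h2]
  have h3 : ∀ F : MvPolynomial (Fin 3) ℂ,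
      eval x (eval 0 (MvPolynomial.aeval (pt e1 e2 s) F)) = MvPolynomial.eval (x • e1 + s) F := by
    intro F
    induction F using MvPolynomial.induction_on with
    | C a =>
      rw [MvPolynomial.algHom_C, MvPolynomial.eval_C]
      have : (algebraMap ℂ R2) a = C (C a) := rfl
      rw [this, eval_C, eval_C]
    | add p q hp hq => simp only [map_add, eval_add, hp, hq]
    | mul_X p i hp =>
      simp only [map_mul, MvPolynomial.aeval_X, eval_mul, hp, MvPolynomial.eval_X]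
      congr 1
      simp [pt]
      ring
  simp only [eval_finsetSum, eval_mul, eval_C, h3, db]

end Pool.Agent.Lib.MP_5bde83_ag
end
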