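import Pool.Agent.Lib.MP_5bde83_ag.CenterEx

section

namespace Pool.Agent.Lib.MP_5bde83_ag

open Polynomial

variable {n : ℕ} {ω : Fin 3 → MvPolynomial (Fin 3) ℂ} {ℓ : Fin (3 * n) → Fin 3 → ℂ}

/-- intersection points of different invariant lines are singular -/
theorem inter_sing {l l' p w : Fin 3 → ℂ} (hi : InvLine ω l) (hj : InvLine ω l')
    (h1 : dot l p = 0) (h2 : dot l' p = 0) (h3 : dot l w = 0) (h4 : dot l' w ≠ 0) :
    evv ω p = 0 := by
  obtain ⟨c, hc⟩ := hi.2 p h1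
  obtain ⟨c', hc'⟩ := hj.2 p h2
  have h5 : c' * dot l' w = 0 := by
    have : dot (evv ω p) w = c * dot l w := by rw [hc, smul_dot]
    rw [hc', smul_dot, h3, mul_zero] at this
    exact this
  have h6 : c' = 0 := (mul_eq_zero.mp h5).resolve_right h4
  rw [hc', h6, zero_smul]

theorem ec_congr {l a b a' b' : Fin 3 → ℂ} (hl : l ≠ 0) (ha : dot l a = 0) (hb : dot l b = 0)
    (hab : cr a b ≠ 0) (ha' : dot l a' = 0) (hb' : dot l b' = 0) (hab' : cr a' b' ≠ 0) :
    ec ℓ a b = ec ℓ a' b' := by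
  classical
  unfold ec
  refine congrArg Finset.card (Finset.filter_congr ?_)
  intro i _
  constructor
  · rintro ⟨h1, h2⟩
    obtain ⟨x, y, hxy⟩ := line_span hl ha hb hab ha'
    obtain ⟨z, w, hzw⟩ := line_span hl ha hb hab hb'
    constructor
    · rw [hzw, dot_add, dot_smul, dot_smul, h1, h2]; ring
    · rw [hxy, dot_add, dot_smul, dot_smul, h1, h2]; ring
  · rintro ⟨h1, h2⟩
    obtain ⟨x, y, hxy⟩ := line_span hl ha' hb' hab' ha
    obtain ⟨z, w, hzw⟩ := line_span hl ha' hb' hab' hb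
    constructor
    · rw [hzw, dot_add, dot_smul, dot_smul, h1, h2]; ring
    · rw [hxy, dot_add, dot_smul, dot_smul, h1, h2]; ring

theorem cr_ne_of_tri {a e b : Fin 3 → ℂ} (h : tri a e b ≠ 0) : cr a b ≠ 0 := by
  intro h0
  apply h
  rw [tri_eq_dot_cr, cr_swap, h0]
  simp [dot]

theorem B0_root_iff {l w0 e2 s1 : Fin 3 → ℂ} (ht : tri w0 e2 s1 ≠ 0) (hl : InvLine ω l)
    (hw : dot l w0 = 0) (hs : dot l s1 = 0) (x : ℂ) :
    ((ev ω w0 e2 s1 e2).coeff 0).IsRoot x ↔ evv ω (x • w0 + s1) = 0 := by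
  have h1 : ((ev ω w0 e2 s1 e2).coeff 0).eval x = dot (evv ω (x • w0 + s1)) e2 := by
    have := ev_eval (ω := ω) w0 e2 s1 e2 x 0
    rw [C_0, ← coeff_zero_eq_eval_zero, zero_smul, add_zero] at this
    exact this
  rw [IsRoot.def, h1]
  have he2 : dot l e2 ≠ 0 := fun h => hl.1 (eq_zero_of_dots ht hw h hs)
  constructor
  · intro h
    obtain ⟨c, hc⟩ := hl.2 (x • w0 + s1) (by rw [dot_add, dot_smul, hw, hs]; ring)
    rw [hc, smul_dot] at h
    rw [hc, (mul_eq_zero.mp h).resolve_right he2, zero_smul]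
  · intro h
    rw [h]; simp [dot]

theorem GData.line_data (G : GData n ω ℓ) (l w0 e2 s1 : Fin 3 → ℂ) (ht : tri w0 e2 s1 ≠ 0)
    (hl : InvLine ω l) (hcen : IsCenter ω l w0) (hs : dot l s1 = 0) (he : 2 ≤ ec ℓ w0 s1) :
    (ev ω w0 e2 s1 e2).coeff 0 ≠ 0 ∧ ∃ J0 P : Polynomial ℂ, J0 ≠ 0 ∧
      J0 = (ev ω w0 e2 s1 e2).coeff 0 * (derivative P * (ev ω w0 e2 s1 e2).coeff 0
        - P * derivative ((ev ω w0 e2 s1 e2).coeff 0)) ∧
      J0.natDegree + Ec ℓ w0 = 3 * n ∧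
      (∀ x, J0.IsRoot x → ((ev ω w0 e2 s1 e2).coeff 0).IsRoot x) ∧
      (∀ x, ((ev ω w0 e2 s1 e2).coeff 0).IsRoot x →
        J0.rootMultiplicity x < 3 * ((ev ω w0 e2 s1 e2).coeff 0).rootMultiplicity x) := by
  classical
  have hB0 := G.B0_ne l w0 e2 s1 ht hl hcen.2.1 hs
  obtain ⟨hA0, hA1⟩ := hcen.coeff G.fol.euler hl e2 s1 hs
  obtain ⟨c, hc, hI⟩ := G.infl_frame w0 e2 s1 ht
  have hu0 : ∀ i, lc (ℓ i) w0 e2 s1 ≠ 0 := fun i => lc_ne ht (G.inv i).1
  obtain ⟨J, c', hc', hJ1, hJ2⟩ := lines_coeff c hc (fun i => lc (ℓ i) w0 e2 s1) hu0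
    (ec ℓ w0 s1) (by
    unfold ec
    refine congrArg Finset.card (Finset.filter_congr ?_)
    intro i _
    simp only [lc]
    constructor
    · rintro ⟨h1, h2⟩; exact ⟨by simpa using h2, by simpa using h1⟩
    · rintro ⟨h1, h2⟩; exact ⟨by simpa using h2, by simpa using h1⟩)
  obtain ⟨-, P, hP⟩ := lemP _ he _ _ J hA0 hA1 hB0 (by rw [hI, hJ1])
  set S := Finset.univ.filter
    (fun i => ¬ ((lc (ℓ i) w0 e2 s1) 0 = 0 ∧ (lc (ℓ i) w0 e2 s1) 2 = 0)) with hS
  set u' : Fin (3 * n) → Fin 3 → ℂ := fun i => ![dot (ℓ i) w0, dot (ℓ i) s1, 0] with hu'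
  have hJ3 : J.coeff 0 = C c' * ∏ i ∈ S, (C (u' i 0) * X + C (u' i 1)) := by
    rw [hJ2]
    congr 1
  have hSu : ∀ i ∈ S, u' i 0 ≠ 0 ∨ u' i 1 ≠ 0 := by
    intro i hi
    rw [hS, Finset.mem_filter] at hi
    by_contra hcon
    push Not at hcon
    apply hi.2
    exact ⟨hcon.1, hcon.2⟩
  obtain ⟨hne, hdeg⟩ := lines_natDegree c' hc' S u' hSu
  have hmult : ∀ x, (J.coeff 0).rootMultiplicity x =
      (Finset.univ.filter (fun i => dot (ℓ i) w0 ≠ 0 ∧ dot (ℓ i) (x • w0 + s1) = 0)).card := by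
    intro x
    rw [hJ3, lines_rootMultiplicity c' hc' S u' hSu, hS, Finset.filter_filter]
    refine congrArg Finset.card (Finset.filter_congr ?_)
    intro i _
    simp only [hu', lc, dot_add, dot_smul]
    constructor
    · rintro ⟨h1, h2, h3⟩
      refine ⟨by simpa using h2, ?_⟩
      have h3' : dot (ℓ i) w0 * x + dot (ℓ i) s1 = 0 := by simpa using h3
      linear_combination h3'
    · rintro ⟨h1, h2⟩
      refine ⟨?_, by simpa using h1, ?_⟩
      · rintro ⟨h3, -⟩; exact h1 (by simpa using h3)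
      · have : dot (ℓ i) w0 * x + dot (ℓ i) s1 = 0 := by linear_combination h2
        simpa using this
  refine ⟨hB0, J.coeff 0, P, ?_, hP, ?_, ?_, ?_⟩
  · rw [hJ3]; exact hne
  · rw [hJ3, hdeg, hS, Finset.filter_filter]
    have h1 : (Finset.univ.filter (fun i => ¬ ((lc (ℓ i) w0 e2 s1) 0 = 0 ∧
        (lc (ℓ i) w0 e2 s1) 2 = 0) ∧ u' i 0 ≠ 0)) =
        Finset.univ.filter (fun i => ¬ (dot (ℓ i) w0 = 0)) := by
      apply Finset.filter_congr
      intro i _
      constructor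
      · rintro ⟨-, h⟩; simpa [hu'] using h
      · intro h
        refine ⟨?_, by simpa [hu'] using h⟩
        rintro ⟨h3, -⟩; exact h (by simpa [lc] using h3)
    rw [h1]
    unfold Ec
    have := Finset.card_filter_add_card_filter_not (s := (Finset.univ : Finset (Fin (3 * n))))
      (fun i => dot (ℓ i) w0 = 0)
    rw [add_comm, this]
    simp
  · intro x hx
    have hJne : J.coeff 0 ≠ 0 := by rw [hJ3]; exact hne
    have hpos := (rootMultiplicity_pos hJne).mpr hx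
    rw [hmult, Finset.card_pos] at hpos
    obtain ⟨i, hi⟩ := hpos
    simp only [Finset.mem_filter, Finset.mem_univ, true_and] at hi
    rw [B0_root_iff ht hl hcen.2.1 hs]
    exact inter_sing hl (G.inv i) (by rw [dot_add, dot_smul, hcen.2.1, hs]; ring) hi.2
      hcen.2.1 hi.1
  · intro x hx
    rw [hmult]
    have hs' : dot l (s1 + x • w0) = 0 := by rw [dot_add, dot_smul, hcen.2.1, hs]; ring
    have ht' : tri w0 e2 (s1 + x • w0) ≠ 0 := by rw [tri_trans]; exact ht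
    obtain ⟨hA0', hA1'⟩ := hcen.coeff G.fol.euler hl e2 (s1 + x • w0) hs'
    have hcoef : (ev ω w0 e2 (s1 + x • w0) e2).coeff 0 =
        ((ev ω w0 e2 s1 e2).coeff 0).comp (X + C x) := ev_trans w0 e2 s1 e2 x 0
    have hec : ec ℓ w0 (s1 + x • w0) = ec ℓ w0 s1 :=
      ec_congr hl.1 hcen.2.1 hs' (cr_ne_of_tri ht') hcen.2.1 hs (cr_ne_of_tri ht)
    have hloc := G.loc w0 e2 (s1 + x • w0) ht' hA0' hA1' (by rw [hec]; exact he) (by
      rw [hcoef, coeff_zero_eq_eval_zero, eval_comp]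
      simpa using hx) (by
      rw [hcoef]
      intro h
      apply hB0
      have := congrArg (fun f => f.comp (X - C x)) h
      simpa [comp_assoc] using this)
    rw [hcoef, ← rootMultiplicity_eq_rootMultiplicity] at hloc
    have hcount : Ec ℓ (s1 + x • w0) = (Finset.univ.filter (fun i => dot (ℓ i) w0 ≠ 0 ∧
        dot (ℓ i) (x • w0 + s1) = 0)).card + ec ℓ w0 (s1 + x • w0) := by
      unfold Ec ec
      rw [← Finset.card_filter_add_card_filter_not
        (s := Finset.univ.filter (fun i => dot (ℓ i) (s1 + x • w0) = 0))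
        (fun i => dot (ℓ i) w0 ≠ 0), Finset.filter_filter, Finset.filter_filter]
      congr 1
      · refine congrArg Finset.card (Finset.filter_congr ?_)
        intro i _
        rw [add_comm (x • w0) s1]
        exact and_comm
      · refine congrArg Finset.card (Finset.filter_congr ?_)
        intro i _
        rw [not_not]
    omega

/-- a line of multiplicity at least two contains at most two singular points -/
theorem GData.crux (G : GData n ω ℓ) (l u1 u2 u3 : Fin 3 → ℂ) (hl : InvLine ω l)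
    (h1 : dot l u1 = 0) (h2 : dot l u2 = 0) (h3 : dot l u3 = 0) (h12 : cr u1 u2 ≠ 0)
    (h13 : cr u1 u3 ≠ 0) (h23 : cr u2 u3 ≠ 0) (s1 : evv ω u1 = 0) (s2 : evv ω u2 = 0)
    (s3 : evv ω u3 = 0) (he : 2 ≤ ec ℓ u1 u2) : False := by
  obtain ⟨w0, hw0⟩ := G.center_exists l u1 u2 hl h1 h2 h12 he
  -- a second point b on the line
  have hb : ∃ b, dot l b = 0 ∧ cr w0 b ≠ 0 := by
    by_contra hcon
    push Not at hcon
    have c1 := hcon u1 h1
    have c2 := hcon u2 h2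
    obtain ⟨x, y, hxy⟩ := line_span hl.1 h1 h2 h12 hw0.2.1
    have e1 : cr w0 u1 = (-y) • cr u1 u2 := by
      rw [hxy]; funext j; fin_cases j <;> simp [cr] <;> ring
    have e2 : cr w0 u2 = x • cr u1 u2 := by
      rw [hxy]; funext j; fin_cases j <;> simp [cr] <;> ring
    rw [c1] at e1; rw [c2] at e2
    have hy : y = 0 := by
      have := (smul_eq_zero.mp e1.symm).resolve_right h12
      simpa using this
    have hx : x = 0 := (smul_eq_zero.mp e2.symm).resolve_right h12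
    apply hw0.1
    rw [hxy, hx, hy]; simp
  obtain ⟨b, hb1, hb2⟩ := hb
  obtain ⟨e2, he2⟩ := exists_transversal hb2
  have hec : 2 ≤ ec ℓ w0 b := by
    rw [← ec_congr hl.1 h1 h2 h12 hw0.2.1 hb1 hb2]; exact he
  obtain ⟨hB0, J0, P, hJ0, hJP, hdeg, hroot, hlt⟩ := G.line_data l w0 e2 b he2 hl hw0 hb1 hec
  have huniq := lemR _ _ P hB0 hJ0 hJP hroot hlt
  obtain ⟨x1, y1, e1⟩ := line_span hl.1 hw0.2.1 hb1 hb2 h1
  obtain ⟨x2, y2, e2'⟩ := line_span hl.1 hw0.2.1 hb1 hb2 h2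
  obtain ⟨x3, y3, e3⟩ := line_span hl.1 hw0.2.1 hb1 hb2 h3
  have hr : ∀ x y : ℂ, y ≠ 0 → evv ω (x • w0 + y • b) = 0 →
      ((ev ω w0 e2 b e2).coeff 0).IsRoot (x / y) := by
    intro x y hy h
    rw [B0_root_iff he2 hl hw0.2.1 hb1]
    have : (x / y) • w0 + b = (1 / y) • (x • w0 + y • b) := by
      rw [smul_add, smul_smul, smul_smul]
      congr 1
      · congr 1; field_simp
      · rw [one_div, inv_mul_cancel₀ hy, one_smul]
    rw [this, evv_smul G.fol.hom, h, smul_zero]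
  have hcr : ∀ x y x' y' : ℂ, cr (x • w0 + y • b) (x' • w0 + y' • b) = (x * y' - y * x') • cr w0 b := by
    intro x y x' y'
    funext j; fin_cases j <;> simp [cr] <;> ring
  rw [e1, e2', hcr] at h12
  rw [e1, e3, hcr] at h13
  rw [e2', e3, hcr] at h23
  have k12 : x1 * y2 - y1 * x2 ≠ 0 := fun h => h12 (by rw [h, zero_smul])
  have k13 : x1 * y3 - y1 * x3 ≠ 0 := fun h => h13 (by rw [h, zero_smul])
  have k23 : x2 * y3 - y2 * x3 ≠ 0 := fun h => h23 (by rw [h, zero_smul])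
  by_cases hy1 : y1 = 0
  · have hy2 : y2 ≠ 0 := by rintro rfl; apply k12; rw [hy1]; ring
    have hy3 : y3 ≠ 0 := by rintro rfl; apply k13; rw [hy1]; ring
    have := huniq _ _ (hr x2 y2 hy2 (by rw [← e2']; exact s2)) (hr x3 y3 hy3 (by rw [← e3]; exact s3))
    rw [div_eq_div_iff hy2 hy3] at this
    apply k23; linear_combination this
  · by_cases hy2 : y2 = 0
    · have hy3 : y3 ≠ 0 := by rintro rfl; apply k23; rw [hy2]; ring
      have := huniq _ _ (hr x1 y1 hy1 (by rw [← e1]; exact s1)) (hr x3 y3 hy3 (by rw [← e3]; exact s3))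
      rw [div_eq_div_iff hy1 hy3] at this
      apply k13; linear_combination this
    · have := huniq _ _ (hr x1 y1 hy1 (by rw [← e1]; exact s1)) (hr x2 y2 hy2 (by rw [← e2']; exact s2))
      rw [div_eq_div_iff hy1 hy2] at this
      apply k12; linear_combination this

end Pool.Agent.Lib.MP_5bde83_ag
end

section

namespace Pool.Agent.Lib.MP_5bde83_ag

open Polynomial

variable {n : ℕ} {ω : Fin 3 → MvPolynomial (Fin 3) ℂ} {ℓ : Fin (3 * n) → Fin 3 → ℂ}

theorem coeff0_eval (e1 e2 s w : Fin 3 → ℂ) (x : ℂ) :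
    ((ev ω e1 e2 s w).coeff 0).eval x = dot (evv ω (x • e1 + s)) w := by
  have := ev_eval (ω := ω) e1 e2 s w x 0
  rw [C_0, ← coeff_zero_eq_eval_zero, zero_smul, add_zero] at this
  exact this

/-- `coeff 0` does not depend on the transversal -/
theorem ev_coeff0_indep (e1 e2 e2' s w : Fin 3 → ℂ) :
    (ev ω e1 e2 s w).coeff 0 = (ev ω e1 e2' s w).coeff 0 := by
  rw [← sub_eq_zero]
  apply poly_zero_of_eval
  intro x _
  rw [eval_sub, coeff0_eval, coeff0_eval, sub_self]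

/-- common facts at the origin of a frame with `y = 0` invariant: existence of `ν ≥ 1` -/
theorem exists_nu_pos (A B : R2) (hB : B ≠ 0) (hA0 : A.coeff 0 = 0)
    (hs : (B.coeff 0).coeff 0 = 0) :
    ∃ ν, 1 ≤ ν ∧ Ord 1 1 ν A ∧ Ord 1 1 ν B ∧ (wc 1 1 ν A ≠ 0 ∨ wc 1 1 ν B ≠ 0) := by
  obtain ⟨ν, hAν, hBν, hne⟩ := exists_nu A B hB
  refine ⟨ν, ?_, hAν, hBν, hne⟩
  by_contra hlt
  have h0 : ν = 0 := by omega
  subst h0
  have hA00 : (wc 1 1 0 A) = 0 := by
    ext i
    by_contra h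
    obtain ⟨j, hj, hj2⟩ := wc_coeff_ne 0 i A (by simpa using h)
    have hi' : i = 0 := by omega
    have hj' : j = 0 := by omega
    subst hi' hj'
    rw [wc_coeff_eq (by norm_num), hA0] at hj2
    exact h (by simpa using hj2)
  have hB00 : (wc 1 1 0 B) = 0 := by
    ext i
    by_contra h
    obtain ⟨j, hj, hj2⟩ := wc_coeff_ne 0 i B (by simpa using h)
    have hi' : i = 0 := by omega
    have hj' : j = 0 := by omega
    subst hi' hj'
    rw [wc_coeff_eq (by norm_num), hs] at hj2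
    exact h (by simpa using hj2)
  rcases hne with h | h
  · exact h hA00
  · exact h hB00

/-- the degree of the polynomial `A` -/
theorem ev_wc_zero (h : ∀ j, (ω j).IsHomogeneous (n + 1)) (e1 e2 s w : Fin 3 → ℂ) (k : ℕ)
    (hk : n + 1 < k) : wc 1 1 k (ev ω e1 e2 s w) = 0 := by
  ext i
  by_contra hne
  obtain ⟨j, hj, hj2⟩ := wc_coeff_ne k i (ev ω e1 e2 s w) (by simpa using hne)
  rw [wc_coeff_eq (by norm_num)] at hj2
  have := ev_deg h e1 e2 s w i j (by rw [← hj2]; simpa using hne)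
  omega

/-- at the center of a line, if almost all lines pass through the center, there is a point
of multiplicity `n` -/
theorem GData.center_star (G : GData n ω ℓ) (hn : 1 ≤ n) (l w0 e2 s1 : Fin 3 → ℂ)
    (ht : tri w0 e2 s1 ≠ 0) (hl : InvLine ω l) (hcen : IsCenter ω l w0) (hs : dot l s1 = 0)
    (hE : Ec ℓ w0 = 3 * n ∨ (Ec ℓ w0 + 1 = 3 * n ∧
      1 ≤ ((ev ω w0 e2 s1 e2).coeff 0).natDegree)) : Star n ω := by
  classical
  have ht' : tri s1 e2 w0 ≠ 0 := by rw [tri_swap13]; exact neg_ne_zero.mpr ht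
  have hA0 : (ev ω s1 e2 w0 s1).coeff 0 = 0 := ev_inv_y G.fol.euler l s1 e2 w0 hl hs hcen.2.1
  have hB0 := G.B0_ne l s1 e2 w0 ht' hl hs hcen.2.1
  have hB0' := G.B0_ne l w0 e2 s1 ht hl hcen.2.1 hs
  -- center condition
  have hcoefw : (ev ω s1 e2 w0 w0).coeff 1 = 0 := by
    apply poly_zero_of_eval
    intro x _
    rw [coeff_one_eval]
    apply hcen.2.2
    rw [dot_add, dot_smul, hs, hcen.2.1]; ring
  have hC1 : X * (ev ω s1 e2 w0 s1).coeff 1 + (ev ω s1 e2 w0 e2).coeff 0 = 0 := by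
    have h4 := congrArg (fun f => f.coeff 1) (ev_euler G.fol.euler s1 e2 w0)
    simp only [coeff_add, coeff_C_mul, coeff_X_mul, coeff_zero, hcoefw] at h4
    simpa using h4
  have hs0 : ((ev ω s1 e2 w0 e2).coeff 0).coeff 0 = 0 := by
    have := congrArg (fun f => f.coeff 0) hC1
    simpa using this
  -- order of B0 at the center
  set k1 := ((ev ω s1 e2 w0 e2).coeff 0).natTrailingDegree with hk1
  have hk1a : ((ev ω s1 e2 w0 e2).coeff 0).coeff k1 ≠ 0 := mt trailingCoeff_eq_zero.mp hB0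
  have hk1b : ∀ j < k1, ((ev ω s1 e2 w0 e2).coeff 0).coeff j = 0 :=
    fun j hj => coeff_eq_zero_of_lt_natTrailingDegree hj
  have hk1c : k1 + ((ev ω w0 e2 s1 e2).coeff 0).natDegree ≤ n + 1 := by
    set d := ((ev ω w0 e2 s1 e2).coeff 0).natDegree with hd
    have hlead : ((ev ω w0 e2 s1 e2).coeff 0).coeff d ≠ 0 := by
      rw [hd]; exact mt leadingCoeff_eq_zero.mp hB0'
    have hdn : d + 0 ≤ n + 1 := ev_deg G.fol.hom w0 e2 s1 e2 d 0 hlead
    have hrev := ev_rev G.fol.hom w0 e2 s1 e2 d 0 (n + 1 - d) (by omega)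
    rw [hrev] at hlead
    by_contra hcon
    push Not at hcon
    exact hlead (hk1b _ (by omega))
  have hBne : ev ω s1 e2 w0 e2 ≠ 0 := by intro h; apply hB0; rw [h]; simp
  obtain ⟨ν, hν, hAν, hBν, hne⟩ := exists_nu_pos _ _ hBne hA0 hs0
  obtain ⟨hEO, hg0, hgdeg, hgm⟩ := G.chart_main s1 e2 w0 ht'
  obtain ⟨hO3, hw3⟩ := wc_Infl ν hν _ _ hAν hBν
  have hInz : Infl (ev ω s1 e2 w0 s1) (ev ω s1 e2 w0 e2) ≠ 0 := by
    intro h; apply hg0; rw [h, wc_zero]
  set a := wc 1 1 ν (ev ω s1 e2 w0 s1) with hadef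
  set b := wc 1 1 ν (ev ω s1 e2 w0 e2) with hbdef
  by_cases hD : X * a + b = 0
  · -- type D
    exfalso
    have ha0 : a ≠ 0 := by
      intro h
      rw [h, mul_zero, zero_add] at hD
      rcases hne with h' | h'
      · exact h' h
      · exact h' hD
    obtain ⟨N, hN, hN1, hN2, hN3, hN4⟩ := typeD ν hν _ _ hAν hBν hD ha0 hInz
    have hNe : wc 1 1 (N + 2 * ν - 1) (Infl (ev ω s1 e2 w0 s1) (ev ω s1 e2 w0 e2)) ≠ 0 := by
      rw [hN4]
      apply neg_ne_zero.mpr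
      apply mul_ne_zero (mul_ne_zero _ (pow_ne_zero 2 ha0)) hN2
      rw [Ne, C_eq_zero]
      exact_mod_cast (by omega : N - ν + 1 ≠ 0)
    have hEN : Ec ℓ w0 = N + 2 * ν - 1 := Ord_unique (by norm_num) hEO hg0 hN3 hNe
    have hNn : N ≤ n := by
      by_contra hcon
      push Not at hcon
      apply hN2
      have h5 : C X * ev ω s1 e2 w0 s1 + X * ev ω s1 e2 w0 e2 = - ev ω s1 e2 w0 w0 := by
        linear_combination ev_euler G.fol.euler s1 e2 w0
      rw [h5, wc_neg, ev_wc_zero G.fol.hom _ _ _ _ _ (by omega), neg_zero]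
    rcases hE with h | ⟨h, -⟩ <;> omega
  · have hupper : ∀ ν', 2 * n ≤ 2 * ν' → Ord 1 1 ν' (ev ω s1 e2 w0 s1) →
        Ord 1 1 ν' (ev ω s1 e2 w0 e2) → Star n ω := by
      intro ν' h h1 h2
      exact ⟨s1, e2, w0, ht', h1.mono (by omega), h2.mono (by omega)⟩
    by_cases hW : derivative a * b - a * derivative b = 0
    · by_cases ha0 : a = 0
      · -- type II, the line is the special line
        have hAν' := Ord_succ (by norm_num) hAν ha0
        have hb0 : b ≠ 0 := by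
          rcases hne with h | h
          · exact absurd ha0 h
          · exact h
        have key := II_upper_star ν (Ec ℓ w0) hν _ _ hAν' hBν hb0 hEO hg0 hC1 k1 hk1b hk1a
        refine hupper ν ?_ hAν hBν
        rcases hE with h | ⟨h, h'⟩ <;> omega
      · -- type II, the line is not the special line
        obtain ⟨c1, hc1⟩ := wronskian_prop a b ha0 hW
        set f1 := e2 + (-c1) • s1 with hf1
        have ht1 : tri s1 f1 w0 ≠ 0 := by rw [hf1, tri_shear]; exact ht'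
        have ht2 : tri f1 s1 w0 ≠ 0 := by rw [tri_swap]; exact neg_ne_zero.mpr ht1
        have hA1 : Ord 1 1 ν (ev ω s1 f1 w0 s1) := ev_shear_Ord s1 e2 w0 s1 (-c1) ν hAν
        have hB1 : Ord 1 1 ν (ev ω s1 f1 w0 e2) := ev_shear_Ord s1 e2 w0 e2 (-c1) ν hBν
        have hw1 : wc 1 1 ν (ev ω s1 f1 w0 s1) = a.comp (X + C (-c1)) :=
          ev_shear_wc s1 e2 w0 s1 (-c1) ν
        have hw2 : wc 1 1 ν (ev ω s1 f1 w0 e2) = b.comp (X + C (-c1)) :=
          ev_shear_wc s1 e2 w0 e2 (-c1) ν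
        have heq : ev ω s1 f1 w0 f1 = ev ω s1 f1 w0 e2 + C (C (-c1)) * ev ω s1 f1 w0 s1 := by
          conv_lhs => rw [hf1]
          rw [ev_add, ev_smul]
        have hBf : Ord 1 1 (ν + 1) (ev ω s1 f1 w0 f1) := by
          apply Ord_succ (by norm_num)
          · rw [heq]; exact hB1.add (hA1.mul_left _)
          · rw [heq, wc_add, wc_CC_mul, hw1, hw2, hc1]
            simp
        have hA2 : Ord 1 1 (ν + 1) (ev ω f1 s1 w0 f1) := Ord_swap_ev s1 f1 w0 f1 _ hBf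
        have hB2 : Ord 1 1 ν (ev ω f1 s1 w0 s1) := Ord_swap_ev s1 f1 w0 s1 _ hA1
        have hcomp0 : (wc 1 1 ν (ev ω s1 f1 w0 s1)) ≠ 0 := by
          rw [hw1]
          intro h
          apply ha0
          have := congrArg (fun f => f.comp (X - C (-c1))) h
          simpa [comp_assoc] using this
        have hb2 : wc 1 1 ν (ev ω f1 s1 w0 s1) ≠ 0 := by
          intro h
          apply hcomp0
          ext i
          rw [coeff_zero]
          by_cases hi : i ≤ ν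
          · have := wc_swap_ev (ω := ω) s1 f1 w0 s1 ν (ν - i) (by omega)
            rw [h, coeff_zero, show ν - (ν - i) = i by omega] at this
            exact this.symm
          · apply coeff_eq_zero_of_natDegree_lt
            have := wc_natDegree_le ν (ev ω s1 f1 w0 s1)
            omega
        have hx := ev_inv_x G.fol.euler l f1 s1 w0 hl hs hcen.2.1
        obtain ⟨hEO2, hg02, -, -⟩ := G.chart_main f1 s1 w0 ht2
        have hk : ((ev ω f1 s1 w0 f1).coeff k1).coeff 0 ≠ 0 := by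
          rw [ev_swap, ev_coeff0_indep s1 f1 e2 w0 f1]
          have : ev ω s1 e2 w0 f1 = ev ω s1 e2 w0 e2 + C (C (-c1)) * ev ω s1 e2 w0 s1 := by
            rw [hf1, ev_add, ev_smul]
          rw [this, coeff_add, coeff_C_mul, hA0, mul_zero, add_zero]
          exact hk1a
        have key := (II_upper_lambda ν (Ec ℓ w0) hν _ _ hA2 hB2 hb2 hEO2 hg02 hx k1 hk).1
        refine hupper ν ?_ hAν hBν
        rcases hE with h | ⟨h, h'⟩ <;> omega
    · -- type N
      have hwne : wc 1 1 (3 * ν - 1) (Infl (ev ω s1 e2 w0 s1) (ev ω s1 e2 w0 e2)) ≠ 0 := by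
        rw [hw3]
        exact neg_ne_zero.mpr (mul_ne_zero hD hW)
      have hE3 : Ec ℓ w0 = 3 * ν - 1 := Ord_unique (by norm_num) hEO hg0 hO3 hwne
      refine hupper ν ?_ hAν hBν
      rcases hE with h | ⟨h, h'⟩ <;> omega

end Pool.Agent.Lib.MP_5bde83_ag
end

section

namespace Pool.Agent.Lib.MP_5bde83_ag

open Polynomial

variable {n : ℕ} {ω : Fin 3 → MvPolynomial (Fin 3) ℂ} {ℓ : Fin (3 * n) → Fin 3 → ℂ}

theorem cr_lin (x y x' y' : ℂ) (a b : Fin 3 → ℂ) :
    cr (x • a + y • b) (x' • a + y' • b) = (x * y' - y * x') • cr a b := by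
  funext j; fin_cases j <;> simp [cr] <;> ring

theorem cr_self (u : Fin 3 → ℂ) : cr u u = 0 := by
  funext j; fin_cases j <;> simp [cr] <;> ring

theorem eq_smul_of_cr {u v : Fin 3 → ℂ} (h : cr u v = 0) (hv : v ≠ 0) : ∃ c : ℂ, u = c • v := by
  have h0 := congrFun h 0
  have h1 := congrFun h 1
  have h2 := congrFun h 2
  simp only [cr, Matrix.cons_val_zero, Matrix.cons_val_one, Matrix.cons_val_two, Matrix.head_cons,
    Matrix.tail_cons, Pi.zero_apply] at h0 h1 h2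
  obtain ⟨j, hj⟩ : ∃ j, v j ≠ 0 := by
    by_contra hcon
    push Not at hcon
    exact hv (funext hcon)
  have e12 : u 1 * v 2 = u 2 * v 1 := by linear_combination h0
  have e20 : u 2 * v 0 = u 0 * v 2 := by linear_combination h1
  have e01 : u 0 * v 1 = u 1 * v 0 := by linear_combination h2
  refine ⟨u j / v j, ?_⟩
  funext k
  simp only [Pi.smul_apply, smul_eq_mul]
  rw [div_mul_eq_mul_div, eq_div_iff hj]
  fin_cases j <;> fin_cases k
  · rfl
  · exact e01.symm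
  · exact e20
  · exact e01
  · rfl
  · exact e12.symm
  · exact e20.symm
  · exact e12
  · rfl

theorem exists_line_basis {l : Fin 3 → ℂ} (hl : l ≠ 0) :
    ∃ a b, dot l a = 0 ∧ dot l b = 0 ∧ cr a b ≠ 0 := by
  by_cases h0 : l 0 = 0
  · by_cases h1 : l 1 = 0
    · refine ⟨![1, 0, 0], ![0, 1, 0], ?_, ?_, ?_⟩
      · simp [dot, Fin.sum_univ_three, h0]
      · simp [dot, Fin.sum_univ_three, h1]
      · intro h
        have := congrFun h 2
        simp [cr] at this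
    · refine ⟨![1, 0, 0], ![0, l 2, - l 1], ?_, ?_, ?_⟩
      · simp [dot, Fin.sum_univ_three, h0]
      · simp [dot, Fin.sum_univ_three]; ring
      · intro h
        have := congrFun h 1
        simp [cr] at this
        exact h1 this
  · refine ⟨![l 1, - l 0, 0], ![l 2, 0, - l 0], ?_, ?_, ?_⟩
    · simp [dot, Fin.sum_univ_three]; ring
    · simp [dot, Fin.sum_univ_three]; ring
    · intro h
      have := congrFun h 0
      simp [cr] at this
      exact h0 this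

theorem exists_indep_on_line {l w : Fin 3 → ℂ} (hl : l ≠ 0) (hw : dot l w = 0) (hw0 : w ≠ 0) :
    ∃ b, dot l b = 0 ∧ cr w b ≠ 0 := by
  obtain ⟨a, b, ha, hb, hab⟩ := exists_line_basis hl
  by_contra hcon
  push Not at hcon
  have c1 := hcon a ha
  have c2 := hcon b hb
  obtain ⟨x, y, hxy⟩ := line_span hl ha hb hab hw
  have e1 : cr w a = (-y) • cr a b := by
    rw [hxy]; funext j; fin_cases j <;> simp [cr] <;> ring
  have e2 : cr w b = x • cr a b := by
    rw [hxy]; funext j; fin_cases j <;> simp [cr] <;> ring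
  rw [c1] at e1; rw [c2] at e2
  have hy : y = 0 := by
    have := (smul_eq_zero.mp e1.symm).resolve_right hab
    simpa using this
  have hx : x = 0 := (smul_eq_zero.mp e2.symm).resolve_right hab
  apply hw0
  rw [hxy, hx, hy]; simp

theorem GData.lemP_frame (G : GData n ω ℓ) (l w0 e2 s : Fin 3 → ℂ) (ht : tri w0 e2 s ≠ 0)
    (hl : InvLine ω l) (hcen : IsCenter ω l w0) (hs : dot l s = 0) (he : 2 ≤ ec ℓ w0 s) :
    ∃ m A' : R2, X ^ 2 ∣ m ∧ X ^ (ec ℓ w0 s) ∣ kap m ∧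
      ev ω w0 e2 s w0 = X ^ (ec ℓ w0 s) * A' - m * ev ω w0 e2 s e2 := by
  classical
  have hB0 := G.B0_ne l w0 e2 s ht hl hcen.2.1 hs
  obtain ⟨hA0, hA1⟩ := hcen.coeff G.fol.euler hl e2 s hs
  obtain ⟨c, hc, hI⟩ := G.infl_frame w0 e2 s ht
  have hu0 : ∀ i, lc (ℓ i) w0 e2 s ≠ 0 := fun i => lc_ne ht (G.inv i).1
  obtain ⟨J, c', hc', hJ1, hJ2⟩ := lines_coeff c hc (fun i => lc (ℓ i) w0 e2 s) hu0
    (ec ℓ w0 s) (by
    unfold ec
    refine congrArg Finset.card (Finset.filter_congr ?_)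
    intro i _
    simp only [lc]
    constructor
    · rintro ⟨h1, h2⟩; exact ⟨by simpa using h2, by simpa using h1⟩
    · rintro ⟨h1, h2⟩; exact ⟨by simpa using h2, by simpa using h1⟩)
  exact (lemP _ he _ _ J hA0 hA1 hB0 (by rw [hI, hJ1])).1

/-- in the situation of a single second line through a noncentral singular point, the point is of
type II in every frame -/
theorem GData.single_II (G : GData n ω ℓ) (l w0 e2 s1 : Fin 3 → ℂ) (ht : tri w0 e2 s1 ≠ 0)
    (hl : InvLine ω l) (hcen : IsCenter ω l w0) (hs : dot l s1 = 0) (he : 2 ≤ ec ℓ w0 s1)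
    (hsing : evv ω s1 = 0)
    (hsingle : ∀ i, dot (ℓ i) s1 = 0 → dot (ℓ i) w0 ≠ 0 → dot (ℓ i) e2 = 0) :
    ∃ ν, 1 ≤ ν ∧ Ord 1 1 (ν + 1) (ev ω w0 e2 s1 w0) ∧ Ord 1 1 ν (ev ω w0 e2 s1 e2) ∧
      wc 1 1 ν (ev ω w0 e2 s1 e2) ≠ 0 ∧ 2 * ν + ec ℓ w0 s1 ≤ Ec ℓ s1 + 1 := by
  classical
  obtain ⟨hA0, hA1⟩ := hcen.coeff G.fol.euler hl e2 s1 hs
  have hs0 : ((ev ω w0 e2 s1 e2).coeff 0).coeff 0 = 0 := by
    have : ((ev ω w0 e2 s1 e2).coeff 0).IsRoot 0 := by
      rw [B0_root_iff ht hl hcen.2.1 hs, zero_smul, zero_add]; exact hsing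
    rw [coeff_zero_eq_eval_zero]; exact this
  obtain ⟨ν, hν, hAν, hBν, hEge, htyp⟩ := G.loc_types w0 e2 s1 ht hA0 hA1 he hs0
  rcases htyp with ⟨-, -, r, r', hr, hr', hne⟩ | ⟨h1, h2⟩
  · exfalso
    obtain ⟨-, hg0, -, hgm⟩ := G.chart_main w0 e2 s1 ht
    have key : ∀ r, (wc 1 1 (Ec ℓ s1) (Infl (ev ω w0 e2 s1 w0) (ev ω w0 e2 s1 e2))).IsRoot r →
        r = 0 := by
      intro r hr
      have hpos := (rootMultiplicity_pos hg0).mpr hr
      rw [hgm r] at hpos
      unfold fc at hpos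
      rw [Finset.card_pos] at hpos
      obtain ⟨i, hi⟩ := hpos
      simp only [Finset.mem_filter, Finset.mem_univ, true_and, dot_add, dot_smul] at hi
      have h5 := hsingle i hi.1 hi.2.1
      rw [h5, zero_add] at hi
      exact (mul_eq_zero.mp hi.2.2).resolve_right hi.2.1
    exact hne ((key r hr).trans (key r' hr').symm)
  · exact ⟨ν, hν, h1, hBν, h2, hEge⟩

/-- type II noncentral point whose second line has multiplicity at least two -/
theorem GData.II_star (G : GData n ω ℓ) (l w0 s1 : Fin 3 → ℂ)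
    (hl : InvLine ω l) (hcen : IsCenter ω l w0) (hs : dot l s1 = 0) (hws : cr w0 s1 ≠ 0)
    (he : 2 ≤ ec ℓ w0 s1) (hsing : evv ω s1 = 0) (l1 f : Fin 3 → ℂ) (hl1 : InvLine ω l1)
    (h1s : dot l1 s1 = 0) (h1w : dot l1 w0 ≠ 0)
    (hsingle : ∀ i, dot (ℓ i) s1 = 0 → dot (ℓ i) w0 ≠ 0 → ∀ p, dot l1 p = 0 → dot (ℓ i) p = 0)
    (hf : dot l1 f = 0) (hfs : cr f s1 ≠ 0) (he1 : 2 ≤ ec ℓ f s1) : Star n ω := by
  classical
  obtain ⟨w1, hw1⟩ := G.center_exists l1 f s1 hl1 hf h1s hfs he1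
  have hs1ne : s1 ≠ 0 := ne_zero_of_cr_right hws
  -- points of l1 different from s1 are not on l
  have hnot : ∀ p, dot l1 p = 0 → cr p s1 ≠ 0 → dot l p ≠ 0 := by
    intro p hp hps hlp
    obtain ⟨x, y, hxy⟩ := line_span hl.1 hlp hs hps hcen.2.1
    apply h1w
    rw [hxy, dot_add, dot_smul, dot_smul, hp, h1s]; ring
  have hcr1 : cr w1 s1 = 0 := by
    by_contra hne
    have hlw1 := hnot w1 hw1.2.1 hne
    have ht : tri w0 w1 s1 ≠ 0 := tri_ne_of_line hcen.2.1 hs hws hlw1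
    have ht' : tri w1 w0 s1 ≠ 0 := by rw [tri_swap]; exact neg_ne_zero.mpr ht
    obtain ⟨ν, hν, hA1, hB1, hb, hEge⟩ := G.single_II l w0 w1 s1 ht hl hcen hs he hsing
      (fun i h1 h2 => hsingle i h1 h2 w1 hw1.2.1)
    have he1' : 2 ≤ ec ℓ w1 s1 := by
      rw [← ec_congr hl1.1 hf h1s hfs hw1.2.1 h1s hne]; exact he1
    obtain ⟨m, A', hm, hk, hAeq⟩ := G.lemP_frame l1 w1 w0 s1 ht' hl1 hw1 h1s he1'
    have hAG : Ord 1 1 ν (ev ω w1 w0 s1 w1) := Ord_swap_ev w0 w1 s1 w1 ν hB1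
    have hBG : Ord 1 1 ν (ev ω w1 w0 s1 w0) := Ord_swap_ev w0 w1 s1 w0 ν (hA1.mono (by omega))
    have hNCa := NC_a ν (ec ℓ w1 s1) _ _ m A' hAG hBG hm hAeq
    have hAGne : wc 1 1 ν (ev ω w1 w0 s1 w1) ≠ 0 := by
      intro h
      apply hb
      ext i
      rw [coeff_zero]
      by_cases hi : i ≤ ν
      · have := wc_swap_ev (ω := ω) w0 w1 s1 w1 ν (ν - i) (by omega)
        rw [h, coeff_zero, show ν - (ν - i) = i by omega] at this
        exact this.symm
      · apply coeff_eq_zero_of_natDegree_lt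
        have := wc_natDegree_le ν (ev ω w0 w1 s1 w1)
        omega
    have hdeg := hNCa.resolve_left hAGne
    have hdvd : X ^ (ec ℓ w1 s1) ∣ wc 1 1 ν (ev ω w0 w1 s1 w1) := by
      rw [X_pow_dvd_iff]
      intro i hi
      rw [wc_swap_ev w1 w0 s1 w1 ν i (by omega)]
      apply coeff_eq_zero_of_natDegree_lt
      omega
    have hmul : ec ℓ w1 s1 ≤ (wc 1 1 ν (ev ω w0 w1 s1 w1)).rootMultiplicity 0 := by
      rw [le_rootMultiplicity_iff hb]
      simpa using hdvd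
    have hroot : (wc 1 1 ν (ev ω w0 w1 s1 w1)).IsRoot 0 := by
      rw [← rootMultiplicity_pos hb]; omega
    obtain ⟨g1, g2, -, g4⟩ := G.chart_main w0 w1 s1 ht
    have key := II_mult_ge ν (Ec ℓ s1) hν _ _ hA1 hB1 hb g1 g2 0 hroot
    rw [g4 0, zero_smul, add_zero] at key
    have hfc : fc ℓ s1 w0 w1 ≤ ec ℓ w1 s1 := by
      unfold fc ec
      apply Finset.card_le_card
      intro i hi
      simp only [Finset.mem_filter, Finset.mem_univ, true_and] at hi ⊢
      exact ⟨hi.1, hi.2.2⟩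
    omega
  obtain ⟨c, hc⟩ := eq_smul_of_cr hcr1 hs1ne
  have hc0 : c ≠ 0 := by
    rintro rfl; apply hw1.1; rw [hc, zero_smul]
  have hcs : IsCenter ω l1 s1 := by
    have := hw1.smul c⁻¹ (inv_ne_zero hc0)
    rw [hc, smul_smul, inv_mul_cancel₀ hc0, one_smul] at this
    exact this
  -- the frame (s1, w0, f) for l1
  have hsf : cr s1 f ≠ 0 := cr_swap_ne hfs
  have ht1 : tri s1 w0 f ≠ 0 := tri_ne_of_line h1s hf hsf h1w
  have he1' : 2 ≤ ec ℓ s1 f := by
    rw [ec_congr hl1.1 h1s hf hsf hf h1s hfs]; exact he1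
  obtain ⟨hB1, J1, P1, hJ1, hJP1, hdeg1, hroot1, hlt1⟩ :=
    G.line_data l1 s1 w0 f ht1 hl1 hcs hf he1'
  set B1 := (ev ω s1 w0 f w0).coeff 0 with hB1def
  -- the frame (w0, f, s1)
  have hlf := hnot f hf hfs
  have ht2 : tri w0 f s1 ≠ 0 := tri_ne_of_line hcen.2.1 hs hws hlf
  obtain ⟨ν, hν, hA2, hB2, hb2, hEge⟩ := G.single_II l w0 f s1 ht2 hl hcen hs he hsing
      (fun i h1 h2 => hsingle i h1 h2 f hf)
  obtain ⟨g1, g2, -, g4⟩ := G.chart_main w0 f s1 ht2
  have hx := ev_inv_x G.fol.euler l1 w0 f s1 hl1 hf h1s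
  have hlead : B1.coeff B1.natDegree ≠ 0 := mt leadingCoeff_eq_zero.mp hB1
  have hdn : B1.natDegree + 0 ≤ n + 1 := ev_deg G.fol.hom s1 w0 f w0 B1.natDegree 0 hlead
  have hk : ((ev ω w0 f s1 w0).coeff (n + 1 - B1.natDegree)).coeff 0 ≠ 0 := by
    rw [ev_swap, ev_rev G.fol.hom f w0 s1 w0 (n + 1 - B1.natDegree) 0 B1.natDegree (by omega)]
    exact hlead
  obtain ⟨k1, k2⟩ := II_upper_lambda ν (Ec ℓ s1) hν _ _ hA2 hB2 hb2 g1 g2 hx _ hk
  obtain ⟨d1, d2⟩ := lemR_deg B1 J1 hB1 hJ1 hroot1 hlt1 (by omega)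
  refine ⟨w0, f, s1, ht2, hA2.mono (by omega), hB2.mono (by omega)⟩

end Pool.Agent.Lib.MP_5bde83_ag
end
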